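import Mathlib

/-! Base rings with the point count of Lang and Weil, and the limits of the statement. -/

set_option autoImplicit false

namespace Pool.Agent.Lib.MP_1a0ddd_nt

open Polynomial Filter Topology

/-- `Spec R` and all its nonempty principal open subsets have `p^d (1 + o(1))` points over `F_p` -/
def LangWeil (R : Type) [CommRing R] (d : ℕ) : Prop :=
  ∀ D : R, D ≠ 0 → Tendsto (fun p : ℕ => (Nat.card {z : R →+* ZMod p // z D ≠ 0} : ℝ) / (p : ℝ) ^ d)
    (atTop ⊓ 𝓟 {p : ℕ | p.Prime}) (𝓝 1)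

/-- `R` is a domain of characteristic zero with the point count of dimension `d` -/
def IsBase (R : Type) [CommRing R] (d : ℕ) : Prop := IsDomain R ∧ CharZero R ∧ LangWeil R d

/-- the ring `R[x, w]/(w² - h(x))` -/
abbrev HypRing (R : Type) [CommRing R] (h : R[X]) : Type := AdjoinRoot (X ^ 2 - C h : R[X][X])

/-- the same ring with its own instance -/
def DoubleCover (R : Type) [CommRing R] (h : R[X]) : Type := AdjoinRoot (X ^ 2 - C h : R[X][X])

noncomputable instance (R : Type) [CommRing R] (h : R[X]) : CommRing (DoubleCover R h) :=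
  AdjoinRoot.instCommRing _

/-- `(1/T) ∑_{p ≤ T} c(p) log p → γ` -/
def TauberMean (c : ℕ → ℝ) (γ : ℝ) : Prop :=
  Tendsto (fun T : ℕ => (∑ p ∈ (Finset.Icc 1 T).filter Nat.Prime, c p * Real.log p) / (T : ℝ))
    atTop (𝓝 γ)

/-- `c(p) → γ` over the primes -/
def PrimeLim (c : ℕ → ℝ) (γ : ℝ) : Prop := Tendsto c (atTop ⊓ 𝓟 {p : ℕ | p.Prime}) (𝓝 γ)

end Pool.Agent.Lib.MP_1a0ddd_nt
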