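import Pool.Agent.Lib.MP_1a0ddd_nt.Base

/-! Towers of double covers: definitions. -/

set_option autoImplicit false

namespace Pool.Agent.Lib.MP_1a0ddd_nt

open Polynomial

/-- `h` is not a constant times a square over the fraction field of `R` -/
def NotSq {R : Type} [CommRing R] (h : R[X]) : Prop :=
  ∀ (u : FractionRing R) (s : (FractionRing R)[X]),
    h.map (algebraMap R (FractionRing R)) ≠ C u * s ^ 2

/-- the rings obtained from `ℤ` by the steps `R ↦ R[x]`, `R ↦ R[x, w]/(w² - h(x))` with `h` not a
constant times a square over the fraction field of `R`, `R ↦ R[1/s]` with `s ≠ 0`, and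
isomorphisms -/
inductive TowerD : (R : Type) → [CommRing R] → ℕ → Prop
  | int : TowerD ℤ 0
  | poly {R : Type} [CommRing R] {d : ℕ} (hR : TowerD R d) : TowerD R[X] (d + 1)
  | dbl {R : Type} [CommRing R] {d : ℕ} (hR : TowerD R d) (h : R[X]) (hh : NotSq h) :
      TowerD (HypRing R h) (d + 1)
  | loc {R : Type} [CommRing R] {d : ℕ} (hR : TowerD R d) (s : R) (hs : s ≠ 0) :
      TowerD (Localization.Away s) d
  | iso {R S : Type} [CommRing R] [CommRing S] {d : ℕ} (hR : TowerD R d) (e : R ≃+* S) :
      TowerD S d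

end Pool.Agent.Lib.MP_1a0ddd_nt
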