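import Mathlib

/-!
The number of points of `y² = h(x)` over `F_p`, `h` of odd degree `n`, by Stepanov's method.

Let `c = h^((p-1)/2)` and `a = 1` or `a = -1`. Claim: for every even `l > 0` and all `p` large in
terms of `n` and `l`, `l N_a ≤ l n + p (l + n + 1)/2` for `N_a = #{x | c(x) = a}`. Then `N_0 ≤ n`,
`N_1 + N_(-1) + N_0 = p` and `#{y² = h(x)} = N_0 + 2 N_1` give the theorem (`l → ∞`).

Proof of the claim. Choose `t` with `h(t) ≠ 0` (`p > n`). Put `D = (p - n)/2`, `J = l/2 + 1`.
Look for `r_j, s_j` (`j < J`) of degree `< D`, not all `0`, and put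
`Φ = h^l ∑_j (r_j + s_j c) (X - t)^(j p)`.
(A) `Φ ≠ 0`: otherwise let `k` be minimal with `(r_k, s_k) ≠ 0`; then `(X - t)^p ∣ r_k + s_k c`,
hence `(X - t)^p ∣ r_k² h - s_k² c² h`, and `c² h = h^p ≡ h(t) mod (X - t)^p`, so
`r_k² h = h(t) s_k²` by degrees (`2 (D - 1) + n < p`), impossible because `n` is odd.
(B) for `k < l` the `k`-th derivative of `Φ` is `h^(l-k) ∑_j (r_(j,k) + s_(j,k) c) (X - t)^(j p)`
with `deg r_(j,k), deg s_(j,k) < D + k n`.
(C) the conditions `∑_j (r_(j,k) + a s_(j,k)) (X - t)^j = 0` for all `k < l` are at most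
`l (D + l n + J)` homogeneous linear equations for `2 J D = (l + 2) D` unknowns; for `p`
large there is a nonzero solution.
(D) then `Φ` has a zero of multiplicity `≥ l` at every `x` with `c(x) = a` (there
`(x - t)^(j p) = (x - t)^j`; `l < p`), and `deg Φ ≤ l n + D + n (p-1)/2 + (J - 1) p`.
-/

set_option autoImplicit false

namespace Pool.Agent.Lib.MP_1a0ddd_nt

open Polynomial

private lemma iter_mul_of_deriv_zero {F : Type*} [Field F] (f g : F[X]) (hg : derivative g = 0)
    (k : ℕ) : derivative^[k] (f * g) = derivative^[k] f * g := by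
  induction k with
  | zero => rfl
  | succ k ih =>
    rw [Function.iterate_succ_apply', Function.iterate_succ_apply', ih, derivative_mul, hg,
      mul_zero, add_zero]

private lemma exists_E {F : Type*} [Field F] (h : F[X]) (n : ℕ) (hn : h.natDegree ≤ n) (b : ℕ)
    (k : ℕ) (hk : k ≤ b) :
    ∃ E : F[X] →ₗ[F] F[X], (∀ r, derivative^[k] (h ^ b * r) = h ^ (b - k) * E r) ∧
      (∀ r, (E r).natDegree ≤ r.natDegree + k * n) := by
  induction k with
  | zero => exact ⟨LinearMap.id, fun r => by simp, fun r => by simp⟩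
  | succ k ih =>
    obtain ⟨E, h1, h2⟩ := ih (by omega)
    refine ⟨((b - k : ℕ) : F) • (LinearMap.mulLeft F (derivative h)) ∘ₗ E +
      (LinearMap.mulLeft F h) ∘ₗ derivative ∘ₗ E, ?_, ?_⟩
    · intro r
      obtain ⟨m, hm⟩ : ∃ m, b - k = m + 1 := ⟨b - k - 1, by omega⟩
      have hm' : b - (k + 1) = m := by omega
      rw [Function.iterate_succ_apply', h1, derivative_mul, derivative_pow, hm, hm']
      simp only [Nat.add_sub_cancel, LinearMap.add_apply, LinearMap.smul_apply,
        LinearMap.comp_apply, LinearMap.mulLeft_apply, smul_eq_C_mul]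
      ring
    · intro r
      simp only [LinearMap.add_apply, LinearMap.smul_apply, LinearMap.comp_apply,
        LinearMap.mulLeft_apply]
      refine (natDegree_add_le _ _).trans (max_le ?_ ?_)
      · refine (natDegree_smul_le _ _).trans (natDegree_mul_le.trans ?_)
        have := h2 r
        have h3 := natDegree_derivative_le h
        rw [Nat.succ_mul]
        omega
      · refine natDegree_mul_le.trans ?_
        have := h2 r
        have h3 := natDegree_derivative_le (E r)
        rw [Nat.succ_mul]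
        omega

private lemma Phi_ne_zero (p : ℕ) [Fact p.Prime] (q : ℕ) (hq : 2 * q + 1 = p) (n D J : ℕ)
    (hn : Odd n) (h : (ZMod p)[X]) (hdeg : h.natDegree = n) (hD : 2 * D + n ≤ p)
    (t : ZMod p) (ht : h.eval t ≠ 0) (r s : Fin J → (ZMod p)[X])
    (hr : ∀ j, (r j).natDegree < D) (hs : ∀ j, (s j).natDegree < D)
    (hne : ∃ j, r j ≠ 0 ∨ s j ≠ 0) :
    ∑ j : Fin J, (r j + s j * h ^ q) * (X - C t) ^ (p * (j : ℕ)) ≠ 0 := by
  classical
  intro h0
  have hp : p.Prime := Fact.out
  obtain ⟨k, hk, hmin⟩ := WellFounded.has_min (wellFounded_lt (α := Fin J))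
    {j | r j ≠ 0 ∨ s j ≠ 0} hne
  have hY : (X - C t : (ZMod p)[X]) ≠ 0 := X_sub_C_ne_zero t
  have h1 : (X - C t : (ZMod p)[X]) ^ (p * (k : ℕ) + p) ∣
      (r k + s k * h ^ q) * (X - C t) ^ (p * (k : ℕ)) := by
    have h2 := Finset.add_sum_erase (Finset.univ : Finset (Fin J))
      (fun j => (r j + s j * h ^ q) * (X - C t) ^ (p * (j : ℕ))) (Finset.mem_univ k)
    rw [h0] at h2
    rw [eq_neg_of_add_eq_zero_left h2, dvd_neg]
    refine Finset.dvd_sum fun j hj => ?_
    rcases lt_or_ge j k with hjk | hjk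
    · have : ¬ (r j ≠ 0 ∨ s j ≠ 0) := fun hh => hmin j hh hjk
      push Not at this
      rw [this.1, this.2, zero_mul, add_zero, zero_mul]
      exact dvd_zero _
    · have hjk' : k < j := lt_of_le_of_ne hjk (Finset.ne_of_mem_erase hj).symm
      refine Dvd.dvd.mul_left (pow_dvd_pow _ ?_) _
      have : (k : ℕ) + 1 ≤ j := hjk'
      calc p * (k : ℕ) + p = p * ((k : ℕ) + 1) := by ring
        _ ≤ p * (j : ℕ) := Nat.mul_le_mul_left _ this
  have h2 : (X - C t : (ZMod p)[X]) ^ p ∣ r k + s k * h ^ q := by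
    rw [pow_add, mul_comm] at h1
    exact (mul_dvd_mul_iff_right (pow_ne_zero _ hY)).1 h1
  have h3 : (X - C t : (ZMod p)[X]) ^ p ∣ h ^ p - C (h.eval t) := by
    have h4 : (X - C t : (ZMod p)[X]) ^ p ∣ (h - C (h.eval t)) ^ p :=
      pow_dvd_pow_of_dvd (X_sub_C_dvd_sub_C_eval) p
    have h4' : (C (h.eval t) : (ZMod p)[X]) ^ p = C (h.eval t) := by
      rw [← C_pow, ZMod.pow_card]
    rwa [sub_pow_char (x := h), h4'] at h4
  have h5 : (X - C t : (ZMod p)[X]) ^ p ∣ r k ^ 2 * h - C (h.eval t) * s k ^ 2 := by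
    have h6 : r k ^ 2 * h - C (h.eval t) * s k ^ 2 =
        (r k + s k * h ^ q) * ((r k - s k * h ^ q) * h) +
          (h ^ p - C (h.eval t)) * s k ^ 2 := by
      have h6' : h ^ p = h ^ (2 * q + 1) := congrArg (fun e => h ^ e) hq.symm
      rw [h6']; ring
    rw [h6]
    exact dvd_add (Dvd.dvd.mul_right h2 _) (Dvd.dvd.mul_right h3 _)
  have hrk := hr k
  have hsk := hs k
  have h7 : r k ^ 2 * h - C (h.eval t) * s k ^ 2 = 0 := by
    apply eq_zero_of_dvd_of_natDegree_lt h5
    rw [natDegree_pow, natDegree_X_sub_C, mul_one]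
    refine lt_of_le_of_lt (natDegree_sub_le _ _) (max_lt ?_ ?_)
    · refine lt_of_le_of_lt natDegree_mul_le ?_
      rw [natDegree_pow, hdeg]
      omega
    · refine lt_of_le_of_lt (natDegree_C_mul_le _ _) ?_
      rw [natDegree_pow]
      have := hn.pos
      omega
  have h8 : r k ^ 2 * h = C (h.eval t) * s k ^ 2 := sub_eq_zero.1 h7
  have hh : h ≠ 0 := by
    rintro rfl
    simp at ht
  by_cases hrz : r k = 0
  · have hsz : s k ≠ 0 := by
      rcases hk with hk | hk
      · exact absurd hrz hk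
      · exact hk
    rw [hrz] at h8
    have : C (h.eval t) * s k ^ 2 ≠ 0 := mul_ne_zero (C_ne_zero.2 ht) (pow_ne_zero _ hsz)
    apply this
    rw [← h8]
    ring
  · have h9 := congrArg natDegree h8
    rw [natDegree_mul (pow_ne_zero _ hrz) hh, natDegree_C_mul ht, natDegree_pow, natDegree_pow,
      hdeg] at h9
    obtain ⟨u, hu⟩ := hn
    omega

private lemma step_bound (p : ℕ) [Fact p.Prime] (q : ℕ) (hq : 2 * q + 1 = p) (n m D : ℕ)
    (hn : Odd n) (h : (ZMod p)[X]) (hdeg : h.natDegree = n)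
    (hD : m * (2 * m * n + m + 1) < D) (hDp : 2 * D + n ≤ p) (a : ZMod p) :
    2 * m * (Finset.univ.filter (fun x : ZMod p => (h.eval x) ^ q = a)).card ≤
      2 * m * n + D + n * q + m * p := by
  classical
  have hp : p.Prime := Fact.out
  have hD1 : 1 ≤ D := by omega
  have hmD : m < D := by
    refine lt_of_le_of_lt ?_ hD
    exact Nat.le_mul_of_pos_right m (by omega)
  -- a point with `h(t) ≠ 0`
  have hh : h ≠ 0 := by
    rintro rfl
    have := hn.pos
    simp at hdeg
    omega
  obtain ⟨t, ht⟩ : ∃ t : ZMod p, h.eval t ≠ 0 := by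
    by_contra hcon
    push Not at hcon
    have h1 : (Finset.univ : Finset (ZMod p)).card ≤ h.natDegree := by
      by_contra h2
      push Not at h2
      exact hh (eq_zero_of_natDegree_lt_card_of_eval_eq_zero' h Finset.univ
        (fun i _ => hcon i) h2)
    rw [Finset.card_univ, ZMod.card, hdeg] at h1
    omega
  choose E1 hE1 hE1' using fun k : Fin (2 * m) => exists_E h n hdeg.le (2 * m) k k.2.le
  choose E2 hE2 hE2' using fun k : Fin (2 * m) => exists_E h n hdeg.le (2 * m + q) k
    (by have := k.2; omega)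
  set M : ℕ := D + 2 * m * n + m with hM
  let V := (Fin (m + 1) → degreeLT (ZMod p) D) × (Fin (m + 1) → degreeLT (ZMod p) D)
  let T : V →ₗ[ZMod p] (Fin (2 * m) × Fin M → ZMod p) :=
    LinearMap.pi fun ki => (lcoeff (ZMod p) (ki.2 : ℕ)) ∘ₗ
      (∑ j : Fin (m + 1), (LinearMap.mulRight (ZMod p) ((X - C t : (ZMod p)[X]) ^ (j : ℕ))) ∘ₗ
        ((E1 ki.1) ∘ₗ (degreeLT (ZMod p) D).subtype ∘ₗ (LinearMap.proj j) ∘ₗ
            (LinearMap.fst (ZMod p) _ _) +
          a • ((E2 ki.1) ∘ₗ (degreeLT (ZMod p) D).subtype ∘ₗ (LinearMap.proj j) ∘ₗ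
            (LinearMap.snd (ZMod p) _ _))))
  have hT : ∀ (v : V) (k : Fin (2 * m)) (i : Fin M), T v (k, i) =
      (∑ j : Fin (m + 1), (E1 k (v.1 j : (ZMod p)[X]) + a • E2 k (v.2 j : (ZMod p)[X])) *
        (X - C t) ^ (j : ℕ)).coeff i := by
    intro v k i
    simp [T]
    rfl
  have hfin : Module.finrank (ZMod p) (Fin (2 * m) × Fin M → ZMod p) <
      Module.finrank (ZMod p) V := by
    have e := (degreeLTEquiv (ZMod p) D).finrank_eq
    rw [Module.finrank_fin_fun] at e
    have e1 : Module.finrank (ZMod p) (Fin (m + 1) → degreeLT (ZMod p) D) = (m + 1) * D := by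
      rw [Module.finrank_pi_fintype]
      simp [e]
    have e2 : Module.finrank (ZMod p) (Fin (2 * m) × Fin M → ZMod p) = (2 * m) * M := by
      rw [Module.finrank_pi]
      simp
    rw [Module.finrank_prod, e1, e2, hM]
    nlinarith
  obtain ⟨v, hv, hv0⟩ := (Submodule.ne_bot_iff _).1
    (LinearMap.ker_ne_bot_of_finrank_lt (f := T) hfin)
  rw [LinearMap.mem_ker] at hv
  set r : Fin (m + 1) → (ZMod p)[X] := fun j => (v.1 j : (ZMod p)[X]) with hr
  set s : Fin (m + 1) → (ZMod p)[X] := fun j => (v.2 j : (ZMod p)[X]) with hs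
  have hlt : ∀ w : degreeLT (ZMod p) D, (w : (ZMod p)[X]).natDegree < D := by
    intro w
    have hw := mem_degreeLT.1 w.2
    by_cases hw0 : (w : (ZMod p)[X]) = 0
    · rw [hw0, natDegree_zero]; omega
    · exact (natDegree_lt_iff_degree_lt hw0).2 hw
  have hrD : ∀ j, (r j).natDegree < D := fun j => hlt _
  have hsD : ∀ j, (s j).natDegree < D := fun j => hlt _
  have hne : ∃ j, r j ≠ 0 ∨ s j ≠ 0 := by
    by_contra hcon
    push Not at hcon
    apply hv0
    refine Prod.ext (funext fun j => Subtype.ext ?_) (funext fun j => Subtype.ext ?_)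
    · exact (hcon j).1
    · exact (hcon j).2
  have hP : ∀ k : Fin (2 * m), ∑ j : Fin (m + 1), (E1 k (r j) + a • E2 k (s j)) *
      (X - C t) ^ (j : ℕ) = 0 := by
    intro k
    ext i
    rw [coeff_zero]
    by_cases hi : i < M
    · have := hT v k ⟨i, hi⟩
      rw [hv] at this
      exact this.symm
    · refine coeff_eq_zero_of_natDegree_lt (lt_of_lt_of_le (b := M) ?_ (by omega))
      refine lt_of_le_of_lt (natDegree_sum_le _ _) ?_
      rw [Finset.fold_max_lt]
      refine ⟨by omega, fun j _ => ?_⟩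
      refine lt_of_le_of_lt natDegree_mul_le ?_
      rw [natDegree_pow, natDegree_X_sub_C, mul_one]
      have b1 := hE1' k (r j)
      have b2 := hE2' k (s j)
      have b3 := hrD j
      have b4 := hsD j
      have b5 : (E1 k (r j) + a • E2 k (s j)).natDegree ≤ D - 1 + (k : ℕ) * n := by
        refine (natDegree_add_le _ _).trans (max_le (by omega) ?_)
        exact (natDegree_smul_le _ _).trans (by omega)
      have b6 : (k : ℕ) * n ≤ 2 * m * n := Nat.mul_le_mul_right _ k.2.le
      have b7 := j.2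
      omega
  have hΦ := Phi_ne_zero p q hq n D (m + 1) hn h hdeg hDp t ht r s hrD hsD hne
  set Φ : (ZMod p)[X] := h ^ (2 * m) *
    ∑ j : Fin (m + 1), (r j + s j * h ^ q) * (X - C t) ^ (p * (j : ℕ)) with hΦdef
  have hΦ0 : Φ ≠ 0 := mul_ne_zero (pow_ne_zero _ hh) hΦ
  have hdegΦ : Φ.natDegree ≤ 2 * m * n + D + n * q + m * p := by
    refine natDegree_mul_le.trans ?_
    rw [natDegree_pow, hdeg]
    have b0 : (∑ j : Fin (m + 1), (r j + s j * h ^ q) * (X - C t) ^ (p * (j : ℕ))).natDegree ≤
        D + n * q + m * p := by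
      refine natDegree_sum_le_of_forall_le _ _ fun j _ => ?_
      refine natDegree_mul_le.trans ?_
      rw [natDegree_pow, natDegree_X_sub_C, mul_one]
      have b1 : (r j + s j * h ^ q).natDegree ≤ D + n * q := by
        refine (natDegree_add_le _ _).trans (max_le ?_ ?_)
        · have := hrD j
          omega
        · refine natDegree_mul_le.trans ?_
          rw [natDegree_pow, hdeg]
          have := hsD j
          rw [mul_comm q n]
          omega
      have b2 : p * (j : ℕ) ≤ m * p := by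
        rw [mul_comm]
        exact Nat.mul_le_mul_right _ (by have := j.2; omega)
      omega
    omega
  have hdY : ∀ j : ℕ, derivative ((X - C t : (ZMod p)[X]) ^ (p * j)) = 0 := by
    intro j
    rw [derivative_pow]
    simp
  have hroot : ∀ x : ZMod p, (h.eval x) ^ q = a → ∀ k : ℕ, k < 2 * m →
      (derivative^[k] Φ).IsRoot x := by
    intro x hx k hk
    have c1 : Φ = ∑ j : Fin (m + 1), ((h ^ (2 * m) * r j) * (X - C t) ^ (p * (j : ℕ)) +
        (h ^ (2 * m + q) * s j) * (X - C t) ^ (p * (j : ℕ))) := by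
      rw [hΦdef, Finset.mul_sum]
      refine Finset.sum_congr rfl fun j _ => ?_
      ring
    have c2 : derivative^[k] Φ = ∑ j : Fin (m + 1),
        ((h ^ (2 * m - k) * E1 ⟨k, hk⟩ (r j)) * (X - C t) ^ (p * (j : ℕ)) +
        (h ^ (2 * m + q - k) * E2 ⟨k, hk⟩ (s j)) * (X - C t) ^ (p * (j : ℕ))) := by
      rw [c1, iterate_derivative_sum]
      refine Finset.sum_congr rfl fun j _ => ?_
      rw [iterate_map_add, iter_mul_of_deriv_zero _ _ (hdY j),
        iter_mul_of_deriv_zero _ _ (hdY j)]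
      have c3 := hE1 ⟨k, hk⟩ (r j)
      have c4 := hE2 ⟨k, hk⟩ (s j)
      simp only at c3 c4
      rw [c3, c4]
    have c5 := congrArg (eval x) (hP ⟨k, hk⟩)
    rw [eval_zero, eval_finsetSum] at c5
    rw [IsRoot.def, c2, eval_finsetSum]
    have c6 : ∀ j : Fin (m + 1), eval x
        ((h ^ (2 * m - k) * E1 ⟨k, hk⟩ (r j)) * (X - C t) ^ (p * (j : ℕ)) +
        (h ^ (2 * m + q - k) * E2 ⟨k, hk⟩ (s j)) * (X - C t) ^ (p * (j : ℕ))) =
        (eval x h) ^ (2 * m - k) * eval x ((E1 ⟨k, hk⟩ (r j) + a • E2 ⟨k, hk⟩ (s j)) *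
      (X - C t) ^ (j : ℕ)) := by
      intro j
      have c7 : 2 * m + q - k = (2 * m - k) + q := by omega
      rw [c7]
      simp only [eval_add, eval_mul, eval_pow, eval_sub, eval_X, eval_C, eval_smul, smul_eq_mul,
        pow_mul, ZMod.pow_card, pow_add, hx]
      ring
    rw [Finset.sum_congr rfl fun j _ => c6 j, ← Finset.mul_sum, c5, mul_zero]
  have hmult : ∀ x : ZMod p, (h.eval x) ^ q = a → 2 * m ≤ Φ.rootMultiplicity x := by
    intro x hx
    rcases Nat.eq_zero_or_pos m with hm0 | hm0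
    · omega
    · have d1 : 2 * m - 1 < Φ.rootMultiplicity x := by
        refine lt_rootMultiplicity_of_isRoot_iterate_derivative_of_mem_nonZeroDivisors hΦ0
          (fun k hk => hroot x hx k (by omega)) ?_
        rw [mem_nonZeroDivisors_iff_ne_zero]
        intro d2
        rw [ZMod.natCast_eq_zero_iff, hp.dvd_factorial] at d2
        omega
      omega
  calc 2 * m * (Finset.univ.filter (fun x : ZMod p => (h.eval x) ^ q = a)).card
      = ∑ x ∈ Finset.univ.filter (fun x : ZMod p => (h.eval x) ^ q = a), 2 * m := by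
        rw [Finset.sum_const, smul_eq_mul, mul_comm]
    _ ≤ ∑ x ∈ Finset.univ.filter (fun x : ZMod p => (h.eval x) ^ q = a), Φ.roots.count x := by
        refine Finset.sum_le_sum fun x hx => ?_
        rw [count_roots]
        exact hmult x (Finset.mem_filter.1 hx).2
    _ ≤ ∑ x : ZMod p, Φ.roots.count x :=
        Finset.sum_le_sum_of_subset (Finset.filter_subset _ _)
    _ = Φ.roots.card := Multiset.sum_count_eq_card fun _ _ => Finset.mem_univ _
    _ ≤ Φ.natDegree := card_roots' Φ
    _ ≤ _ := hdegΦ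

private lemma card_eq (p : ℕ) [Fact p.Prime] (q : ℕ) (hq : 2 * q + 1 = p) (h : (ZMod p)[X]) :
    (Nat.card {P : ZMod p × ZMod p // P.2 ^ 2 = h.eval P.1} : ℤ) =
      p + (Finset.univ.filter (fun x : ZMod p => (h.eval x) ^ q = 1)).card -
      (Finset.univ.filter (fun x : ZMod p => (h.eval x) ^ q = -1)).card := by
  classical
  have hp : p.Prime := Fact.out
  have hp2 : ringChar (ZMod p) ≠ 2 := by
    rw [ZMod.ringChar_zmod_n]
    omega
  have h1 : (Nat.card {P : ZMod p × ZMod p // P.2 ^ 2 = h.eval P.1} : ℤ) =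
      ∑ x : ZMod p, ((Finset.univ.filter (fun y : ZMod p => y ^ 2 = h.eval x)).card : ℤ) := by
    rw [Nat.card_eq_fintype_card, Fintype.card_subtype, Finset.card_filter,
      ← Finset.univ_product_univ, Finset.sum_product]
    push_cast
    refine Finset.sum_congr rfl fun x _ => ?_
    rw [Finset.card_filter]
    push_cast
    rfl
  have h2 : ∀ x : ZMod p, ((Finset.univ.filter (fun y : ZMod p => y ^ 2 = h.eval x)).card : ℤ) =
      quadraticChar (ZMod p) (h.eval x) + 1 := by
    intro x
    rw [← quadraticChar_card_sqrts hp2 (h.eval x)]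
    congr 1
    congr 1
    ext y
    simp
  have h3 : ∀ v : ZMod p, (quadraticChar (ZMod p) v : ℤ) =
      (if v ^ q = 1 then 1 else 0) - (if v ^ q = -1 then 1 else 0) := by
    intro v
    have hq0 : q ≠ 0 := by
      rintro rfl
      exact hp.one_lt.ne' (by omega)
    have hpq : p / 2 = q := by omega
    by_cases hv : v = 0
    · subst hv
      rw [zero_pow hq0]
      simp
    · rw [quadraticChar_eq_pow_of_char_ne_two hp2 hv, ZMod.card, hpq]
      have hneg : (-1 : ZMod p) ≠ 1 := Ring.neg_one_ne_one_of_char_ne_two hp2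
      rcases ZMod.pow_div_two_eq_neg_one_or_one p hv with hv1 | hv1
      · rw [hpq] at hv1
        rw [if_pos hv1, if_pos hv1, if_neg (by rw [hv1]; exact hneg.symm)]
        norm_num
      · rw [hpq] at hv1
        rw [if_neg (by rw [hv1]; exact hneg), if_neg (by rw [hv1]; exact hneg), if_pos hv1]
        norm_num
  rw [h1, Finset.sum_congr rfl fun x _ => h2 x, Finset.sum_add_distrib,
    Finset.sum_congr rfl fun x _ => h3 (h.eval x), Finset.sum_sub_distrib, Finset.sum_const,
    Finset.card_univ, ZMod.card, Finset.card_filter, Finset.card_filter]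
  push_cast
  ring

theorem card_curve (n : ℕ) (hn : Odd n) (ε : ℝ) (hε : 0 < ε) : ∃ p₀ : ℕ, ∀ p : ℕ, p₀ ≤ p →
    p.Prime → ∀ h : (ZMod p)[X], h.natDegree = n →
    |(Nat.card {P : ZMod p × ZMod p // P.2 ^ 2 = h.eval P.1} : ℝ) - p| ≤ ε * p := by
  classical
  obtain ⟨m, hm⟩ := exists_nat_gt (((n : ℝ) + 1) / ε)
  obtain ⟨B, hB⟩ := exists_nat_gt ((6 * (n : ℝ)) / ε)
  have hm0 : (0 : ℝ) < m := lt_trans (by positivity) hm
  refine ⟨B + n + 2 * (m * (2 * m * n + m + 1)) + 4, fun p hp hpp h hdeg => ?_⟩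
  have : Fact p.Prime := ⟨hpp⟩
  have hodd : Odd p := hpp.odd_of_ne_two (by omega)
  obtain ⟨q, hq⟩ := hodd
  have hq' : 2 * q + 1 = p := hq.symm
  set D : ℕ := (p - n) / 2 with hD
  have hD1 : m * (2 * m * n + m + 1) < D := by omega
  have hD2 : 2 * D + n ≤ p := by omega
  have b1 := step_bound p q hq' n m D hn h hdeg hD1 hD2 1
  have b2 := step_bound p q hq' n m D hn h hdeg hD1 hD2 (-1)
  have e := card_eq p q hq' h
  set N1 := (Finset.univ.filter (fun x : ZMod p => (h.eval x) ^ q = 1)).card with hN1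
  set N2 := (Finset.univ.filter (fun x : ZMod p => (h.eval x) ^ q = -1)).card with hN2
  have hneg : (-1 : ZMod p) ≠ 1 := by
    apply Ring.neg_one_ne_one_of_char_ne_two
    rw [ZMod.ringChar_zmod_n]
    omega
  have hsum' : N1 + N2 ≤ p := by
    rw [hN1, hN2, ← Finset.card_union_of_disjoint]
    · exact (Finset.card_le_univ _).trans (ZMod.card p).le
    · rw [Finset.disjoint_filter]
      intro x _ hx1 hx2
      exact hneg (hx2.symm.trans hx1)
  have hh : h ≠ 0 := by
    rintro rfl
    have := hn.pos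
    simp at hdeg
    omega
  have hsum : p ≤ N1 + N2 + n := by
    have h1 : (Finset.univ : Finset (ZMod p)) ⊆
        (Finset.univ.filter (fun x : ZMod p => (h.eval x) ^ q = 1) ∪
          Finset.univ.filter (fun x : ZMod p => (h.eval x) ^ q = -1)) ∪ h.roots.toFinset := by
      intro x _
      have hpq : p / 2 = q := by omega
      by_cases hx : h.eval x = 0
      · refine Finset.mem_union_right _ ?_
        rw [Multiset.mem_toFinset, mem_roots hh]
        exact hx
      · refine Finset.mem_union_left _ ?_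
        rw [Finset.mem_union, Finset.mem_filter, Finset.mem_filter]
        have := ZMod.pow_div_two_eq_neg_one_or_one p hx
        rw [hpq] at this
        rcases this with h2 | h2
        · exact Or.inl ⟨Finset.mem_univ _, h2⟩
        · exact Or.inr ⟨Finset.mem_univ _, h2⟩
    have h2 := Finset.card_le_card h1
    rw [Finset.card_univ, ZMod.card] at h2
    refine h2.trans ((Finset.card_union_le _ _).trans (Nat.add_le_add (Finset.card_union_le _ _) ?_))
    exact (Multiset.toFinset_card_le _).trans ((card_roots' h).trans hdeg.le)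
  have e' : (Nat.card {P : ZMod p × ZMod p // P.2 ^ 2 = h.eval P.1} : ℝ) = p + N1 - N2 := by
    exact_mod_cast e
  rw [e']
  have c1 : (2 : ℝ) * m * N1 ≤ 2 * m * n + D + n * q + m * p := by exact_mod_cast b1
  have c2 : (2 : ℝ) * m * N2 ≤ 2 * m * n + D + n * q + m * p := by exact_mod_cast b2
  have c3 : (p : ℝ) ≤ N1 + N2 + n := by exact_mod_cast hsum
  have c4 : (N1 : ℝ) + N2 ≤ p := by exact_mod_cast hsum'
  have c5 : (2 : ℝ) * D + n ≤ p := by exact_mod_cast hD2
  have c6 : (2 : ℝ) * q + 1 = p := by exact_mod_cast hq'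
  have c7 : (B : ℝ) ≤ p := by exact_mod_cast (by omega : B ≤ p)
  have hB' : 6 * (n : ℝ) < ε * p := by
    have := (div_lt_iff₀ hε).1 (lt_of_lt_of_le hB c7)
    linarith
  have hm' : (n : ℝ) + 1 < ε * m := by
    have := (div_lt_iff₀ hε).1 hm
    linarith
  have hp0 : (0 : ℝ) < p := by exact_mod_cast hpp.pos
  have hn0 : (0 : ℝ) ≤ n := Nat.cast_nonneg n
  have d1 : 6 * (n : ℝ) * m ≤ ε * p * m := mul_le_mul_of_nonneg_right hB'.le hm0.le
  have d2 : ((n : ℝ) + 1) * p ≤ ε * m * p := mul_le_mul_of_nonneg_right hm'.le hp0.le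
  have d3 : (D : ℝ) + n * q ≤ (n + 1) * p / 2 := by nlinarith
  rw [abs_le]
  constructor
  · refine le_of_mul_le_mul_left ?_ hm0
    nlinarith
  · refine le_of_mul_le_mul_left ?_ hm0
    nlinarith

end Pool.Agent.Lib.MP_1a0ddd_nt
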