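import Pool.Agent.Lib.MP_1a0ddd_nt.Defs
import Pool.Agent.Lib.MP_629a14_nt.Rob.PsiOne

/-! Point counts of the pencil and the Tauberian average. -/

set_option autoImplicit false

namespace Pool.Agent.Lib.MP_1a0ddd_nt

open Polynomial Filter Topology

variable {R : Type} [CommRing R]

/-- trace of Frobenius of the fibre over `(z, t)`:
`p + 1 - #C(F_p) = p - #{(x, y) ∈ F_p² : y² = f_z(x) + t g_z(x)}` -/
noncomputable def frobTrace (f g : R[X]) (p : ℕ) (z : R →+* ZMod p) (t : ZMod p) : ℤ :=
  (p : ℤ) - Nat.card {P : ZMod p × ZMod p //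
    P.2 ^ 2 = (f.map z).eval P.1 + t * (g.map z).eval P.1}

/-- the average of the traces over the `F_p`-points of `Spec R × A¹`, divided by `p^(d+1)` -/
noncomputable def nagaoAvg (f g : R[X]) (d p : ℕ) : ℝ :=
  (∑ᶠ z : R →+* ZMod p, ∑ᶠ t : ZMod p, (frobTrace f g p z t : ℝ)) / (p : ℝ) ^ (d + 1)

private lemma card_pair {V : Type} [Fintype V] [DecidableEq V] (P : V → V → Prop)
    [∀ x y, Decidable (P x y)] :
    (Nat.card {w : V × V // P w.1 w.2} : ℝ) = ∑ x : V, ∑ y : V, (if P x y then (1 : ℝ) else 0) := by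
  classical
  rw [Nat.card_eq_fintype_card, Fintype.card_subtype, ← Finset.sum_product', Finset.card_filter]
  push_cast
  rfl

private lemma card_one {V : Type} [Fintype V] (P : V → Prop) [∀ x, Decidable (P x)] :
    (Nat.card {w : V // P w} : ℝ) = ∑ x : V, (if P x then (1 : ℝ) else 0) := by
  classical
  rw [Nat.card_eq_fintype_card, Fintype.card_subtype, Finset.card_filter]
  push_cast
  rfl

/-- exact formula for every pencil -/
theorem frob_sum (f g : R[X]) (p : ℕ) (hp : p.Prime) (z : R →+* ZMod p) :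
    ∑ᶠ t : ZMod p, (frobTrace f g p z t : ℝ) =
      (p : ℝ) * ((Nat.card {x : ZMod p // (g.map z).eval x = 0} : ℝ) -
        Nat.card {P : ZMod p × ZMod p // (g.map z).eval P.1 = 0 ∧ P.2 ^ 2 = (f.map z).eval P.1}) := by
  classical
  have : Fact p.Prime := ⟨hp⟩
  set F : ZMod p → ZMod p := fun x => (f.map z).eval x with hF
  set G : ZMod p → ZMod p := fun x => (g.map z).eval x with hG
  have hcard : (Finset.univ : Finset (ZMod p)).card = p := by
    rw [Finset.card_univ, ZMod.card]
  rw [finsum_eq_sum_of_fintype]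
  have h1 : ∀ t : ZMod p, (frobTrace f g p z t : ℝ) =
      (p : ℝ) - ∑ x : ZMod p, ∑ y : ZMod p, (if y ^ 2 = F x + t * G x then (1 : ℝ) else 0) := by
    intro t
    unfold frobTrace
    push_cast
    rw [card_pair (fun x y => y ^ 2 = (f.map z).eval x + t * (g.map z).eval x)]
  rw [Finset.sum_congr rfl (fun t _ => h1 t), Finset.sum_sub_distrib, Finset.sum_const, hcard,
    nsmul_eq_mul]
  rw [card_one (fun x => (g.map z).eval x = 0),
    card_pair (fun x y => (g.map z).eval x = 0 ∧ y ^ 2 = (f.map z).eval x)]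
  rw [Finset.sum_comm]
  have h2 : ∀ x : ZMod p, ∑ t : ZMod p, ∑ y : ZMod p,
      (if y ^ 2 = F x + t * G x then (1 : ℝ) else 0) =
      (p : ℝ) * (1 - (if G x = 0 then (1 : ℝ) else 0) +
        ∑ y : ZMod p, (if G x = 0 ∧ y ^ 2 = F x then (1 : ℝ) else 0)) := by
    intro x
    by_cases h : G x = 0
    · have e : ∀ t : ZMod p, ∑ y : ZMod p, (if y ^ 2 = F x + t * G x then (1 : ℝ) else 0) =
          ∑ y : ZMod p, (if G x = 0 ∧ y ^ 2 = F x then (1 : ℝ) else 0) := by
        intro t
        refine Finset.sum_congr rfl fun y _ => ?_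
        simp [h]
      rw [Finset.sum_congr rfl (fun t _ => e t), Finset.sum_const, hcard, nsmul_eq_mul]
      simp [h]
    · rw [Finset.sum_comm]
      have e : ∀ y : ZMod p, ∑ t : ZMod p, (if y ^ 2 = F x + t * G x then (1 : ℝ) else 0) = 1 := by
        intro y
        rw [Finset.sum_eq_single ((y ^ 2 - F x) / G x)]
        · rw [if_pos]
          field_simp
          ring
        · intro t _ ht
          rw [if_neg]
          intro e
          apply ht
          rw [eq_div_iff h, e]
          ring
        · intro h'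
          exact absurd (Finset.mem_univ _) h'
      rw [Finset.sum_congr rfl (fun t _ => e t), Finset.sum_const, hcard, nsmul_eq_mul]
      simp [h]
  rw [Finset.sum_congr rfl (fun x _ => h2 x), ← Finset.mul_sum, Finset.sum_add_distrib,
    Finset.sum_sub_distrib, Finset.sum_const, hcard, nsmul_eq_mul]
  ring

private lemma finsum_const {α : Type} (c : ℝ) (hα : Finite α ∨ c ≠ 0) :
    ∑ᶠ _ : α, c = (Nat.card α : ℝ) * c := by
  classical
  rcases finite_or_infinite α with h | h
  · have := Fintype.ofFinite α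
    rw [finsum_eq_sum_of_fintype, Finset.sum_const, Nat.card_eq_fintype_card, nsmul_eq_mul,
      Finset.card_univ]
  · have hc : c ≠ 0 := by
      rcases hα with h' | h'
      · exact absurd h' (not_finite_iff_infinite.2 h)
      · exact h'
    rw [finsum_of_infinite_support]
    · simp
    · have : Function.support (fun _ : α => c) = Set.univ := by
        ext x; simp [hc]
      rw [this]
      exact Set.infinite_univ

theorem nagao_split (f : R[X]) {r : ℕ} (a b : Fin r → R)
    (ha : ∀ i j, i ≠ j → IsUnit (a i - a j)) (hb : ∀ i, IsUnit (b i))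
    (hf : ∀ i, f.eval (a i) = b i ^ 2) (d p : ℕ) (hp : p.Prime) (hp2 : p ≠ 2) :
    nagaoAvg f (∏ i, (X - C (a i))) d p =
      -(r : ℝ) * ((Nat.card (R →+* ZMod p) : ℝ) / (p : ℝ) ^ d) := by
  classical
  have : Fact p.Prime := ⟨hp⟩
  have hp0 : (p : ℝ) ≠ 0 := by exact_mod_cast hp.ne_zero
  have key : ∀ z : R →+* ZMod p, ∑ᶠ t : ZMod p, (frobTrace f (∏ i, (X - C (a i))) p z t : ℝ) =
      -((r : ℝ) * p) := by
    intro z
    rw [frob_sum f _ p hp z]
    have hev : ∀ x : ZMod p, ((∏ i, (X - C (a i))).map z).eval x = ∏ i, (x - z (a i)) := by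
      intro x
      rw [Polynomial.map_prod, eval_prod]
      refine Finset.prod_congr rfl fun i _ => ?_
      simp
    have hinj : Function.Injective (fun i => z (a i)) := by
      intro i j hij
      by_contra hne
      have := (ha i j hne).map z
      rw [map_sub] at this
      simp only at hij
      rw [hij, sub_self] at this
      exact not_isUnit_zero this
    have h1 : Nat.card {x : ZMod p // ((∏ i, (X - C (a i))).map z).eval x = 0} = r := by
      have e : {x : ZMod p | ((∏ i, (X - C (a i))).map z).eval x = 0} =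
          Set.range (fun i => z (a i)) := by
        ext x
        simp only [Set.mem_ofPred_eq, Set.mem_range]
        rw [hev x, Finset.prod_eq_zero_iff]
        constructor
        · rintro ⟨i, _, hi⟩
          exact ⟨i, (sub_eq_zero.1 hi).symm⟩
        · rintro ⟨i, hi⟩
          exact ⟨i, Finset.mem_univ _, sub_eq_zero.2 hi.symm⟩
      have : Nat.card {x : ZMod p | ((∏ i, (X - C (a i))).map z).eval x = 0} = r := by
        rw [e, Nat.card_range_of_injective hinj]
        simp
      exact this
    have h2 : Nat.card {P : ZMod p × ZMod p // ((∏ i, (X - C (a i))).map z).eval P.1 = 0 ∧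
        P.2 ^ 2 = (f.map z).eval P.1} = 2 * r := by
      have hfz : ∀ i, (f.map z).eval (z (a i)) = z (b i) ^ 2 := by
        intro i
        rw [eval_map, eval₂_hom, hf i, map_pow]
      have hbz : ∀ i, z (b i) ≠ 0 := fun i => ((hb i).map z).ne_zero
      have hneg : ∀ i, z (b i) ≠ - z (b i) := by
        intro i h
        have h2 : (2 : ZMod p) * z (b i) = 0 := by
          rw [two_mul]
          nth_rewrite 2 [h]
          ring
        rcases mul_eq_zero.1 h2 with h3 | h3
        · have : (p : ℕ) ∣ 2 := by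
            rw [← ZMod.natCast_eq_zero_iff]
            exact_mod_cast h3
          exact hp2 ((Nat.prime_dvd_prime_iff_eq hp Nat.prime_two).1 this)
        · exact hbz i h3
      have e : {P : ZMod p × ZMod p | ((∏ i, (X - C (a i))).map z).eval P.1 = 0 ∧
          P.2 ^ 2 = (f.map z).eval P.1} =
          Set.range (fun q : Fin r × Bool => (z (a q.1), if q.2 then z (b q.1) else - z (b q.1))) := by
        ext ⟨x, y⟩
        simp only [Set.mem_ofPred_eq, Set.mem_range, Prod.mk.injEq, Prod.exists]
        rw [hev x, Finset.prod_eq_zero_iff]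
        constructor
        · rintro ⟨⟨i, _, hi⟩, hy⟩
          have hx := sub_eq_zero.1 hi
          rw [hx, hfz i] at hy
          rcases sq_eq_sq_iff_eq_or_eq_neg.1 hy with h | h
          · exact ⟨i, true, hx.symm, by simp [h]⟩
          · exact ⟨i, false, hx.symm, by simp [h]⟩
        · rintro ⟨i, s, hi, hy⟩
          refine ⟨⟨i, Finset.mem_univ _, sub_eq_zero.2 hi.symm⟩, ?_⟩
          rw [← hi, hfz i, ← hy]
          cases s <;> simp
      have hinj2 : Function.Injective
          (fun q : Fin r × Bool => (z (a q.1), if q.2 then z (b q.1) else - z (b q.1))) := by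
        rintro ⟨i, s⟩ ⟨j, t⟩ h
        simp only [Prod.mk.injEq] at h
        obtain ⟨h1, h2⟩ := h
        have hij : i = j := hinj h1
        subst hij
        cases s <;> cases t <;> simp at h2 ⊢
        · exact hneg i h2.symm
        · exact hneg i h2
      have : Nat.card {P : ZMod p × ZMod p | ((∏ i, (X - C (a i))).map z).eval P.1 = 0 ∧
          P.2 ^ 2 = (f.map z).eval P.1} = 2 * r := by
        rw [e, Nat.card_range_of_injective hinj2]
        simp [mul_comm]
      exact this
    rw [h1, h2]
    push_cast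
    ring
  unfold nagaoAvg
  rw [finsum_congr key]
  rcases Nat.eq_zero_or_pos r with hr | hr
  · subst hr
    simp
  · rw [finsum_const]
    · field_simp
      ring
    · right
      have : (r : ℝ) ≠ 0 := by exact_mod_cast hr.ne'
      exact neg_ne_zero.2 (mul_ne_zero this hp0)

private lemma theta_one : Tendsto (fun T : ℕ =>
    (∑ p ∈ (Finset.Icc 1 T).filter Nat.Prime, Real.log p) / (T : ℝ)) atTop (𝓝 1) := by
  have h1 := Pool.Agent.Lib.MP_629a14_nt.Rob.psi_one
  have h2 : Tendsto (fun T : ℕ => (Chebyshev.psi T - Chebyshev.theta T) / (T : ℝ)) atTop (𝓝 0) := by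
    obtain ⟨C, hC⟩ := Chebyshev.psi_sub_theta_le_mul_sqrt
    have hlim : Tendsto (fun T : ℕ => |C| * (Real.sqrt (T : ℝ))⁻¹) atTop (𝓝 0) := by
      have := (tendsto_inv_atTop_zero.comp (Real.tendsto_sqrt_atTop.comp
        (tendsto_natCast_atTop_atTop (R := ℝ)))).const_mul |C|
      simpa using this
    refine squeeze_zero' ?_ ?_ hlim
    · filter_upwards with T
      have := Chebyshev.theta_le_psi (T : ℝ)
      exact div_nonneg (by linarith) (by positivity)
    · filter_upwards [eventually_ge_atTop 1] with T hT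
      have hT0 : (0 : ℝ) < T := by exact_mod_cast hT
      have hs : 0 < Real.sqrt (T : ℝ) := Real.sqrt_pos.2 hT0
      rw [div_le_iff₀ hT0]
      have h3 := hC (T : ℝ)
      have h4 : |C| * (Real.sqrt (T : ℝ))⁻¹ * (T : ℝ) = |C| * Real.sqrt (T : ℝ) := by
        have : (T : ℝ) = Real.sqrt T * Real.sqrt T := (Real.mul_self_sqrt hT0.le).symm
        rw [mul_assoc]
        congr 1
        nth_rewrite 2 [this]
        field_simp
      rw [h4]
      have h5 : C * Real.sqrt (T : ℝ) ≤ |C| * Real.sqrt (T : ℝ) :=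
        mul_le_mul_of_nonneg_right (le_abs_self C) hs.le
      linarith
  have h3 := h1.sub h2
  rw [sub_zero] at h3
  refine h3.congr fun T => ?_
  have e1 : Chebyshev.psi (T : ℝ) = ∑ n ∈ Finset.Icc 1 T, ArithmeticFunction.vonMangoldt n := by
    unfold Chebyshev.psi
    rw [Nat.floor_natCast]
    rfl
  have e2 : Chebyshev.theta (T : ℝ) = ∑ p ∈ (Finset.Icc 1 T).filter Nat.Prime, Real.log p := by
    unfold Chebyshev.theta
    rw [Nat.floor_natCast]
    rfl
  rw [e1, e2, sub_div]
  ring

/-- from the prime number theorem `psi_one` -/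
theorem tauber (c : ℕ → ℝ) (γ : ℝ)
    (hc : Tendsto c (atTop ⊓ 𝓟 {p : ℕ | p.Prime}) (𝓝 γ)) :
    Tendsto (fun T : ℕ => (∑ p ∈ (Finset.Icc 1 T).filter Nat.Prime, c p * Real.log p) / (T : ℝ))
      atTop (𝓝 γ) := by
  classical
  set g : ℕ → ℝ := fun n => if n.Prime then Real.log n else 0 with hg
  set f : ℕ → ℝ := fun n => (c n - γ) * g n with hf
  have hth := theta_one
  have hsum : ∀ (u : ℕ → ℝ) (T : ℕ), (∑ p ∈ (Finset.Icc 1 T).filter Nat.Prime, u p) =
      ∑ n ∈ Finset.range (T + 1), (if n.Prime then u n else 0) := by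
    intro u T
    rw [← Finset.sum_filter]
    refine Finset.sum_congr ?_ fun _ _ => rfl
    ext n
    simp only [Finset.mem_filter, Finset.mem_Icc, Finset.mem_range]
    constructor
    · rintro ⟨⟨h1, h2⟩, h3⟩
      exact ⟨by omega, h3⟩
    · rintro ⟨h1, h3⟩
      exact ⟨⟨h3.one_lt.le, by omega⟩, h3⟩
  have hgsum : ∀ T : ℕ, (∑ p ∈ (Finset.Icc 1 T).filter Nat.Prime, Real.log p) =
      ∑ n ∈ Finset.range (T + 1), g n := fun T => hsum _ T
  have hfg : f =o[atTop] g := by
    rw [Asymptotics.isLittleO_iff]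
    intro ε hε
    have h1 : ∀ᶠ n in atTop ⊓ 𝓟 {p : ℕ | p.Prime}, |c n - γ| < ε := by
      have := Metric.tendsto_nhds.1 hc ε hε
      simpa [Real.dist_eq] using this
    rw [eventually_inf_principal] at h1
    filter_upwards [h1] with n hn
    by_cases hp : n.Prime
    · have h2 := (hn hp).le
      rw [hf]
      simp only [norm_mul, Real.norm_eq_abs]
      exact mul_le_mul_of_nonneg_right h2 (abs_nonneg _)
    · simp [hf, hg, hp]
  have hg0 : 0 ≤ g := by
    intro n
    simp only [hg, Pi.zero_apply]
    split_ifs with h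
    · exact Real.log_nonneg (by exact_mod_cast h.one_lt.le)
    · exact le_rfl
  have hT1 : Tendsto (fun T : ℕ => ∑ n ∈ Finset.range (T + 1), g n) atTop atTop := by
    have h1 : Tendsto (fun T : ℕ => (∑ n ∈ Finset.range (T + 1), g n) / (T : ℝ) * (T : ℝ))
        atTop atTop := by
      refine Tendsto.pos_mul_atTop (C := 1) one_pos ?_ tendsto_natCast_atTop_atTop
      refine hth.congr fun T => ?_
      rw [hgsum T]
    refine h1.congr' ?_
    filter_upwards [eventually_ge_atTop 1] with T hT
    have hT0 : (T : ℝ) ≠ 0 := by positivity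
    field_simp
  have hT0 : Tendsto (fun T : ℕ => ∑ n ∈ Finset.range T, g n) atTop atTop :=
    (tendsto_add_atTop_iff_nat 1).1 hT1
  have hlit := hfg.sum_range hg0 hT0
  have hlit1 : (fun T : ℕ => ∑ n ∈ Finset.range (T + 1), f n) =o[atTop]
      fun T : ℕ => ∑ n ∈ Finset.range (T + 1), g n :=
    hlit.comp_tendsto (tendsto_add_atTop_nat 1)
  have hbig : (fun T : ℕ => ∑ n ∈ Finset.range (T + 1), g n) =O[atTop] fun T : ℕ => (T : ℝ) := by
    refine (Asymptotics.isBigO_of_div_tendsto_nhds ?_ 1 ?_)
    · filter_upwards [eventually_ge_atTop 1] with T hT h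
      have : (T : ℝ) ≠ 0 := by positivity
      exact absurd h this
    · refine hth.congr fun T => ?_
      rw [hgsum T]
      rfl
  have hz : Tendsto (fun T : ℕ => (∑ n ∈ Finset.range (T + 1), f n) / (T : ℝ)) atTop (𝓝 0) :=
    (hlit1.trans_isBigO hbig).tendsto_div_nhds_zero
  have hfin := (hth.const_mul γ).add hz
  rw [mul_one, add_zero] at hfin
  refine hfin.congr fun T => ?_
  rw [hgsum T, hsum _ T, ← mul_div_assoc, ← add_div, Finset.mul_sum, ← Finset.sum_add_distrib]
  congr 1
  refine Finset.sum_congr rfl fun n _ => ?_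
  simp only [hf, hg]
  split_ifs <;> ring

end Pool.Agent.Lib.MP_1a0ddd_nt
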