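import Pool.Agent.Lib.MP_1a0ddd_nt.Base
import Pool.Agent.Lib.MP_1a0ddd_nt.Count

/-! Domains with the point count of Lang and Weil, closed under odd hyperelliptic fibrations. -/

set_option autoImplicit false

namespace Pool.Agent.Lib.MP_1a0ddd_nt

open Polynomial Filter Topology

theorem langWeil_int : LangWeil ℤ 0 := by
  intro D hD
  refine Tendsto.congr' (f₁ := fun _ => (1 : ℝ)) ?_ tendsto_const_nhds
  rw [EventuallyEq, eventually_inf_principal]
  filter_upwards [eventually_gt_atTop D.natAbs] with p hp hpp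
  have : Fact p.Prime := ⟨hpp⟩
  have h1 : (Int.castRingHom (ZMod p)) D ≠ 0 := by
    rw [eq_intCast, Ne, ZMod.intCast_zmod_eq_zero_iff_dvd, Int.natCast_dvd]
    intro h2
    have h3 := Nat.le_of_dvd (Int.natAbs_pos.2 hD) h2
    omega
  have h2 : Nat.card {z : ℤ →+* ZMod p // z D ≠ 0} = 1 := by
    rw [Nat.card_eq_one_iff_unique]
    exact ⟨⟨fun a b => Subtype.ext (Subsingleton.elim _ _)⟩, ⟨⟨Int.castRingHom _, h1⟩⟩⟩
  rw [h2]
  simp

/-! ### Fibrations -/

private theorem tower_finite {R : Type} [CommRing R] [Nontrivial R] {d : ℕ} (hR : LangWeil R d) :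
    ∀ᶠ p in (atTop ⊓ 𝓟 {p : ℕ | p.Prime}), Finite (R →+* ZMod p) := by
  have h1 := hR 1 one_ne_zero
  have h2 : ∀ᶠ p in (atTop ⊓ 𝓟 {p : ℕ | p.Prime}),
      (0 : ℝ) < (Nat.card {z : R →+* ZMod p // z 1 ≠ 0} : ℝ) / (p : ℝ) ^ d :=
    h1.eventually (lt_mem_nhds zero_lt_one)
  rw [eventually_inf_principal] at h2 ⊢
  filter_upwards [h2] with p hp hpp
  have : Fact p.Prime := ⟨hpp⟩
  have h3 := hp hpp
  have h4 : Nat.card {z : R →+* ZMod p // z 1 ≠ 0} ≠ 0 := by
    intro h5
    rw [h5] at h3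
    simp at h3
  have h5 : Finite {z : R →+* ZMod p // z 1 ≠ 0} := Nat.finite_of_card_ne_zero h4
  exact Finite.of_injective (fun z : R →+* ZMod p =>
    (⟨z, by rw [map_one]; exact one_ne_zero⟩ : {z : R →+* ZMod p // z 1 ≠ 0}))
    (fun a b h => congrArg Subtype.val h)

private theorem tower_card {V : Type} [Fintype V] (P : V → Prop) [DecidablePred P] :
    Nat.card {v : V // P v} = (Finset.univ.filter P).card := by
  rw [Nat.card_eq_fintype_card, Fintype.card_subtype]

private theorem tower_fib {R : Type} [CommRing R] [Nontrivial R] {d : ℕ} (hR : LangWeil R d)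
    (e : R) (he : e ≠ 0) (c : ℕ → ℕ) (N : (p : ℕ) → (R →+* ZMod p) → ℕ)
    (hc : ∀ p : ℕ, p.Prime → ∀ [Fintype (R →+* ZMod p)], c p = ∑ z, N p z)
    (hlow : ∀ ε : ℝ, 0 < ε → ∀ᶠ p : ℕ in atTop, p.Prime → ∀ z : R →+* ZMod p, z e ≠ 0 →
      (1 - ε) * (p : ℝ) ≤ N p z)
    (hup : ∀ ε : ℝ, 0 < ε → ∀ᶠ p : ℕ in atTop, p.Prime → ∀ z : R →+* ZMod p,
      (N p z : ℝ) ≤ (1 + ε) * p) :
    Tendsto (fun p : ℕ => (c p : ℝ) / (p : ℝ) ^ (d + 1)) (atTop ⊓ 𝓟 {p : ℕ | p.Prime}) (𝓝 1) := by
  classical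
  have h1 := hR 1 one_ne_zero
  have h2 := hR e he
  have hfin := tower_finite hR
  rw [tendsto_order]
  refine ⟨fun b hb => ?_, fun b hb => ?_⟩
  · have hε : 0 < (1 - b) / 2 := by linarith
    have h3 := h2.const_mul (1 - (1 - b) / 2)
    rw [mul_one] at h3
    have h4 := h3.eventually (lt_mem_nhds (show b < 1 - (1 - b) / 2 by linarith))
    have h5 := hlow _ hε
    rw [eventually_inf_principal] at h4 hfin ⊢
    filter_upwards [h4, hfin, h5, eventually_gt_atTop 0] with p h4 hfin h5 hp0 hpp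
    have : Finite (R →+* ZMod p) := hfin hpp
    have : Fintype (R →+* ZMod p) := Fintype.ofFinite _
    have hp : (0 : ℝ) < p := by exact_mod_cast hp0
    refine lt_of_lt_of_le (h4 hpp) ?_
    rw [tower_card (fun z : R →+* ZMod p => z e ≠ 0), ← mul_div_assoc, div_le_div_iff₀ (by positivity)
      (by positivity), hc p hpp, pow_succ]
    have h6 : ((Finset.univ.filter fun z : R →+* ZMod p => z e ≠ 0).card : ℝ) *
        ((1 - (1 - b) / 2) * p) ≤ ((∑ z, N p z : ℕ) : ℝ) := by
      rw [← nsmul_eq_mul]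
      push_cast
      calc _ ≤ ∑ z ∈ Finset.univ.filter (fun z : R →+* ZMod p => z e ≠ 0), (N p z : ℝ) := by
            refine Finset.card_nsmul_le_sum _ _ _ fun z hz => ?_
            exact h5 hpp z (Finset.mem_filter.1 hz).2
        _ ≤ _ := Finset.sum_le_sum_of_subset_of_nonneg (Finset.filter_subset _ _)
            fun z _ _ => by positivity
    have h7 : (0 : ℝ) < (p : ℝ) ^ d := by positivity
    nlinarith [mul_le_mul_of_nonneg_right h6 h7.le]
  · have hε : 0 < (b - 1) / 2 := by linarith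
    have h3 := h1.const_mul (1 + (b - 1) / 2)
    rw [mul_one] at h3
    have h4 := h3.eventually (gt_mem_nhds (show 1 + (b - 1) / 2 < b by linarith))
    have h5 := hup _ hε
    rw [eventually_inf_principal] at h4 hfin ⊢
    filter_upwards [h4, hfin, h5, eventually_gt_atTop 0] with p h4 hfin h5 hp0 hpp
    have : Fact p.Prime := ⟨hpp⟩
    have : Finite (R →+* ZMod p) := hfin hpp
    have : Fintype (R →+* ZMod p) := Fintype.ofFinite _
    have hp : (0 : ℝ) < p := by exact_mod_cast hp0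
    refine lt_of_le_of_lt ?_ (h4 hpp)
    rw [tower_card (fun z : R →+* ZMod p => z 1 ≠ 0), ← mul_div_assoc, div_le_div_iff₀ (by positivity)
      (by positivity), hc p hpp, pow_succ]
    have h8 : (Finset.univ.filter fun z : R →+* ZMod p => z 1 ≠ 0) = Finset.univ := by
      ext z
      simp
    rw [h8]
    have h6 : ((∑ z, N p z : ℕ) : ℝ) ≤ ((Finset.univ : Finset (R →+* ZMod p)).card : ℝ) *
        ((1 + (b - 1) / 2) * p) := by
      rw [← nsmul_eq_mul]
      push_cast
      exact Finset.sum_le_card_nsmul _ _ _ fun z _ => h5 hpp z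
    have h7 : (0 : ℝ) < (p : ℝ) ^ d := by positivity
    nlinarith [mul_le_mul_of_nonneg_right h6 h7.le]

private theorem tower_big (ε : ℝ) (hε : 0 < ε) (m : ℕ) : ∀ᶠ p : ℕ in atTop, (m : ℝ) ≤ ε * p := by
  obtain ⟨k, hk⟩ := exists_nat_gt ((m : ℝ) / ε)
  filter_upwards [eventually_ge_atTop k] with p hp
  rw [div_lt_iff₀ hε] at hk
  have h1 : (k : ℝ) ≤ p := by exact_mod_cast hp
  nlinarith

private theorem tower_roots {p : ℕ} [Fact p.Prime] (P : (ZMod p)[X]) (hP : P ≠ 0) :
    (Finset.univ.filter fun x : ZMod p => P.eval x = 0).card ≤ P.natDegree := by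
  classical
  refine le_trans (Finset.card_le_card ?_) (P.roots.toFinset_card_le.trans P.card_roots')
  intro x hx
  rw [Multiset.mem_toFinset, mem_roots hP]
  exact (Finset.mem_filter.1 hx).2

private noncomputable def tower_polyEquiv (R : Type) [CommRing R] (p : ℕ) (D : R[X]) :
    {φ : R[X] →+* ZMod p // φ D ≠ 0} ≃
      Σ z : R →+* ZMod p, {x : ZMod p // (D.map z).eval x ≠ 0} where
  toFun φ := ⟨φ.1.comp C, φ.1 X, by
    rw [eval_map]
    have h1 : eval₂ (φ.1.comp C) (φ.1 X) D = φ.1 D := by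
      rw [← hom_eval₂, eval₂_C_X]
    rw [h1]
    exact φ.2⟩
  invFun y := ⟨eval₂RingHom y.1 y.2.1, by
    have h1 := y.2.2
    rw [eval_map] at h1
    exact h1⟩
  left_inv φ := by
    apply Subtype.ext
    refine Polynomial.ringHom_ext (fun a => ?_) ?_
    · simp
    · simp
  right_inv y := by
    obtain ⟨z, x, hx⟩ := y
    have h1 : (eval₂RingHom z x).comp C = z := by
      ext a
      simp
    have h2 : eval₂RingHom z x X = x := by simp
    refine Sigma.ext h1 ?_
    rw [Subtype.heq_iff_coe_eq]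
    · exact h2
    · intro y
      change (D.map ((eval₂RingHom z x).comp C)).eval y ≠ 0 ↔ (D.map z).eval y ≠ 0
      rw [h1]

theorem langWeil_poly (R : Type) [CommRing R] [IsDomain R] (d : ℕ) (hR : LangWeil R d) :
    LangWeil R[X] (d + 1) := by
  classical
  intro D hD
  refine tower_fib hR D.leadingCoeff (leadingCoeff_ne_zero.2 hD)
    (fun p => Nat.card {φ : R[X] →+* ZMod p // φ D ≠ 0})
    (fun p z => Nat.card {x : ZMod p // (D.map z).eval x ≠ 0}) ?_ ?_ ?_
  · intro p hpp _
    have : Fact p.Prime := ⟨hpp⟩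
    rw [Nat.card_congr (tower_polyEquiv R p D), Nat.card_sigma]
  · intro ε hε
    filter_upwards [tower_big ε hε D.natDegree] with p hp hpp z hz
    have : Fact p.Prime := ⟨hpp⟩
    rw [tower_card (fun x : ZMod p => (D.map z).eval x ≠ 0)]
    have h1 := Finset.card_filter_add_card_filter_not (s := (Finset.univ : Finset (ZMod p)))
      (fun x : ZMod p => (D.map z).eval x = 0)
    rw [Finset.card_univ, ZMod.card] at h1
    have h2 : D.map z ≠ 0 := by
      intro h3
      apply hz
      have h4 := congrArg (fun P => P.coeff D.natDegree) h3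
      simpa using h4
    have h3 := tower_roots (D.map z) h2
    have h4 : (D.map z).natDegree ≤ D.natDegree := natDegree_map_le
    have h5 : ((Finset.univ.filter fun x : ZMod p => (D.map z).eval x = 0).card : ℝ) ≤
        D.natDegree := by exact_mod_cast h3.trans h4
    have h6 : ((Finset.univ.filter fun x : ZMod p => (D.map z).eval x = 0).card : ℝ) +
        (Finset.univ.filter fun x : ZMod p => ¬ (D.map z).eval x = 0).card = p := by
      exact_mod_cast h1
    change (1 - ε) * (p : ℝ) ≤ ((Finset.univ.filter fun x : ZMod p => ¬ (D.map z).eval x = 0).card : ℝ)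
    linarith
  · intro ε hε
    refine Eventually.of_forall fun p hpp z => ?_
    have : Fact p.Prime := ⟨hpp⟩
    rw [tower_card (fun x : ZMod p => (D.map z).eval x ≠ 0)]
    have h1 : (Finset.univ.filter fun x : ZMod p => (D.map z).eval x ≠ 0).card ≤ p := by
      refine le_trans (Finset.card_le_univ _) ?_
      rw [ZMod.card]
    have h2 : ((Finset.univ.filter fun x : ZMod p => (D.map z).eval x ≠ 0).card : ℝ) ≤ p := by
      exact_mod_cast h1
    have h3 : (0 : ℝ) ≤ p := by positivity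
    nlinarith

/-! ### The ring `R[x, w]/(w² - h(x))` -/

section
variable {R : Type} [CommRing R]

private theorem tower_monic (h : R[X]) : (X ^ 2 - C h : R[X][X]).Monic :=
  monic_X_pow_sub_C _ two_ne_zero

private theorem tower_sq (h : R[X]) :
    (AdjoinRoot.root (X ^ 2 - C h : R[X][X])) ^ 2 = AdjoinRoot.of (X ^ 2 - C h : R[X][X]) h := by
  have h1 := AdjoinRoot.eval₂_root (X ^ 2 - C h : R[X][X])
  rw [eval₂_sub, eval₂_pow, eval₂_X, eval₂_C, sub_eq_zero] at h1
  exact h1

private theorem tower_mk (h u v : R[X]) :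
    AdjoinRoot.of (X ^ 2 - C h : R[X][X]) u + AdjoinRoot.of (X ^ 2 - C h : R[X][X]) v *
      AdjoinRoot.root _ = AdjoinRoot.mk (X ^ 2 - C h : R[X][X]) (C u + C v * X) := by
  rw [map_add, map_mul, AdjoinRoot.mk_X, AdjoinRoot.mk_C, AdjoinRoot.mk_C]

private theorem tower_rep [Nontrivial R] (h : R[X]) (a : HypRing R h) : ∃ u v : R[X],
    a = AdjoinRoot.of (X ^ 2 - C h : R[X][X]) u + AdjoinRoot.of (X ^ 2 - C h : R[X][X]) v *
      AdjoinRoot.root _ := by
  have hm := tower_monic h
  have hd : (X ^ 2 - C h : R[X][X]).natDegree = 2 := natDegree_X_pow_sub_C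
  obtain ⟨P, rfl⟩ := AdjoinRoot.mk_surjective a
  refine ⟨(P %ₘ (X ^ 2 - C h)).coeff 0, (P %ₘ (X ^ 2 - C h)).coeff 1, ?_⟩
  rw [tower_mk]
  have h1 : (P %ₘ (X ^ 2 - C h)).natDegree ≤ 1 := by
    have := natDegree_modByMonic_lt P hm (fun h1 => by
      rw [h1, natDegree_one] at hd
      omega)
    omega
  have h2 : C ((P %ₘ (X ^ 2 - C h)).coeff 0) + C ((P %ₘ (X ^ 2 - C h)).coeff 1) * X =
      P %ₘ (X ^ 2 - C h) := by
    rw [add_comm]
    exact (eq_X_add_C_of_natDegree_le_one h1).symm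
  rw [h2, AdjoinRoot.mk_eq_mk]
  exact ⟨P /ₘ (X ^ 2 - C h), by
    have := modByMonic_add_div P (X ^ 2 - C h : R[X][X])
    linear_combination -this⟩

private theorem tower_uniq [IsDomain R] (h u v : R[X])
    (e : AdjoinRoot.of (X ^ 2 - C h : R[X][X]) u + AdjoinRoot.of (X ^ 2 - C h : R[X][X]) v *
      AdjoinRoot.root _ = 0) : u = 0 ∧ v = 0 := by
  have hd : (X ^ 2 - C h : R[X][X]).natDegree = 2 := natDegree_X_pow_sub_C
  rw [tower_mk, AdjoinRoot.mk_eq_zero] at e
  have h1 : (C u + C v * X : R[X][X]).natDegree < (X ^ 2 - C h : R[X][X]).natDegree := by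
    rw [hd, add_comm]
    exact lt_of_le_of_lt natDegree_linear_le one_lt_two
  have h2 := eq_zero_of_dvd_of_natDegree_lt e h1
  constructor
  · have := congrArg (fun q => q.coeff 0) h2
    simpa using this
  · have := congrArg (fun q => q.coeff 1) h2
    simpa using this

private theorem tower_norm [IsDomain R] (h : R[X]) (hm : h.Monic) (ho : Odd h.natDegree)
    (u v : R[X]) (e : u ^ 2 - v ^ 2 * h = 0) : u = 0 ∧ v = 0 := by
  rw [sub_eq_zero] at e
  by_cases hv : v = 0
  · rw [hv] at e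
    simp only [ne_eq, OfNat.ofNat_ne_zero, not_false_eq_true, zero_pow, zero_mul,
      pow_eq_zero_iff] at e
    exact ⟨e, hv⟩
  · exfalso
    have h1 := congrArg natDegree e
    rw [natDegree_pow, natDegree_mul (pow_ne_zero 2 hv) hm.ne_zero, natDegree_pow] at h1
    obtain ⟨k, hk⟩ := ho
    omega

private theorem tower_mulConj (h u v : R[X]) :
    (AdjoinRoot.of (X ^ 2 - C h : R[X][X]) u + AdjoinRoot.of (X ^ 2 - C h : R[X][X]) v *
      AdjoinRoot.root _) * (AdjoinRoot.of (X ^ 2 - C h : R[X][X]) u -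
        AdjoinRoot.of (X ^ 2 - C h : R[X][X]) v * AdjoinRoot.root _) =
      AdjoinRoot.of (X ^ 2 - C h : R[X][X]) (u ^ 2 - v ^ 2 * h) := by
  have h1 := tower_sq h
  rw [map_sub, map_mul, map_pow, map_pow, ← h1]
  ring

private theorem tower_of_inj [IsDomain R] (h : R[X]) :
    Function.Injective (AdjoinRoot.of (X ^ 2 - C h : R[X][X])) := by
  rw [injective_iff_map_eq_zero]
  intro u hu
  exact (tower_uniq h u 0 (by rw [hu, map_zero]; ring)).1

end

theorem hypRing_isDomain (R : Type) [CommRing R] [IsDomain R] (h : R[X]) (hm : h.Monic)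
    (ho : Odd h.natDegree) : IsDomain (HypRing R h) := by
  have hinj := tower_of_inj h
  have : Nontrivial (HypRing R h) := hinj.nontrivial
  have : NoZeroDivisors (HypRing R h) := by
    refine ⟨fun {a b} hab => ?_⟩
    obtain ⟨u, v, ha⟩ := tower_rep h a
    obtain ⟨u', v', hb⟩ := tower_rep h b
    have h1 := tower_mulConj h u v
    have h2 := tower_mulConj h u' v'
    rw [← ha] at h1
    rw [← hb] at h2
    have h3 : AdjoinRoot.of (X ^ 2 - C h : R[X][X]) ((u ^ 2 - v ^ 2 * h) * (u' ^ 2 - v' ^ 2 * h)) =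
        0 := by
      rw [map_mul, ← h1, ← h2]
      calc _ = (a * b) * ((AdjoinRoot.of (X ^ 2 - C h : R[X][X]) u -
            AdjoinRoot.of (X ^ 2 - C h : R[X][X]) v * AdjoinRoot.root _) *
            (AdjoinRoot.of (X ^ 2 - C h : R[X][X]) u' -
            AdjoinRoot.of (X ^ 2 - C h : R[X][X]) v' * AdjoinRoot.root _)) := by ring
        _ = 0 := by rw [hab, zero_mul]
    have h4 := hinj (h3.trans (map_zero _).symm)
    rcases mul_eq_zero.1 h4 with h5 | h5
    · left
      obtain ⟨hu, hv⟩ := tower_norm h hm ho u v h5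
      rw [ha, hu, hv, map_zero]
      ring
    · right
      obtain ⟨hu, hv⟩ := tower_norm h hm ho u' v' h5
      rw [hb, hu, hv, map_zero]
      ring
  exact NoZeroDivisors.to_isDomain _

theorem hypRing_charZero (R : Type) [CommRing R] [IsDomain R] [CharZero R] (h : R[X])
    (hm : h.Monic) (ho : Odd h.natDegree) : CharZero (HypRing R h) := by
  have _ := hm
  have _ := ho
  exact charZero_of_injective_ringHom ((tower_of_inj h).comp (C_injective (R := R)))
    (f := (AdjoinRoot.of (X ^ 2 - C h : R[X][X])).comp C)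

/-! ### Points of the ring `R[x, w]/(w² - h(x))` -/

section
variable {R : Type} [CommRing R]

private theorem tower_sqMap (h : R[X]) {p : ℕ} (φ : HypRing R h →+* ZMod p) :
    φ (AdjoinRoot.root (X ^ 2 - C h : R[X][X])) ^ 2 =
      (h.map ((φ.comp (AdjoinRoot.of (X ^ 2 - C h : R[X][X]))).comp C)).eval
        (φ (AdjoinRoot.of (X ^ 2 - C h : R[X][X]) X)) := by
  rw [← map_pow, tower_sq, eval_map]
  change (φ.comp (AdjoinRoot.of (X ^ 2 - C h : R[X][X]))) h = eval₂
    ((φ.comp (AdjoinRoot.of (X ^ 2 - C h : R[X][X]))).comp C)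
    ((φ.comp (AdjoinRoot.of (X ^ 2 - C h : R[X][X]))) X) h
  rw [← hom_eval₂, eval₂_C_X]

private theorem tower_of (h u : R[X]) {p : ℕ} (φ : HypRing R h →+* ZMod p) :
    φ (AdjoinRoot.of (X ^ 2 - C h : R[X][X]) u) =
      (u.map ((φ.comp (AdjoinRoot.of (X ^ 2 - C h : R[X][X]))).comp C)).eval
        (φ (AdjoinRoot.of (X ^ 2 - C h : R[X][X]) X)) := by
  rw [eval_map]
  change (φ.comp (AdjoinRoot.of (X ^ 2 - C h : R[X][X]))) u = eval₂
    ((φ.comp (AdjoinRoot.of (X ^ 2 - C h : R[X][X]))).comp C)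
    ((φ.comp (AdjoinRoot.of (X ^ 2 - C h : R[X][X]))) X) u
  rw [← hom_eval₂, eval₂_C_X]

/-- the ring map with given values -/
private noncomputable def tower_map (h : R[X]) {p : ℕ} (z : R →+* ZMod p) (Q : ZMod p × ZMod p)
    (hQ : Q.2 ^ 2 = (h.map z).eval Q.1) : HypRing R h →+* ZMod p :=
  AdjoinRoot.lift (eval₂RingHom z Q.1) Q.2 (by
    rw [eval₂_sub, eval₂_pow, eval₂_X, eval₂_C, hQ, eval_map]
    exact sub_self _)

private theorem tower_map_of (h u : R[X]) {p : ℕ} (z : R →+* ZMod p) (Q : ZMod p × ZMod p)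
    (hQ : Q.2 ^ 2 = (h.map z).eval Q.1) :
    tower_map h z Q hQ (AdjoinRoot.of (X ^ 2 - C h : R[X][X]) u) = (u.map z).eval Q.1 := by
  unfold tower_map
  rw [AdjoinRoot.lift_of, eval_map]
  rfl

private theorem tower_map_root (h : R[X]) {p : ℕ} (z : R →+* ZMod p) (Q : ZMod p × ZMod p)
    (hQ : Q.2 ^ 2 = (h.map z).eval Q.1) :
    tower_map h z Q hQ (AdjoinRoot.root (X ^ 2 - C h : R[X][X])) = Q.2 := by
  unfold tower_map
  rw [AdjoinRoot.lift_root]

private noncomputable def tower_hypEquiv (h : R[X]) (p : ℕ) (u v : R[X]) (D : HypRing R h)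
    (hD : D = AdjoinRoot.of (X ^ 2 - C h : R[X][X]) u + AdjoinRoot.of (X ^ 2 - C h : R[X][X]) v *
      AdjoinRoot.root _) :
    {φ : HypRing R h →+* ZMod p // φ D ≠ 0} ≃
      Σ z : R →+* ZMod p, {Q : ZMod p × ZMod p // Q.2 ^ 2 = (h.map z).eval Q.1 ∧
        (u.map z).eval Q.1 + (v.map z).eval Q.1 * Q.2 ≠ 0} where
  toFun φ := ⟨(φ.1.comp (AdjoinRoot.of (X ^ 2 - C h : R[X][X]))).comp C,
    (φ.1 (AdjoinRoot.of (X ^ 2 - C h : R[X][X]) X), φ.1 (AdjoinRoot.root (X ^ 2 - C h : R[X][X]))),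
    tower_sqMap h φ.1, by
      intro h2
      refine φ.2 ((congrArg φ.1 hD).trans ?_)
      rw [map_add, map_mul, tower_of h u φ.1, tower_of h v φ.1]
      exact h2⟩
  invFun y := ⟨tower_map h y.1 y.2.1 y.2.2.1, by
    rw [hD, map_add, map_mul, tower_map_of h u, tower_map_of h v, tower_map_root]
    exact y.2.2.2⟩
  left_inv φ := by
    apply Subtype.ext
    refine AdjoinRoot.ringHom_ext ?_ ?_
    · refine Polynomial.ringHom_ext (fun a => ?_) ?_
      · refine (tower_map_of h (C a) _ _ (tower_sqMap h φ.1)).trans ?_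
        simp
      · refine (tower_map_of h X _ _ (tower_sqMap h φ.1)).trans ?_
        simp
    · rw [tower_map_root]
  right_inv y := by
    obtain ⟨z, Q, hQ1, hQ2⟩ := y
    have h1 : ((tower_map h z Q hQ1).comp (AdjoinRoot.of (X ^ 2 - C h : R[X][X]))).comp C = z := by
      ext a
      change tower_map h z Q hQ1 (AdjoinRoot.of (X ^ 2 - C h : R[X][X]) (C a)) = _
      rw [tower_map_of]
      simp
    have h2 : (tower_map h z Q hQ1 (AdjoinRoot.of (X ^ 2 - C h : R[X][X]) X),
        tower_map h z Q hQ1 (AdjoinRoot.root (X ^ 2 - C h : R[X][X]))) = Q := by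
      rw [tower_map_of, tower_map_root]
      simp
    have key : ∀ z' : R →+* ZMod p, z' = z → ∀ Q' : ZMod p × ZMod p,
        ((Q'.2 ^ 2 = (h.map z').eval Q'.1 ∧ (u.map z').eval Q'.1 + (v.map z').eval Q'.1 * Q'.2 ≠ 0) ↔
        (Q'.2 ^ 2 = (h.map z).eval Q'.1 ∧
          (u.map z).eval Q'.1 + (v.map z).eval Q'.1 * Q'.2 ≠ 0)) := by
      rintro _ rfl Q'
      exact Iff.rfl
    refine Sigma.ext h1 ?_
    rw [Subtype.heq_iff_coe_eq (key _ h1)]
    exact h2

end

private theorem tower_two {p : ℕ} [Fact p.Prime] (a : ZMod p) :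
    (Finset.univ.filter fun w : ZMod p => w ^ 2 = a).card ≤ 2 := by
  have h1 : (X ^ 2 - C a : (ZMod p)[X]) ≠ 0 := (monic_X_pow_sub_C a two_ne_zero).ne_zero
  have h2 := tower_roots (X ^ 2 - C a : (ZMod p)[X]) h1
  rw [natDegree_X_pow_sub_C] at h2
  refine le_trans (Finset.card_le_card ?_) h2
  intro w hw
  rw [Finset.mem_filter] at hw ⊢
  refine ⟨hw.1, ?_⟩
  rw [eval_sub, eval_pow, eval_X, eval_C, hw.2, sub_self]

/-- `hcount` is the theorem `card_curve` of `Step.lean`.
Proof: a ring map `HypRing R h → F_p` is a ring map `z : R → F_p` and a point `(x, w)` of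
`w² = h_z(x)`, a monic polynomial of degree `h.natDegree`, so there are `p (1 + o(1))` of them,
uniformly in `z` (use `hR` with `D = 1`; the set of the `z` is finite for large `p` because
otherwise `Nat.card` is `0`). If `D = u + v w` is not `0`, its norm `u² - v² h` is a nonzero
polynomial over `R`, with a nonzero coefficient `e`; the maps with `z D = 0` are at most
`2 deg` for each `z` with `z e ≠ 0` and at most `2 p` for each `z` with `z e = 0`. -/
theorem langWeil_hyp (hcount : ∀ n : ℕ, Odd n → ∀ ε : ℝ, 0 < ε → ∃ p₀ : ℕ, ∀ p : ℕ, p₀ ≤ p →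
      p.Prime → ∀ h : (ZMod p)[X], h.natDegree = n →
      |(Nat.card {P : ZMod p × ZMod p // P.2 ^ 2 = h.eval P.1} : ℝ) - p| ≤ ε * p)
    (R : Type) [CommRing R] [IsDomain R] (d : ℕ) (hR : LangWeil R d) (h : R[X])
    (hm : h.Monic) (ho : Odd h.natDegree) : LangWeil (HypRing R h) (d + 1) := by
  classical
  intro D hD
  obtain ⟨u, v, hDuv⟩ := tower_rep h D
  set Nm : R[X] := u ^ 2 - v ^ 2 * h with hNm
  have hNm0 : Nm ≠ 0 := by
    intro h1
    obtain ⟨hu, hv⟩ := tower_norm h hm ho u v h1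
    apply hD
    rw [hDuv, hu, hv, map_zero]
    ring
  refine tower_fib hR Nm.leadingCoeff (leadingCoeff_ne_zero.2 hNm0)
    (fun p => Nat.card {φ : HypRing R h →+* ZMod p // φ D ≠ 0})
    (fun p z => Nat.card {Q : ZMod p × ZMod p // Q.2 ^ 2 = (h.map z).eval Q.1 ∧
        (u.map z).eval Q.1 + (v.map z).eval Q.1 * Q.2 ≠ 0}) ?_ ?_ ?_
  · intro p hpp _
    have : Fact p.Prime := ⟨hpp⟩
    rw [Nat.card_congr (tower_hypEquiv h p u v D hDuv), Nat.card_sigma]
  · intro ε hε
    obtain ⟨p₀, hp₀⟩ := hcount h.natDegree ho (ε / 2) (half_pos hε)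
    filter_upwards [tower_big (ε / 2) (half_pos hε) (2 * Nm.natDegree), eventually_ge_atTop p₀]
      with p hp hp1 hpp z hz
    have : Fact p.Prime := ⟨hpp⟩
    have h0 := hp₀ p hp1 hpp (h.map z) (hm.natDegree_map z)
    rw [tower_card (fun Q : ZMod p × ZMod p => Q.2 ^ 2 = (h.map z).eval Q.1)] at h0
    rw [tower_card (fun Q : ZMod p × ZMod p => Q.2 ^ 2 = (h.map z).eval Q.1 ∧
        (u.map z).eval Q.1 + (v.map z).eval Q.1 * Q.2 ≠ 0)]
    have h2 : Nm.map z ≠ 0 := by
      intro h3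
      apply hz
      have h4 := congrArg (fun P => P.coeff Nm.natDegree) h3
      simpa using h4
    have h3 := tower_roots (Nm.map z) h2
    have h4 : (Nm.map z).natDegree ≤ Nm.natDegree := natDegree_map_le
    set A := Finset.univ.filter fun Q : ZMod p × ZMod p => Q.2 ^ 2 = (h.map z).eval Q.1 with hA
    set B := Finset.univ.filter fun Q : ZMod p × ZMod p => Q.2 ^ 2 = (h.map z).eval Q.1 ∧
        (u.map z).eval Q.1 + (v.map z).eval Q.1 * Q.2 ≠ 0 with hB
    have h5 : (A \ B).card ≤ 2 * Nm.natDegree := by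
      have h6 : (A \ B).card ≤ 2 * ((A \ B).image Prod.fst).card := by
        refine Finset.card_le_mul_card_image _ _ fun x _ => ?_
        refine le_trans ?_ (tower_two ((h.map z).eval x))
        refine Finset.card_le_card_of_injOn Prod.snd ?_ ?_
        · intro Q hQ
          have hQ' := Finset.mem_filter.1 hQ
          have hQ2 := (Finset.mem_sdiff.1 hQ'.1).1
          rw [hA, Finset.mem_filter] at hQ2
          simp only [Finset.coe_filter, Finset.mem_univ, true_and, Set.mem_ofPred_eq]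
          rw [hQ2.2, hQ'.2]
        · intro Q hQ Q' hQ' e
          have h7 := (Finset.mem_filter.1 hQ).2
          have h8 := (Finset.mem_filter.1 hQ').2
          exact Prod.ext (h7.trans h8.symm) e
      have h9 : ((A \ B).image Prod.fst).card ≤ Nm.natDegree := by
        refine le_trans (Finset.card_le_card ?_) (h3.trans h4)
        intro x hx
        obtain ⟨Q, hQ, rfl⟩ := Finset.mem_image.1 hx
        rw [Finset.mem_sdiff, hA, hB, Finset.mem_filter, Finset.mem_filter] at hQ
        obtain ⟨⟨_, hQ1⟩, hQ2⟩ := hQ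
        have hQ3 : (u.map z).eval Q.1 + (v.map z).eval Q.1 * Q.2 = 0 := by
          by_contra h10
          exact hQ2 ⟨Finset.mem_univ _, hQ1, h10⟩
        rw [Finset.mem_filter]
        refine ⟨Finset.mem_univ _, ?_⟩
        rw [hNm, Polynomial.map_sub, Polynomial.map_mul, Polynomial.map_pow, Polynomial.map_pow,
          eval_sub, eval_mul, eval_pow, eval_pow, ← hQ1]
        linear_combination ((u.map z).eval Q.1 - (v.map z).eval Q.1 * Q.2) * hQ3
      omega
    have h6 : A.card ≤ B.card + 2 * Nm.natDegree := by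
      have h7 := Finset.card_le_card_sdiff_add_card (s := A) (t := B)
      omega
    have h7 : (A.card : ℝ) ≤ B.card + (2 * Nm.natDegree : ℕ) := by exact_mod_cast h6
    rw [abs_le] at h0
    linarith [h0.1]
  · intro ε hε
    obtain ⟨p₀, hp₀⟩ := hcount h.natDegree ho ε hε
    filter_upwards [eventually_ge_atTop p₀] with p hp1 hpp z
    have : Fact p.Prime := ⟨hpp⟩
    have h0 := hp₀ p hp1 hpp (h.map z) (hm.natDegree_map z)
    rw [tower_card (fun Q : ZMod p × ZMod p => Q.2 ^ 2 = (h.map z).eval Q.1)] at h0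
    rw [tower_card (fun Q : ZMod p × ZMod p => Q.2 ^ 2 = (h.map z).eval Q.1 ∧
        (u.map z).eval Q.1 + (v.map z).eval Q.1 * Q.2 ≠ 0)]
    have h1 : (Finset.univ.filter fun Q : ZMod p × ZMod p => Q.2 ^ 2 = (h.map z).eval Q.1 ∧
        (u.map z).eval Q.1 + (v.map z).eval Q.1 * Q.2 ≠ 0).card ≤
        (Finset.univ.filter fun Q : ZMod p × ZMod p => Q.2 ^ 2 = (h.map z).eval Q.1).card := by
      refine Finset.card_le_card fun Q hQ => ?_
      rw [Finset.mem_filter] at hQ ⊢
      exact ⟨hQ.1, hQ.2.1⟩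
    have h2 : ((Finset.univ.filter fun Q : ZMod p × ZMod p => Q.2 ^ 2 = (h.map z).eval Q.1 ∧
        (u.map z).eval Q.1 + (v.map z).eval Q.1 * Q.2 ≠ 0).card : ℝ) ≤
        (Finset.univ.filter fun Q : ZMod p × ZMod p => Q.2 ^ 2 = (h.map z).eval Q.1).card := by
      exact_mod_cast h1
    rw [abs_le] at h0
    linarith [h0.2]

end Pool.Agent.Lib.MP_1a0ddd_nt
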