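import Pool.Agent.Lib.MP_1a0ddd_nt.Base2

/-! Lemmas for the point count of double covers. -/

set_option autoImplicit false

namespace Pool.Agent.Lib.MP_1a0ddd_nt

open Polynomial Filter Topology

section

theorem dbl_finite {R : Type} [CommRing R] [Nontrivial R] {d : ℕ} (hR : LangWeil R d) :
    ∀ᶠ p in (atTop ⊓ 𝓟 {p : ℕ | p.Prime}), Finite (R →+* ZMod p) := by
  have h1 := hR 1 one_ne_zero
  have h2 : ∀ᶠ p in (atTop ⊓ 𝓟 {p : ℕ | p.Prime}),
      (0 : ℝ) < (Nat.card {z : R →+* ZMod p // z 1 ≠ 0} : ℝ) / (p : ℝ) ^ d :=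
    h1.eventually (lt_mem_nhds zero_lt_one)
  rw [eventually_inf_principal] at h2 ⊢
  filter_upwards [h2] with p hp hpp
  have : Fact p.Prime := ⟨hpp⟩
  have h3 := hp hpp
  have h4 : Nat.card {z : R →+* ZMod p // z 1 ≠ 0} ≠ 0 := by
    intro h5
    rw [h5] at h3
    simp at h3
  have h5 : Finite {z : R →+* ZMod p // z 1 ≠ 0} := Nat.finite_of_card_ne_zero h4
  exact Finite.of_injective (fun z : R →+* ZMod p =>
    (⟨z, by rw [map_one]; exact one_ne_zero⟩ : {z : R →+* ZMod p // z 1 ≠ 0}))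
    (fun a b h => congrArg Subtype.val h)

theorem dbl_card {V : Type} [Fintype V] (P : V → Prop) [DecidablePred P] :
    Nat.card {v : V // P v} = (Finset.univ.filter P).card := by
  rw [Nat.card_eq_fintype_card, Fintype.card_subtype]

theorem dbl_big (ε : ℝ) (hε : 0 < ε) (m : ℕ) : ∀ᶠ p : ℕ in atTop, (m : ℝ) ≤ ε * p := by
  obtain ⟨k, hk⟩ := exists_nat_gt ((m : ℝ) / ε)
  filter_upwards [eventually_ge_atTop k] with p hp
  rw [div_lt_iff₀ hε] at hk
  have h1 : (k : ℝ) ≤ p := by exact_mod_cast hp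
  nlinarith

theorem dbl_roots {p : ℕ} [Fact p.Prime] (P : (ZMod p)[X]) (hP : P ≠ 0) :
    (Finset.univ.filter fun x : ZMod p => P.eval x = 0).card ≤ P.natDegree := by
  classical
  refine le_trans (Finset.card_le_card ?_) (P.roots.toFinset_card_le.trans P.card_roots')
  intro x hx
  rw [Multiset.mem_toFinset, mem_roots hP]
  exact (Finset.mem_filter.1 hx).2

end

/-! ### The ring `R[x, w]/(w² - h(x))` -/

section
variable {R : Type} [CommRing R]

theorem dbl_monic (h : R[X]) : (X ^ 2 - C h : R[X][X]).Monic :=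
  monic_X_pow_sub_C _ two_ne_zero

theorem dbl_sq (h : R[X]) :
    (AdjoinRoot.root (X ^ 2 - C h : R[X][X])) ^ 2 = AdjoinRoot.of (X ^ 2 - C h : R[X][X]) h := by
  have h1 := AdjoinRoot.eval₂_root (X ^ 2 - C h : R[X][X])
  rw [eval₂_sub, eval₂_pow, eval₂_X, eval₂_C, sub_eq_zero] at h1
  exact h1

theorem dbl_mk (h u v : R[X]) :
    AdjoinRoot.of (X ^ 2 - C h : R[X][X]) u + AdjoinRoot.of (X ^ 2 - C h : R[X][X]) v *
      AdjoinRoot.root _ = AdjoinRoot.mk (X ^ 2 - C h : R[X][X]) (C u + C v * X) := by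
  rw [map_add, map_mul, AdjoinRoot.mk_X, AdjoinRoot.mk_C, AdjoinRoot.mk_C]

theorem dbl_rep [Nontrivial R] (h : R[X]) (a : HypRing R h) : ∃ u v : R[X],
    a = AdjoinRoot.of (X ^ 2 - C h : R[X][X]) u + AdjoinRoot.of (X ^ 2 - C h : R[X][X]) v *
      AdjoinRoot.root _ := by
  have hm := dbl_monic h
  have hd : (X ^ 2 - C h : R[X][X]).natDegree = 2 := natDegree_X_pow_sub_C
  obtain ⟨P, rfl⟩ := AdjoinRoot.mk_surjective a
  refine ⟨(P %ₘ (X ^ 2 - C h)).coeff 0, (P %ₘ (X ^ 2 - C h)).coeff 1, ?_⟩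
  rw [dbl_mk]
  have h1 : (P %ₘ (X ^ 2 - C h)).natDegree ≤ 1 := by
    have := natDegree_modByMonic_lt P hm (fun h1 => by
      rw [h1, natDegree_one] at hd
      omega)
    omega
  have h2 : C ((P %ₘ (X ^ 2 - C h)).coeff 0) + C ((P %ₘ (X ^ 2 - C h)).coeff 1) * X =
      P %ₘ (X ^ 2 - C h) := by
    rw [add_comm]
    exact (eq_X_add_C_of_natDegree_le_one h1).symm
  rw [h2, AdjoinRoot.mk_eq_mk]
  exact ⟨P /ₘ (X ^ 2 - C h), by
    have := modByMonic_add_div P (X ^ 2 - C h : R[X][X])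
    linear_combination -this⟩

theorem dbl_uniq [IsDomain R] (h u v : R[X])
    (e : AdjoinRoot.of (X ^ 2 - C h : R[X][X]) u + AdjoinRoot.of (X ^ 2 - C h : R[X][X]) v *
      AdjoinRoot.root _ = 0) : u = 0 ∧ v = 0 := by
  have hd : (X ^ 2 - C h : R[X][X]).natDegree = 2 := natDegree_X_pow_sub_C
  rw [dbl_mk, AdjoinRoot.mk_eq_zero] at e
  have h1 : (C u + C v * X : R[X][X]).natDegree < (X ^ 2 - C h : R[X][X]).natDegree := by
    rw [hd, add_comm]
    exact lt_of_le_of_lt natDegree_linear_le one_lt_two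
  have h2 := eq_zero_of_dvd_of_natDegree_lt e h1
  constructor
  · have := congrArg (fun q => q.coeff 0) h2
    simpa using this
  · have := congrArg (fun q => q.coeff 1) h2
    simpa using this

theorem dbl_norm [IsDomain R] (h : R[X]) (hh : NotSq h) (u v : R[X])
    (e : u ^ 2 - v ^ 2 * h = 0) : u = 0 ∧ v = 0 := by
  rw [sub_eq_zero] at e
  have hinj : Function.Injective (algebraMap R (FractionRing R)) :=
    IsFractionRing.injective R (FractionRing R)
  by_cases hv : v = 0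
  · rw [hv] at e
    simp only [ne_eq, OfNat.ofNat_ne_zero, not_false_eq_true, zero_pow, zero_mul,
      pow_eq_zero_iff] at e
    exact ⟨e, hv⟩
  · exfalso
    have h1 := congrArg (Polynomial.map (algebraMap R (FractionRing R))) e
    rw [Polynomial.map_mul, Polynomial.map_pow, Polynomial.map_pow] at h1
    have hv1 : v.map (algebraMap R (FractionRing R)) ≠ 0 := by
      intro h2
      exact hv (Polynomial.map_injective _ hinj (h2.trans (Polynomial.map_zero _).symm))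
    have h2 : v.map (algebraMap R (FractionRing R)) ^ 2 ∣
        u.map (algebraMap R (FractionRing R)) ^ 2 := ⟨_, h1⟩
    obtain ⟨t, ht⟩ := (UniqueFactorizationMonoid.pow_dvd_pow_iff_dvd two_ne_zero).1 h2
    rw [ht, mul_pow] at h1
    have h3 := mul_left_cancel₀ (pow_ne_zero 2 hv1) h1
    refine hh 1 t ?_
    rw [← h3, C_1, one_mul]

theorem dbl_mulConj (h u v : R[X]) :
    (AdjoinRoot.of (X ^ 2 - C h : R[X][X]) u + AdjoinRoot.of (X ^ 2 - C h : R[X][X]) v *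
      AdjoinRoot.root _) * (AdjoinRoot.of (X ^ 2 - C h : R[X][X]) u -
        AdjoinRoot.of (X ^ 2 - C h : R[X][X]) v * AdjoinRoot.root _) =
      AdjoinRoot.of (X ^ 2 - C h : R[X][X]) (u ^ 2 - v ^ 2 * h) := by
  have h1 := dbl_sq h
  rw [map_sub, map_mul, map_pow, map_pow, ← h1]
  ring

theorem dbl_of_inj [IsDomain R] (h : R[X]) :
    Function.Injective (AdjoinRoot.of (X ^ 2 - C h : R[X][X])) := by
  rw [injective_iff_map_eq_zero]
  intro u hu
  exact (dbl_uniq h u 0 (by rw [hu, map_zero]; ring)).1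

end

/-! ### Points of the ring `R[x, w]/(w² - h(x))` -/

section
variable {R : Type} [CommRing R]

theorem dbl_sqMap (h : R[X]) {p : ℕ} (φ : HypRing R h →+* ZMod p) :
    φ (AdjoinRoot.root (X ^ 2 - C h : R[X][X])) ^ 2 =
      (h.map ((φ.comp (AdjoinRoot.of (X ^ 2 - C h : R[X][X]))).comp C)).eval
        (φ (AdjoinRoot.of (X ^ 2 - C h : R[X][X]) X)) := by
  rw [← map_pow, dbl_sq, eval_map]
  change (φ.comp (AdjoinRoot.of (X ^ 2 - C h : R[X][X]))) h = eval₂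
    ((φ.comp (AdjoinRoot.of (X ^ 2 - C h : R[X][X]))).comp C)
    ((φ.comp (AdjoinRoot.of (X ^ 2 - C h : R[X][X]))) X) h
  rw [← hom_eval₂, eval₂_C_X]

theorem dbl_of (h u : R[X]) {p : ℕ} (φ : HypRing R h →+* ZMod p) :
    φ (AdjoinRoot.of (X ^ 2 - C h : R[X][X]) u) =
      (u.map ((φ.comp (AdjoinRoot.of (X ^ 2 - C h : R[X][X]))).comp C)).eval
        (φ (AdjoinRoot.of (X ^ 2 - C h : R[X][X]) X)) := by
  rw [eval_map]
  change (φ.comp (AdjoinRoot.of (X ^ 2 - C h : R[X][X]))) u = eval₂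
    ((φ.comp (AdjoinRoot.of (X ^ 2 - C h : R[X][X]))).comp C)
    ((φ.comp (AdjoinRoot.of (X ^ 2 - C h : R[X][X]))) X) u
  rw [← hom_eval₂, eval₂_C_X]

/-- the ring map with given values -/
noncomputable def dbl_map (h : R[X]) {p : ℕ} (z : R →+* ZMod p) (Q : ZMod p × ZMod p)
    (hQ : Q.2 ^ 2 = (h.map z).eval Q.1) : HypRing R h →+* ZMod p :=
  AdjoinRoot.lift (eval₂RingHom z Q.1) Q.2 (by
    rw [eval₂_sub, eval₂_pow, eval₂_X, eval₂_C, hQ, eval_map]
    exact sub_self _)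

theorem dbl_map_of (h u : R[X]) {p : ℕ} (z : R →+* ZMod p) (Q : ZMod p × ZMod p)
    (hQ : Q.2 ^ 2 = (h.map z).eval Q.1) :
    dbl_map h z Q hQ (AdjoinRoot.of (X ^ 2 - C h : R[X][X]) u) = (u.map z).eval Q.1 := by
  unfold dbl_map
  rw [AdjoinRoot.lift_of, eval_map]
  rfl

theorem dbl_map_root (h : R[X]) {p : ℕ} (z : R →+* ZMod p) (Q : ZMod p × ZMod p)
    (hQ : Q.2 ^ 2 = (h.map z).eval Q.1) :
    dbl_map h z Q hQ (AdjoinRoot.root (X ^ 2 - C h : R[X][X])) = Q.2 := by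
  unfold dbl_map
  rw [AdjoinRoot.lift_root]

noncomputable def dbl_hypEquiv (h : R[X]) (p : ℕ) (u v : R[X]) (D : HypRing R h)
    (hD : D = AdjoinRoot.of (X ^ 2 - C h : R[X][X]) u + AdjoinRoot.of (X ^ 2 - C h : R[X][X]) v *
      AdjoinRoot.root _) :
    {φ : HypRing R h →+* ZMod p // φ D ≠ 0} ≃
      Σ z : R →+* ZMod p, {Q : ZMod p × ZMod p // Q.2 ^ 2 = (h.map z).eval Q.1 ∧
        (u.map z).eval Q.1 + (v.map z).eval Q.1 * Q.2 ≠ 0} where
  toFun φ := ⟨(φ.1.comp (AdjoinRoot.of (X ^ 2 - C h : R[X][X]))).comp C,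
    (φ.1 (AdjoinRoot.of (X ^ 2 - C h : R[X][X]) X), φ.1 (AdjoinRoot.root (X ^ 2 - C h : R[X][X]))),
    dbl_sqMap h φ.1, by
      intro h2
      refine φ.2 ((congrArg φ.1 hD).trans ?_)
      rw [map_add, map_mul, dbl_of h u φ.1, dbl_of h v φ.1]
      exact h2⟩
  invFun y := ⟨dbl_map h y.1 y.2.1 y.2.2.1, by
    rw [hD, map_add, map_mul, dbl_map_of h u, dbl_map_of h v, dbl_map_root]
    exact y.2.2.2⟩
  left_inv φ := by
    apply Subtype.ext
    refine AdjoinRoot.ringHom_ext ?_ ?_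
    · refine Polynomial.ringHom_ext (fun a => ?_) ?_
      · refine (dbl_map_of h (C a) _ _ (dbl_sqMap h φ.1)).trans ?_
        simp
      · refine (dbl_map_of h X _ _ (dbl_sqMap h φ.1)).trans ?_
        simp
    · rw [dbl_map_root]
  right_inv y := by
    obtain ⟨z, Q, hQ1, hQ2⟩ := y
    have h1 : ((dbl_map h z Q hQ1).comp (AdjoinRoot.of (X ^ 2 - C h : R[X][X]))).comp C = z := by
      ext a
      change dbl_map h z Q hQ1 (AdjoinRoot.of (X ^ 2 - C h : R[X][X]) (C a)) = _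
      rw [dbl_map_of]
      simp
    have h2 : (dbl_map h z Q hQ1 (AdjoinRoot.of (X ^ 2 - C h : R[X][X]) X),
        dbl_map h z Q hQ1 (AdjoinRoot.root (X ^ 2 - C h : R[X][X]))) = Q := by
      rw [dbl_map_of, dbl_map_root]
      simp
    have key : ∀ z' : R →+* ZMod p, z' = z → ∀ Q' : ZMod p × ZMod p,
        ((Q'.2 ^ 2 = (h.map z').eval Q'.1 ∧ (u.map z').eval Q'.1 + (v.map z').eval Q'.1 * Q'.2 ≠ 0) ↔
        (Q'.2 ^ 2 = (h.map z).eval Q'.1 ∧
          (u.map z).eval Q'.1 + (v.map z).eval Q'.1 * Q'.2 ≠ 0)) := by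
      rintro _ rfl Q'
      exact Iff.rfl
    refine Sigma.ext h1 ?_
    rw [Subtype.heq_iff_coe_eq (key _ h1)]
    exact h2

end

theorem dbl_two {p : ℕ} [Fact p.Prime] (a : ZMod p) :
    (Finset.univ.filter fun w : ZMod p => w ^ 2 = a).card ≤ 2 := by
  have h1 : (X ^ 2 - C a : (ZMod p)[X]) ≠ 0 := (monic_X_pow_sub_C a two_ne_zero).ne_zero
  have h2 := dbl_roots (X ^ 2 - C a : (ZMod p)[X]) h1
  rw [natDegree_X_pow_sub_C] at h2
  refine le_trans (Finset.card_le_card ?_) h2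
  intro w hw
  rw [Finset.mem_filter] at hw ⊢
  refine ⟨hw.1, ?_⟩
  rw [eval_sub, eval_pow, eval_X, eval_C, hw.2, sub_self]

end Pool.Agent.Lib.MP_1a0ddd_nt
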