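import Pool.Agent.Lib.MP_1a0ddd_nt.Base2
import Pool.Agent.Lib.MP_1a0ddd_nt.DblA
import Pool.Agent.Lib.MP_1a0ddd_nt.Gn.Cert
import Pool.Agent.Lib.MP_1a0ddd_nt.Gn.StepNS
import Pool.Agent.Lib.MP_1a0ddd_nt.Quad.TowerT

/-! The point count for all double covers `w² = h(x)`, `h` not a constant times a square. -/

set_option autoImplicit false

namespace Pool.Agent.Lib.MP_1a0ddd_nt

open Polynomial Filter Topology

/-- proof: the norm form `u² - v² h` is anisotropic over the fraction field -/
theorem dbl_isDomain (R : Type) [CommRing R] [IsDomain R] (h : R[X]) (hh : NotSq h) :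
    IsDomain (HypRing R h) := by
  have hinj := dbl_of_inj h
  have : Nontrivial (HypRing R h) := hinj.nontrivial
  have : NoZeroDivisors (HypRing R h) := by
    refine ⟨fun {a b} hab => ?_⟩
    obtain ⟨u, v, ha⟩ := dbl_rep h a
    obtain ⟨u', v', hb⟩ := dbl_rep h b
    have h1 := dbl_mulConj h u v
    have h2 := dbl_mulConj h u' v'
    rw [← ha] at h1
    rw [← hb] at h2
    have h3 : AdjoinRoot.of (X ^ 2 - C h : R[X][X]) ((u ^ 2 - v ^ 2 * h) * (u' ^ 2 - v' ^ 2 * h)) =
        0 := by
      rw [map_mul, ← h1, ← h2]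
      calc _ = (a * b) * ((AdjoinRoot.of (X ^ 2 - C h : R[X][X]) u -
            AdjoinRoot.of (X ^ 2 - C h : R[X][X]) v * AdjoinRoot.root _) *
            (AdjoinRoot.of (X ^ 2 - C h : R[X][X]) u' -
            AdjoinRoot.of (X ^ 2 - C h : R[X][X]) v' * AdjoinRoot.root _)) := by ring
        _ = 0 := by rw [hab, zero_mul]
    have h4 := hinj (h3.trans (map_zero _).symm)
    rcases mul_eq_zero.1 h4 with h5 | h5
    · left
      obtain ⟨hu, hv⟩ := dbl_norm h hh u v h5
      rw [ha, hu, hv, map_zero]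
      ring
    · right
      obtain ⟨hu, hv⟩ := dbl_norm h hh u' v' h5
      rw [hb, hu, hv, map_zero]
      ring
  exact NoZeroDivisors.to_isDomain _

theorem dbl_charZero (R : Type) [CommRing R] [IsDomain R] [CharZero R] (h : R[X])
    (hh : NotSq h) : CharZero (HypRing R h) := by
  have _ := hh
  exact charZero_of_injective_ringHom ((dbl_of_inj h).comp (C_injective (R := R)))
    (f := (AdjoinRoot.of (X ^ 2 - C h : R[X][X])).comp C)

/-- fibrations, the fibres over `z e = 0` have at most `2 p` points -/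
private theorem dblp_fib {R : Type} [CommRing R] [Nontrivial R] {d : ℕ} (hR : LangWeil R d)
    (e : R) (he : e ≠ 0) (c : ℕ → ℕ) (N : (p : ℕ) → (R →+* ZMod p) → ℕ)
    (hc : ∀ p : ℕ, p.Prime → ∀ [Fintype (R →+* ZMod p)], c p = ∑ z, N p z)
    (hlow : ∀ ε : ℝ, 0 < ε → ∀ᶠ p : ℕ in atTop, p.Prime → ∀ z : R →+* ZMod p, z e ≠ 0 →
      (1 - ε) * (p : ℝ) ≤ N p z)
    (hup : ∀ ε : ℝ, 0 < ε → ∀ᶠ p : ℕ in atTop, p.Prime → ∀ z : R →+* ZMod p, z e ≠ 0 →
      (N p z : ℝ) ≤ (1 + ε) * p)
    (hbad : ∀ p : ℕ, p.Prime → ∀ z : R →+* ZMod p, (N p z : ℝ) ≤ 2 * p) :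
    Tendsto (fun p : ℕ => (c p : ℝ) / (p : ℝ) ^ (d + 1)) (atTop ⊓ 𝓟 {p : ℕ | p.Prime}) (𝓝 1) := by
  classical
  have h1 := hR 1 one_ne_zero
  have h2 := hR e he
  have hfin := dbl_finite hR
  rw [tendsto_order]
  refine ⟨fun b hb => ?_, fun b hb => ?_⟩
  · have hε : 0 < (1 - b) / 2 := by linarith
    have h3 := h2.const_mul (1 - (1 - b) / 2)
    rw [mul_one] at h3
    have h4 := h3.eventually (lt_mem_nhds (show b < 1 - (1 - b) / 2 by linarith))
    have h5 := hlow _ hε
    rw [eventually_inf_principal] at h4 hfin ⊢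
    filter_upwards [h4, hfin, h5, eventually_gt_atTop 0] with p h4 hfin h5 hp0 hpp
    have : Finite (R →+* ZMod p) := hfin hpp
    have : Fintype (R →+* ZMod p) := Fintype.ofFinite _
    have hp : (0 : ℝ) < p := by exact_mod_cast hp0
    refine lt_of_lt_of_le (h4 hpp) ?_
    rw [dbl_card (fun z : R →+* ZMod p => z e ≠ 0), ← mul_div_assoc, div_le_div_iff₀ (by positivity)
      (by positivity), hc p hpp, pow_succ]
    have h6 : ((Finset.univ.filter fun z : R →+* ZMod p => z e ≠ 0).card : ℝ) *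
        ((1 - (1 - b) / 2) * p) ≤ ((∑ z, N p z : ℕ) : ℝ) := by
      rw [← nsmul_eq_mul]
      push_cast
      calc _ ≤ ∑ z ∈ Finset.univ.filter (fun z : R →+* ZMod p => z e ≠ 0), (N p z : ℝ) := by
            refine Finset.card_nsmul_le_sum _ _ _ fun z hz => ?_
            exact h5 hpp z (Finset.mem_filter.1 hz).2
        _ ≤ _ := Finset.sum_le_sum_of_subset_of_nonneg (Finset.filter_subset _ _)
            fun z _ _ => by positivity
    have h7 : (0 : ℝ) < (p : ℝ) ^ d := by positivity
    nlinarith [mul_le_mul_of_nonneg_right h6 h7.le]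
  · have hε : 0 < (b - 1) / 2 := by linarith
    have h3 := ((h1.sub h2).const_mul 2).add (h2.const_mul (1 + (b - 1) / 2))
    rw [sub_self, mul_zero, zero_add, mul_one] at h3
    have h4 := h3.eventually (gt_mem_nhds (show 1 + (b - 1) / 2 < b by linarith))
    have h5 := hup _ hε
    rw [eventually_inf_principal] at h4 hfin ⊢
    filter_upwards [h4, hfin, h5, eventually_gt_atTop 0] with p h4 hfin h5 hp0 hpp
    have : Fact p.Prime := ⟨hpp⟩
    have : Finite (R →+* ZMod p) := hfin hpp
    have : Fintype (R →+* ZMod p) := Fintype.ofFinite _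
    have hp : (0 : ℝ) < p := by exact_mod_cast hp0
    refine lt_of_le_of_lt ?_ (h4 hpp)
    rw [dbl_card (fun z : R →+* ZMod p => z e ≠ 0), dbl_card (fun z : R →+* ZMod p => z 1 ≠ 0),
      hc p hpp, pow_succ]
    have h8 : (Finset.univ.filter fun z : R →+* ZMod p => z 1 ≠ 0) = Finset.univ := by
      ext z
      simp
    rw [h8]
    have h9 := Finset.card_filter_add_card_filter_not
      (s := (Finset.univ : Finset (R →+* ZMod p))) (fun z => z e ≠ 0)
    have h10 : ((Finset.univ.filter fun z : R →+* ZMod p => z e ≠ 0).card : ℝ) +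
        (Finset.univ.filter fun z : R →+* ZMod p => ¬ z e ≠ 0).card =
        ((Finset.univ : Finset (R →+* ZMod p)).card : ℝ) := by exact_mod_cast h9
    have h6 : ((∑ z, N p z : ℕ) : ℝ) ≤
        ((Finset.univ.filter fun z : R →+* ZMod p => z e ≠ 0).card : ℝ) *
          ((1 + (b - 1) / 2) * p) +
        ((Finset.univ.filter fun z : R →+* ZMod p => ¬ z e ≠ 0).card : ℝ) * (2 * p) := by
      rw [← Finset.sum_filter_add_sum_filter_not Finset.univ (fun z : R →+* ZMod p => z e ≠ 0)]
      push_cast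
      refine add_le_add ?_ ?_
      · rw [← nsmul_eq_mul]
        exact Finset.sum_le_card_nsmul _ _ _ fun z hz => h5 hpp z (Finset.mem_filter.1 hz).2
      · rw [← nsmul_eq_mul]
        exact Finset.sum_le_card_nsmul _ _ _ fun z _ => hbad p hpp z
    have h7 : (0 : ℝ) < (p : ℝ) ^ d := by positivity
    rw [div_le_iff₀ (by positivity)]
    refine h6.trans (le_of_eq ?_)
    rw [← h10]
    field_simp
    ring

/-- proof: as for `langWeil_hyp` in `Tower.lean`. By `Gn.cert` there is `E ≠ 0` in `R` such that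
`h_z` is not a constant times a square for all `z : R → F_p` with `z E ≠ 0`; for these `z` use
`Gn.card_curve_ns`; the other `z` are `o(p^d)` by `hR`, with at most `2 p` points each -/
theorem langWeil_dbl (R : Type) [CommRing R] [IsDomain R] [CharZero R] (d : ℕ)
    (hR : LangWeil R d) (h : R[X]) (hh : NotSq h) : LangWeil (HypRing R h) (d + 1) := by
  classical
  intro D hD
  obtain ⟨u, v, hDuv⟩ := dbl_rep h D
  obtain ⟨E, hE0, hE⟩ := Gn.cert R h hh
  set Nm : R[X] := u ^ 2 - v ^ 2 * h with hNm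
  have hNm0 : Nm ≠ 0 := by
    intro h1
    obtain ⟨hu, hv⟩ := dbl_norm h hh u v h1
    apply hD
    rw [hDuv, hu, hv, map_zero]
    ring
  have hle : ∀ (p : ℕ) [Fact p.Prime] (z : R →+* ZMod p),
      (Finset.univ.filter fun Q : ZMod p × ZMod p => Q.2 ^ 2 = (h.map z).eval Q.1 ∧
        (u.map z).eval Q.1 + (v.map z).eval Q.1 * Q.2 ≠ 0).card ≤
        (Finset.univ.filter fun Q : ZMod p × ZMod p => Q.2 ^ 2 = (h.map z).eval Q.1).card := by
    intro p _ z
    refine Finset.card_le_card fun Q hQ => ?_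
    rw [Finset.mem_filter] at hQ ⊢
    exact ⟨hQ.1, hQ.2.1⟩
  refine dblp_fib hR (E * Nm.leadingCoeff) (mul_ne_zero hE0 (leadingCoeff_ne_zero.2 hNm0))
    (fun p => Nat.card {φ : HypRing R h →+* ZMod p // φ D ≠ 0})
    (fun p z => Nat.card {Q : ZMod p × ZMod p // Q.2 ^ 2 = (h.map z).eval Q.1 ∧
        (u.map z).eval Q.1 + (v.map z).eval Q.1 * Q.2 ≠ 0}) ?_ ?_ ?_ ?_
  · intro p hpp _
    have : Fact p.Prime := ⟨hpp⟩
    rw [Nat.card_congr (dbl_hypEquiv h p u v D hDuv), Nat.card_sigma]
  · intro ε hε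
    obtain ⟨p₀, hp₀⟩ := Gn.card_curve_ns h.natDegree (ε / 2) (half_pos hε)
    filter_upwards [dbl_big (ε / 2) (half_pos hε) (2 * Nm.natDegree), eventually_ge_atTop p₀]
      with p hp hp1 hpp z hz
    have : Fact p.Prime := ⟨hpp⟩
    rw [map_mul, mul_ne_zero_iff] at hz
    have h0 := hp₀ p hp1 hpp (h.map z) natDegree_map_le (hE (ZMod p) z hz.1)
    rw [dbl_card (fun Q : ZMod p × ZMod p => Q.2 ^ 2 = (h.map z).eval Q.1)] at h0
    rw [dbl_card (fun Q : ZMod p × ZMod p => Q.2 ^ 2 = (h.map z).eval Q.1 ∧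
        (u.map z).eval Q.1 + (v.map z).eval Q.1 * Q.2 ≠ 0)]
    have h2 : Nm.map z ≠ 0 := by
      intro h3
      apply hz.2
      have h4 := congrArg (fun P => P.coeff Nm.natDegree) h3
      simpa using h4
    have h3 := dbl_roots (Nm.map z) h2
    have h4 : (Nm.map z).natDegree ≤ Nm.natDegree := natDegree_map_le
    set A := Finset.univ.filter fun Q : ZMod p × ZMod p => Q.2 ^ 2 = (h.map z).eval Q.1 with hA
    set B := Finset.univ.filter fun Q : ZMod p × ZMod p => Q.2 ^ 2 = (h.map z).eval Q.1 ∧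
        (u.map z).eval Q.1 + (v.map z).eval Q.1 * Q.2 ≠ 0 with hB
    have h5 : (A \ B).card ≤ 2 * Nm.natDegree := by
      have h6 : (A \ B).card ≤ 2 * ((A \ B).image Prod.fst).card := by
        refine Finset.card_le_mul_card_image _ _ fun x _ => ?_
        refine le_trans ?_ (dbl_two ((h.map z).eval x))
        refine Finset.card_le_card_of_injOn Prod.snd ?_ ?_
        · intro Q hQ
          have hQ' := Finset.mem_filter.1 hQ
          have hQ2 := (Finset.mem_sdiff.1 hQ'.1).1
          rw [hA, Finset.mem_filter] at hQ2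
          simp only [Finset.coe_filter, Finset.mem_univ, true_and, Set.mem_ofPred_eq]
          rw [hQ2.2, hQ'.2]
        · intro Q hQ Q' hQ' e
          have h7 := (Finset.mem_filter.1 hQ).2
          have h8 := (Finset.mem_filter.1 hQ').2
          exact Prod.ext (h7.trans h8.symm) e
      have h9 : ((A \ B).image Prod.fst).card ≤ Nm.natDegree := by
        refine le_trans (Finset.card_le_card ?_) (h3.trans h4)
        intro x hx
        obtain ⟨Q, hQ, rfl⟩ := Finset.mem_image.1 hx
        rw [Finset.mem_sdiff, hA, hB, Finset.mem_filter, Finset.mem_filter] at hQ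
        obtain ⟨⟨_, hQ1⟩, hQ2⟩ := hQ
        have hQ3 : (u.map z).eval Q.1 + (v.map z).eval Q.1 * Q.2 = 0 := by
          by_contra h10
          exact hQ2 ⟨Finset.mem_univ _, hQ1, h10⟩
        rw [Finset.mem_filter]
        refine ⟨Finset.mem_univ _, ?_⟩
        rw [hNm, Polynomial.map_sub, Polynomial.map_mul, Polynomial.map_pow, Polynomial.map_pow,
          eval_sub, eval_mul, eval_pow, eval_pow, ← hQ1]
        linear_combination ((u.map z).eval Q.1 - (v.map z).eval Q.1 * Q.2) * hQ3
      omega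
    have h6 : A.card ≤ B.card + 2 * Nm.natDegree := by
      have h7 := Finset.card_le_card_sdiff_add_card (s := A) (t := B)
      omega
    have h7 : (A.card : ℝ) ≤ B.card + (2 * Nm.natDegree : ℕ) := by exact_mod_cast h6
    rw [abs_le] at h0
    linarith [h0.1]
  · intro ε hε
    obtain ⟨p₀, hp₀⟩ := Gn.card_curve_ns h.natDegree ε hε
    filter_upwards [eventually_ge_atTop p₀] with p hp1 hpp z hz
    have : Fact p.Prime := ⟨hpp⟩
    rw [map_mul, mul_ne_zero_iff] at hz
    have h0 := hp₀ p hp1 hpp (h.map z) natDegree_map_le (hE (ZMod p) z hz.1)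
    rw [dbl_card (fun Q : ZMod p × ZMod p => Q.2 ^ 2 = (h.map z).eval Q.1)] at h0
    rw [dbl_card (fun Q : ZMod p × ZMod p => Q.2 ^ 2 = (h.map z).eval Q.1 ∧
        (u.map z).eval Q.1 + (v.map z).eval Q.1 * Q.2 ≠ 0)]
    have h2 : ((Finset.univ.filter fun Q : ZMod p × ZMod p => Q.2 ^ 2 = (h.map z).eval Q.1 ∧
        (u.map z).eval Q.1 + (v.map z).eval Q.1 * Q.2 ≠ 0).card : ℝ) ≤
        (Finset.univ.filter fun Q : ZMod p × ZMod p => Q.2 ^ 2 = (h.map z).eval Q.1).card := by
      exact_mod_cast hle p z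
    rw [abs_le] at h0
    linarith [h0.2]
  · intro p hpp z
    have : Fact p.Prime := ⟨hpp⟩
    rw [dbl_card (fun Q : ZMod p × ZMod p => Q.2 ^ 2 = (h.map z).eval Q.1 ∧
        (u.map z).eval Q.1 + (v.map z).eval Q.1 * Q.2 ≠ 0)]
    have h1 : (Finset.univ.filter fun Q : ZMod p × ZMod p =>
        Q.2 ^ 2 = (h.map z).eval Q.1).card ≤ 2 * p := by
      have h6 : (Finset.univ.filter fun Q : ZMod p × ZMod p =>
          Q.2 ^ 2 = (h.map z).eval Q.1).card ≤ 2 * ((Finset.univ.filter fun Q : ZMod p × ZMod p =>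
          Q.2 ^ 2 = (h.map z).eval Q.1).image Prod.fst).card := by
        refine Finset.card_le_mul_card_image _ _ fun x _ => ?_
        refine le_trans ?_ (dbl_two ((h.map z).eval x))
        refine Finset.card_le_card_of_injOn Prod.snd ?_ ?_
        · intro Q hQ
          have hQ' := Finset.mem_filter.1 hQ
          have hQ2 := (Finset.mem_filter.1 hQ'.1).2
          simp only [Finset.coe_filter, Finset.mem_univ, true_and, Set.mem_ofPred_eq]
          rw [hQ2, hQ'.2]
        · intro Q hQ Q' hQ' e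
          have h7 := (Finset.mem_filter.1 hQ).2
          have h8 := (Finset.mem_filter.1 hQ').2
          exact Prod.ext (h7.trans h8.symm) e
      have h7 : ((Finset.univ.filter fun Q : ZMod p × ZMod p =>
          Q.2 ^ 2 = (h.map z).eval Q.1).image Prod.fst).card ≤ p :=
        (Finset.card_le_univ _).trans (ZMod.card p).le
      omega
    exact_mod_cast (hle p z).trans h1

private theorem dblp_fin {R S : Type} [CommRing R] [CommRing S] [Algebra R S]
    (h1 : Algebra.FiniteType ℤ R) (h2 : Algebra.FiniteType R S) : Algebra.FiniteType ℤ S :=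
  h1.trans h2

/-- proof: as for `tower_spec` in `Quad/TowerT.lean` -/
theorem towerD_spec (R : Type) [CommRing R] (d : ℕ) (h : TowerD R d) :
    IsDomain R ∧ CharZero R ∧ Algebra.FiniteType ℤ R ∧ LangWeil R d := by
  induction h with
  | int => exact ⟨inferInstance, inferInstance, inferInstance, langWeil_int⟩
  | @poly R _ d hR ih =>
    obtain ⟨h1, h2, h3, h4⟩ := ih
    refine ⟨inferInstance, inferInstance, ?_, langWeil_poly R d h4⟩
    exact h3.trans (inferInstance : Algebra.FiniteType R R[X])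
  | @dbl R _ d hR h hh ih =>
    obtain ⟨h1, h2, h3, h4⟩ := ih
    refine ⟨dbl_isDomain R h hh, dbl_charZero R h hh, ?_, langWeil_dbl R d h4 h hh⟩
    have h5 : Algebra.FiniteType ℤ R[X] := h3.trans (inferInstance : Algebra.FiniteType R R[X])
    have h6 : Algebra.FiniteType R[X] (HypRing R h) := inferInstance
    exact h5.trans h6
  | @loc R _ d hR s hs ih =>
    obtain ⟨h1, h2, h3, h4⟩ := ih
    have h5 : Submonoid.powers s ≤ nonZeroDivisors R :=
      powers_le_nonZeroDivisors_of_noZeroDivisors hs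
    refine ⟨IsLocalization.isDomain_localization h5, ?_, ?_, Quad.langWeil_loc d h4 s hs⟩
    · exact charZero_of_injective_algebraMap (R := R)
        (IsLocalization.injective (Localization.Away s) h5)
    · have h6 : Algebra.FiniteType R (Localization.Away s) :=
        IsLocalization.finiteType_of_monoid_fg (Submonoid.powers s) _
      exact dblp_fin h3 h6
  | @iso R S _ _ d hR e ih =>
    obtain ⟨h1, h2, h3, h4⟩ := ih
    have h5 : IsDomain S := MulEquiv.isDomain R e.symm.toMulEquiv
    refine ⟨h5, ?_, ?_, Quad.langWeil_iso d e h4⟩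
    · exact charZero_of_injective_ringHom (f := e.toRingHom) e.injective
    · exact h3.of_surjective (e.toRingHom.toIntAlgHom) e.surjective

end Pool.Agent.Lib.MP_1a0ddd_nt
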