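import Mathlib

/-! Linear pencils `y² = f(x) + t g(x)` of odd degree over `L(t)`: definitions. -/

set_option autoImplicit false

namespace Pool.Agent.Lib.MP_1a0ddd_nt

open Polynomial

variable {L : Type} [Field L]

/-- the polynomial `f(x) + t g(x)` over `L(t)` -/
noncomputable def pencil (f g : L[X]) : (RatFunc L)[X] :=
  f.map (RatFunc.C : L →+* RatFunc L) + C RatFunc.X * g.map (RatFunc.C : L →+* RatFunc L)

/-- the affine coordinate ring `L(t)[x, y]/(y² - f(x) - t g(x))` -/
abbrev CoordRing (f g : L[X]) : Type :=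
  AdjoinRoot (X ^ 2 - C (pencil f g) : (RatFunc L)[X][X])

/-- the number of monic irreducible factors `π` of `g` such that `f` is a square modulo `π` -/
noncomputable def sqFactors (f g : L[X]) : ℕ :=
  Set.ncard {π : L[X] | π.Monic ∧ Irreducible π ∧ π ∣ g ∧ ∃ β : L[X], π ∣ f - β ^ 2}

/-- standing hypotheses on the pencil -/
structure Good (f g : L[X]) : Prop where
  monic : f.Monic
  odd : Odd f.natDegree
  sq : Squarefree g
  cop : IsCoprime f g
  deg : g.natDegree < f.natDegree

/-- abstract form of the coordinate ring -/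
structure Hyp (f g : L[X]) (A : Type) [CommRing A] [Algebra (RatFunc L)[X] A] (y : A) : Prop where
  sq : y ^ 2 = algebraMap (RatFunc L)[X] A (pencil f g)
  rep : ∀ a : A, ∃ u v : (RatFunc L)[X], a = algebraMap _ A u + algebraMap _ A v * y
  uniq : ∀ u v : (RatFunc L)[X], algebraMap _ A u + algebraMap _ A v * y = 0 → u = 0 ∧ v = 0

/-- polynomials over `L` as elements of a ring over `L(t)[x]` -/
noncomputable def emb (A : Type) [CommRing A] [Algebra (RatFunc L)[X] A] : L[X] →+* A :=
  (algebraMap (RatFunc L)[X] A).comp (mapRingHom (RatFunc.C : L →+* RatFunc L))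

/-- constants of `L(t)` as elements of a ring over `L(t)[x]` -/
noncomputable def cst (A : Type) [CommRing A] [Algebra (RatFunc L)[X] A] : RatFunc L →+* A :=
  (algebraMap (RatFunc L)[X] A).comp C

theorem Good.g_ne {f g : L[X]} (h : Good f g) : g ≠ 0 := by
  intro e
  have h2 := h.sq
  rw [e] at h2
  exact not_squarefree_zero h2

theorem pencil_eq (f g : L[X]) (A : Type) [CommRing A] [Algebra (RatFunc L)[X] A] :
    algebraMap (RatFunc L)[X] A (pencil f g) = emb A f + cst A (RatFunc.X : RatFunc L) * emb A g := by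
  simp [pencil, emb, cst]

private theorem pencil_lt {f g : L[X]} (h : Good f g) :
    (C RatFunc.X * g.map (RatFunc.C : L →+* RatFunc L)).natDegree <
      (f.map (RatFunc.C : L →+* RatFunc L)).natDegree := by
  rw [natDegree_C_mul RatFunc.X_ne_zero, natDegree_map, natDegree_map]
  exact h.deg

theorem pencil_natDegree {f g : L[X]} (h : Good f g) :
    (pencil f g).natDegree = f.natDegree := by
  rw [pencil, natDegree_add_eq_left_of_natDegree_lt (pencil_lt h), natDegree_map]

theorem pencil_monic {f g : L[X]} (h : Good f g) : (pencil f g).Monic := by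
  rw [pencil]
  exact (h.monic.map _).add_of_left (degree_lt_degree (pencil_lt h))

theorem pencil_irreducible {f g : L[X]} (h : Good f g) : Irreducible (pencil f g) := by
  have h1 : Irreducible (C g * X + C f : L[X][X]) :=
    irreducible_C_mul_X_add_C h.g_ne h.cop.symm.isRelPrime
  have h2 : Irreducible (Bivariate.swap (C g * X + C f : L[X][X])) :=
    (MulEquiv.irreducible_iff (Bivariate.swap (R := L)).toMulEquiv).2 h1
  have h3 : Bivariate.swap (C g * X + C f : L[X][X]) = f.map C + C X * g.map C := by
    rw [map_add, map_mul, Bivariate.swap_C, Bivariate.swap_C, Bivariate.swap_Y]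
    ring
  rw [h3] at h2
  have h4 : (f.map C + C X * g.map C : L[X][X]).Monic := by
    refine (h.monic.map _).add_of_left (degree_lt_degree ?_)
    rw [natDegree_map]
    refine lt_of_le_of_lt (natDegree_C_mul_le _ _) ?_
    rw [natDegree_map]
    exact h.deg
  have h5 := (h4.irreducible_iff_irreducible_map_fraction_map (K := RatFunc L)).1 h2
  have h6 : (f.map C + C X * g.map C : L[X][X]).map (algebraMap L[X] (RatFunc L)) =
      pencil f g := by
    rw [pencil, Polynomial.map_add, Polynomial.map_mul, Polynomial.map_map, Polynomial.map_map,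
      map_C, RatFunc.algebraMap_X]
    have h7 : (algebraMap L[X] (RatFunc L)).comp C = (RatFunc.C : L →+* RatFunc L) := by
      ext a
      rw [RingHom.comp_apply, RatFunc.algebraMap_C]
    rw [h7]
  rwa [h6] at h5

/-- norm form is anisotropic -/
theorem norm_ne {f g : L[X]} (h : Good f g) (u v : (RatFunc L)[X])
    (e : u ^ 2 = v ^ 2 * pencil f g) : u = 0 ∧ v = 0 := by
  have hF := pencil_monic h
  by_cases hv : v = 0
  · rw [hv] at e
    simp only [ne_eq, OfNat.ofNat_ne_zero, not_false_eq_true, zero_pow, zero_mul,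
      pow_eq_zero_iff] at e
    exact ⟨e, hv⟩
  · exfalso
    have h1 := congrArg natDegree e
    rw [natDegree_pow, natDegree_mul (pow_ne_zero 2 hv) hF.ne_zero, natDegree_pow,
      pencil_natDegree h] at h1
    obtain ⟨k, hk⟩ := h.odd
    omega

private theorem curve_irreducible {f g : L[X]} (h : Good f g) :
    Irreducible (X ^ 2 - C (pencil f g) : (RatFunc L)[X][X]) := by
  have hm : (X ^ 2 - C (pencil f g) : (RatFunc L)[X][X]).Monic := monic_X_pow_sub_C _ two_ne_zero
  have hd : (X ^ 2 - C (pencil f g) : (RatFunc L)[X][X]).natDegree = 2 := natDegree_X_pow_sub_C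
  rw [hm.irreducible_iff_natDegree']
  refine ⟨?_, ?_⟩
  · intro h1
    rw [h1, natDegree_one] at hd
    omega
  · intro p q hp hq hpq hmem
    rw [hd, Finset.mem_Ioc] at hmem
    have hq1 : q.natDegree = 1 := by omega
    have hq2 : q = X + C (q.coeff 0) := hq.eq_X_add_C hq1
    have h3 : (X ^ 2 - C (pencil f g) : (RatFunc L)[X][X]).eval (-(q.coeff 0)) = 0 := by
      rw [← hpq, eval_mul, hq2]
      simp
    rw [eval_sub, eval_pow, eval_X, eval_C, sub_eq_zero] at h3
    have h4 := norm_ne h (-(q.coeff 0)) 1 (by rw [h3, one_pow, one_mul])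
    exact one_ne_zero h4.2

theorem coordRing_isDomain {f g : L[X]} (h : Good f g) : IsDomain (CoordRing f g) := by
  exact AdjoinRoot.isDomain_of_prime (curve_irreducible h).prime

theorem coordRing_hyp {f g : L[X]} (h : Good f g) :
    Hyp f g (CoordRing f g) (AdjoinRoot.root _) := by
  have hm : (X ^ 2 - C (pencil f g) : (RatFunc L)[X][X]).Monic := monic_X_pow_sub_C _ two_ne_zero
  have hd : (X ^ 2 - C (pencil f g) : (RatFunc L)[X][X]).natDegree = 2 := natDegree_X_pow_sub_C
  have key : ∀ u v : (RatFunc L)[X], algebraMap (RatFunc L)[X] (CoordRing f g) u +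
      algebraMap (RatFunc L)[X] (CoordRing f g) v * AdjoinRoot.root _ =
      AdjoinRoot.mk (X ^ 2 - C (pencil f g)) (C u + C v * X) := by
    intro u v
    rw [map_add, map_mul, AdjoinRoot.mk_X, AdjoinRoot.mk_C, AdjoinRoot.mk_C,
      AdjoinRoot.algebraMap_eq]
  refine ⟨?_, ?_, ?_⟩
  · have h1 := AdjoinRoot.eval₂_root (X ^ 2 - C (pencil f g) : (RatFunc L)[X][X])
    rw [eval₂_sub, eval₂_pow, eval₂_X, eval₂_C, sub_eq_zero] at h1
    rw [AdjoinRoot.algebraMap_eq]
    exact h1
  · intro a
    obtain ⟨p, rfl⟩ := AdjoinRoot.mk_surjective a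
    refine ⟨(p %ₘ (X ^ 2 - C (pencil f g))).coeff 0, (p %ₘ (X ^ 2 - C (pencil f g))).coeff 1, ?_⟩
    rw [key]
    have h1 : (p %ₘ (X ^ 2 - C (pencil f g))).natDegree ≤ 1 := by
      have := natDegree_modByMonic_lt p hm (fun h1 => by
        rw [h1, natDegree_one] at hd
        omega)
      omega
    have h2 : C ((p %ₘ (X ^ 2 - C (pencil f g))).coeff 0) +
        C ((p %ₘ (X ^ 2 - C (pencil f g))).coeff 1) * X = p %ₘ (X ^ 2 - C (pencil f g)) := by
      rw [add_comm]
      exact (eq_X_add_C_of_natDegree_le_one h1).symm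
    rw [h2, AdjoinRoot.mk_eq_mk]
    exact ⟨p /ₘ (X ^ 2 - C (pencil f g)), by
      have := modByMonic_add_div p (X ^ 2 - C (pencil f g) : (RatFunc L)[X][X])
      linear_combination -this⟩
  · intro u v e
    rw [key, AdjoinRoot.mk_eq_zero] at e
    have h1 : (C u + C v * X : (RatFunc L)[X][X]).natDegree <
        (X ^ 2 - C (pencil f g) : (RatFunc L)[X][X]).natDegree := by
      rw [hd, add_comm]
      exact lt_of_le_of_lt natDegree_linear_le one_lt_two
    have h2 := eq_zero_of_dvd_of_natDegree_lt e h1
    constructor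
    · have := congrArg (fun q => q.coeff 0) h2
      simpa using this
    · have := congrArg (fun q => q.coeff 1) h2
      simpa using this

end Pool.Agent.Lib.MP_1a0ddd_nt
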