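import Pool.Agent.Lib.MP_1a0ddd_nt.Defs

/-! Primes not containing `g` are principal up to primes containing `g`. -/

set_option autoImplicit false

namespace Pool.Agent.Lib.MP_1a0ddd_nt

open Polynomial

variable {L : Type} [Field L]

/-- the map `L[x][y] → A` -/
noncomputable def biv (A : Type) [CommRing A] [Algebra (RatFunc L)[X] A] (y : A) :
    L[X][X] →+* A := eval₂RingHom (emb A) y

private theorem biv_C (A : Type) [CommRing A] [Algebra (RatFunc L)[X] A] (y : A) (c : L[X]) :
    biv A y (C c) = emb A c := by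
  simp [biv]

private theorem biv_X (A : Type) [CommRing A] [Algebra (RatFunc L)[X] A] (y : A) :
    biv (L := L) A y X = y := by
  simp [biv]

private theorem alg_inj {f g : L[X]} {A : Type} [CommRing A] [Algebra (RatFunc L)[X] A] {y : A}
    (H : Hyp f g A y) : Function.Injective (algebraMap (RatFunc L)[X] A) := by
  rw [injective_iff_map_eq_zero]
  intro u hu
  exact (H.uniq u 0 (by rw [hu, map_zero, zero_mul, add_zero])).1

private theorem emb_inj {f g : L[X]} {A : Type} [CommRing A] [Algebra (RatFunc L)[X] A] {y : A}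
    (H : Hyp f g A y) : Function.Injective (emb (L := L) A) := by
  unfold emb
  rw [RingHom.coe_comp]
  exact (alg_inj H).comp (map_injective _ (RatFunc.C : L →+* RatFunc L).injective)

/-- `L[x][t] → L(t)[x]` is injective -/
private theorem tmap_inj : Function.Injective
    (eval₂RingHom (mapRingHom (RatFunc.C : L →+* RatFunc L)) (C (RatFunc.X : RatFunc L))) := by
  have h : eval₂RingHom (mapRingHom (RatFunc.C : L →+* RatFunc L)) (C (RatFunc.X : RatFunc L)) =
      (mapRingHom (algebraMap L[X] (RatFunc L))).comp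
        ((Bivariate.swap (R := L)).toAlgHom.toRingHom) := by
    ext <;> simp [Bivariate.swap_apply]
  rw [h, RingHom.coe_comp]
  exact (map_injective _ (RatFunc.algebraMap_injective L)).comp (Bivariate.swap (R := L)).injective

/-- proof: the ring map `A → Frac(L[x][y])`, `t ↦ (y² - f)/g` (this element is transcendental
over `L`, because otherwise `y² = f + t g` would be algebraic over `L[x]`) -/
theorem biv_injective {f g : L[X]} (h : Good f g) {A : Type} [CommRing A] [IsDomain A]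
    [Algebra (RatFunc L)[X] A] {y : A} (H : Hyp f g A y) :
    Function.Injective (biv (L := L) A y) := by
  rw [injective_iff_map_eq_zero]
  intro p hp
  by_contra hp0
  let _ : Algebra L[X] A := (emb A).toAlgebra
  have hmap : ∀ c : L[X], IsAlgebraic L[X] (emb A c) := fun c => isAlgebraic_algebraMap c
  have h1 : IsAlgebraic L[X] y := ⟨p, hp0, hp⟩
  have h2 : IsAlgebraic L[X] (y ^ 2 - emb A f) := (h1.pow 2).sub (hmap f)
  have h3 : y ^ 2 - emb A f = emb A g * cst A (RatFunc.X : RatFunc L) := by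
    rw [H.sq, pencil_eq]
    ring
  have hg0 : emb A g ≠ 0 := by
    rw [Ne, map_eq_zero_iff _ (emb_inj H)]
    exact h.g_ne
  rw [h3] at h2
  obtain ⟨q, hq0, hq⟩ := IsAlgebraic.of_mul (mem_nonZeroDivisors_of_ne_zero hg0) (hmap g) h2
  apply hq0
  apply tmap_inj
  rw [map_zero]
  apply alg_inj H
  rw [map_zero, coe_eval₂RingHom, hom_eval₂]
  exact hq

private def Den (A : Type) [CommRing A] [Algebra (RatFunc L)[X] A] (y : A) (g : L[X]) (a : A) :
    Prop :=
  ∃ s b : L[X][X], (∃ N : ℕ, biv A y s ∣ emb A g ^ N) ∧ biv A y s * a = biv A y b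

private theorem Den.add {A : Type} [CommRing A] [Algebra (RatFunc L)[X] A] {y : A} {g : L[X]}
    {a a' : A} (h : Den A y g a) (h' : Den A y g a') : Den A y g (a + a') := by
  obtain ⟨s, b, ⟨N, hN⟩, hs⟩ := h
  obtain ⟨s', b', ⟨N', hN'⟩, hs'⟩ := h'
  refine ⟨s * s', s' * b + s * b', ⟨N + N', ?_⟩, ?_⟩
  · rw [map_mul, pow_add]
    exact mul_dvd_mul hN hN'
  · rw [map_mul, map_add, map_mul, map_mul, ← hs, ← hs']
    ring

private theorem Den.mul {A : Type} [CommRing A] [Algebra (RatFunc L)[X] A] {y : A} {g : L[X]}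
    {a a' : A} (h : Den A y g a) (h' : Den A y g a') : Den A y g (a * a') := by
  obtain ⟨s, b, ⟨N, hN⟩, hs⟩ := h
  obtain ⟨s', b', ⟨N', hN'⟩, hs'⟩ := h'
  refine ⟨s * s', b * b', ⟨N + N', ?_⟩, ?_⟩
  · rw [map_mul, pow_add]
    exact mul_dvd_mul hN hN'
  · rw [map_mul, map_mul, ← hs, ← hs']
    ring

private theorem den_biv {A : Type} [CommRing A] [Algebra (RatFunc L)[X] A] (y : A) (g : L[X])
    (b : L[X][X]) : Den A y g (biv A y b) :=
  ⟨1, b, ⟨0, by rw [map_one, pow_zero]⟩, by rw [map_one, one_mul]⟩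

/-- `g ^ N c(t) ∈ L[x][y]` -/
private theorem hom_t {f g : L[X]} {A : Type} [CommRing A] [Algebra (RatFunc L)[X] A] {y : A}
    (H : Hyp f g A y) (c : L[X]) : ∃ (N : ℕ) (q : L[X][X]),
      emb A g ^ N * cst A (algebraMap L[X] (RatFunc L) c) = biv A y q := by
  have h3 : emb A g * cst A (RatFunc.X : RatFunc L) = y ^ 2 - emb A f := by
    rw [H.sq, pencil_eq]
    ring
  induction c using Polynomial.induction_on' with
  | add p q hp hq =>
    obtain ⟨N, p', hp'⟩ := hp
    obtain ⟨M, q', hq'⟩ := hq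
    refine ⟨N + M, C g ^ M * p' + C g ^ N * q', ?_⟩
    rw [map_add, map_add, map_add, map_mul, map_mul, ← hp', ← hq', map_pow, map_pow, biv_C]
    ring
  | monomial n a =>
    refine ⟨n, C (C a) * (X ^ 2 - C f) ^ n, ?_⟩
    rw [map_mul, map_pow, map_sub, map_pow, biv_X, biv_C, biv_C, ← h3, mul_pow,
      ← C_mul_X_pow_eq_monomial, map_mul, map_mul, map_pow, map_pow, RatFunc.algebraMap_X]
    have e : cst A (algebraMap L[X] (RatFunc L) (C a)) = emb A (C a) := by
      simp [cst, emb, RatFunc.algebraMap_C]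
    rw [e]
    ring

private theorem den_cst {f g : L[X]} {A : Type} [CommRing A] [Algebra (RatFunc L)[X] A] {y : A}
    (H : Hyp f g A y) (c : RatFunc L) : Den A y g (cst A c) := by
  induction c using RatFunc.induction_on with
  | f p q hq =>
    rw [div_eq_mul_inv, map_mul]
    refine Den.mul ?_ ?_
    · obtain ⟨N, p', hp'⟩ := hom_t H p
      refine ⟨C g ^ N, p', ⟨N, ?_⟩, ?_⟩
      · rw [map_pow, biv_C]
      · rw [map_pow, biv_C, hp']
    · obtain ⟨N, q', hq'⟩ := hom_t H q
      have hq0 : algebraMap L[X] (RatFunc L) q ≠ 0 := RatFunc.algebraMap_ne_zero hq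
      have e : biv A y q' * cst A (algebraMap L[X] (RatFunc L) q)⁻¹ = emb A g ^ N := by
        rw [← hq', mul_assoc, ← map_mul, mul_inv_cancel₀ hq0, map_one, mul_one]
      refine ⟨q', C g ^ N, ⟨N, ⟨_, e.symm⟩⟩, ?_⟩
      rw [e, map_pow, biv_C]

private theorem den_alg {f g : L[X]} {A : Type} [CommRing A] [Algebra (RatFunc L)[X] A] {y : A}
    (H : Hyp f g A y) (u : (RatFunc L)[X]) : Den A y g (algebraMap (RatFunc L)[X] A u) := by
  induction u using Polynomial.induction_on' with
  | add p q hp hq =>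
    rw [map_add]
    exact hp.add hq
  | monomial n a =>
    rw [← C_mul_X_pow_eq_monomial, map_mul]
    refine (den_cst H a).mul ?_
    have e : algebraMap (RatFunc L)[X] A (X ^ n) = biv A y (C (X ^ n : L[X])) := by
      rw [biv_C]
      simp [emb]
    rw [e]
    exact den_biv _ _ _

/-- proof: the set of these `a` is a subring which contains `x`, `y` and `L(t)`; for
`c ∈ L[t]` of degree `N` one has `g^N c(t) ∈ L[x][y]` because `t g = y² - f` -/
theorem exists_denom {f g : L[X]} (h : Good f g) {A : Type} [CommRing A] [IsDomain A]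
    [Algebra (RatFunc L)[X] A] {y : A} (H : Hyp f g A y) (a : A) :
    ∃ s b : L[X][X], (∃ N : ℕ, biv A y s ∣ emb A g ^ N) ∧ biv A y s * a = biv A y b := by
  obtain ⟨u, v, rfl⟩ := H.rep a
  have hy := den_biv (A := A) y g (X : L[X][X])
  rw [biv_X] at hy
  exact (den_alg H u).add ((den_alg H v).mul hy)

/-- proof: let `π` be a prime element of `L[x][y]` with image `h` in `P`, and `P J = (h)`.
If `a b ∈ (h)` then `g^N a ∈ (h)` or `g^N b ∈ (h)` for some `N` (`exists_denom`,
`biv_injective`). Hence `g^N P ⊆ P J` for some `N`, and `g^N ∈ J`. -/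
theorem gen {f g : L[X]} (h : Good f g) {A : Type} [CommRing A]
    [IsDedekindDomain A] [Algebra (RatFunc L)[X] A] {y : A} (H : Hyp f g A y)
    (P : Ideal A) (hP : P.IsPrime) (hP0 : P ≠ ⊥) (hg : emb A g ∉ P) :
    ∃ (J : Ideal A) (a : A), a ≠ 0 ∧ P * J = Ideal.span {a} ∧ ∃ N : ℕ, emb A g ^ N ∈ J := by
  have hinj := biv_injective h H
  have hgN : ∀ N : ℕ, emb A g ^ N ∉ P := fun N hN => hg (hP.mem_of_pow_mem N hN)
  have hgN0 : ∀ N : ℕ, emb A g ^ N ≠ 0 := fun N hN => hgN N (hN ▸ P.zero_mem)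
  -- a prime element of `L[x][y]` in `P`
  obtain ⟨π, hπP, hπ⟩ : ∃ π ∈ P.comap (biv (L := L) A y), Prime π := by
    refine Ideal.IsPrime.exists_mem_prime_of_ne_bot (hP.comap _) ?_
    obtain ⟨a, haP, ha0⟩ := Submodule.exists_mem_ne_zero_of_ne_bot hP0
    obtain ⟨s, b, ⟨N, hN⟩, hs⟩ := exists_denom h H a
    have hs0 : biv A y s ≠ 0 := by
      intro h0
      rw [h0, zero_dvd_iff] at hN
      exact hgN0 N hN
    have hb : b ∈ P.comap (biv (L := L) A y) := by
      rw [Ideal.mem_comap, ← hs]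
      exact P.mul_mem_left _ haP
    intro hbot
    rw [hbot, Ideal.mem_bot] at hb
    rw [hb, map_zero] at hs
    exact mul_ne_zero hs0 ha0 hs
  rw [Ideal.mem_comap] at hπP
  have hπ0 : biv A y π ≠ 0 := by
    rw [Ne, map_eq_zero_iff _ hinj]
    exact hπ.ne_zero
  obtain ⟨J, hJ⟩ : P ∣ Ideal.span {biv A y π} := by
    rw [Ideal.dvd_iff_le, Ideal.span_singleton_le_iff_mem]
    exact hπP
  -- the key property
  have key : ∀ a b : A, biv A y π ∣ a * b →
      (∃ N : ℕ, biv A y π ∣ emb A g ^ N * a) ∨ ∃ N : ℕ, biv A y π ∣ emb A g ^ N * b := by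
    intro a b ⟨c, hc⟩
    obtain ⟨s, p, ⟨N, hN⟩, hs⟩ := exists_denom h H a
    obtain ⟨s', q, ⟨N', hN'⟩, hs'⟩ := exists_denom h H b
    obtain ⟨s'', r, ⟨N'', hN''⟩, hs''⟩ := exists_denom h H c
    have e : s'' * (p * q) = π * (s * s' * r) := by
      apply hinj
      simp only [map_mul]
      rw [← hs, ← hs', ← hs'']
      linear_combination (biv A y s'' * biv A y s * biv A y s') * hc
    have hd : π ∣ s'' * (p * q) := ⟨_, e⟩
    rcases hπ.dvd_or_dvd hd with hd | hd
    · exfalso
      have h1 : biv A y π ∣ emb A g ^ N'' := (_root_.map_dvd _ hd).trans hN''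
      exact hgN N'' (P.mem_of_dvd h1 hπP)
    · rcases hπ.dvd_or_dvd hd with hd | hd
      · left
        refine ⟨N, ?_⟩
        have h1 : biv A y π ∣ biv A y s * a := hs ▸ _root_.map_dvd _ hd
        exact h1.trans (mul_dvd_mul_right hN a)
      · right
        refine ⟨N', ?_⟩
        have h1 : biv A y π ∣ biv A y s' * b := hs' ▸ _root_.map_dvd _ hd
        exact h1.trans (mul_dvd_mul_right hN' b)
  -- uniform exponent for finitely generated ideals
  have unif : ∀ I : Ideal A, (∀ a ∈ I, ∃ N : ℕ, biv A y π ∣ emb A g ^ N * a) →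
      ∃ N : ℕ, Ideal.span {emb A g ^ N} * I ≤ Ideal.span {biv A y π} := by
    intro I hI
    obtain ⟨S, hS⟩ := (isNoetherian_def.1 (inferInstance : IsNoetherian A A)) I
    have h1 : ∃ N : ℕ, ∀ a ∈ S, biv A y π ∣ emb A g ^ N * a := by
      have h2 : ∀ a ∈ S, ∃ N : ℕ, biv A y π ∣ emb A g ^ N * a := fun a ha =>
        hI a (hS ▸ Submodule.subset_span ha)
      choose! F hF using h2
      refine ⟨∑ a ∈ S, F a, fun a ha => (hF a ha).trans ?_⟩
      exact mul_dvd_mul_right (pow_dvd_pow _ (Finset.single_le_sum (fun _ _ => Nat.zero_le _) ha)) a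
    obtain ⟨N, hN⟩ := h1
    refine ⟨N, ?_⟩
    rw [← hS, Ideal.submodule_span_eq, Ideal.span_mul_span, Ideal.span_le]
    rintro x ⟨c, hc, a, ha, rfl⟩
    rw [Set.mem_singleton_iff] at hc
    rw [hc]
    exact Ideal.mem_span_singleton.2 (hN a ha)
  refine ⟨J, biv A y π, hπ0, hJ.symm, ?_⟩
  have hJ0 : J ≠ 0 := by
    rintro rfl
    rw [mul_zero, ← Ideal.zero_eq_bot.symm] at hJ
    exact hπ0 (Ideal.span_singleton_eq_bot.1 hJ)
  by_cases hall : ∀ a ∈ P, ∃ N : ℕ, biv A y π ∣ emb A g ^ N * a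
  · obtain ⟨N, hN⟩ := unif P hall
    refine ⟨N, ?_⟩
    rw [hJ, mul_comm P J, ← Ideal.dvd_iff_le] at hN
    have h1 : J ∣ Ideal.span {emb A g ^ N} := (mul_dvd_mul_iff_right hP0).1 hN
    rw [Ideal.dvd_iff_le, Ideal.span_singleton_le_iff_mem] at h1
    exact h1
  · exfalso
    push Not at hall
    obtain ⟨a, haP, ha⟩ := hall
    have hb : ∀ b ∈ J, ∃ N : ℕ, biv A y π ∣ emb A g ^ N * b := by
      intro b hb
      have h1 : a * b ∈ Ideal.span {biv A y π} := by
        rw [hJ]
        exact Ideal.mul_mem_mul haP hb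
      rcases key a b (Ideal.mem_span_singleton.1 h1) with ⟨N, hN⟩ | h2
      · exact absurd hN (ha N)
      · exact h2
    obtain ⟨N, hN⟩ := unif J hb
    rw [hJ, ← Ideal.dvd_iff_le] at hN
    have h1 : P ∣ Ideal.span {emb A g ^ N} := (mul_dvd_mul_iff_right hJ0).1 hN
    rw [Ideal.dvd_iff_le, Ideal.span_singleton_le_iff_mem] at h1
    exact hgN N h1

end Pool.Agent.Lib.MP_1a0ddd_nt
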