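import Pool.Agent.Lib.MP_1a0ddd_nt.Tower

/-! The limit of the Nagao averages of split pencils. -/

set_option autoImplicit false

namespace Pool.Agent.Lib.MP_1a0ddd_nt

open Polynomial Filter Topology

section counts

variable {R : Type} [CommRing R] {r : ℕ} (f : R[X]) (a b : Fin r → R) {p : ℕ} (z : R →+* ZMod p)

private theorem lim_eval (x : ZMod p) :
    ((∏ i, (X - C (a i))).map z).eval x = ∏ i, (x - z (a i)) := by
  rw [Polynomial.map_prod, eval_prod]
  refine Finset.prod_congr rfl fun i _ => ?_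
  simp

private theorem lim_fz (hf : ∀ i, f.eval (a i) = b i ^ 2) (i : Fin r) :
    (f.map z).eval (z (a i)) = z (b i) ^ 2 := by
  rw [eval_map, eval₂_hom, hf i, map_pow]

private theorem lim_root [Fact p.Prime] (i : Fin r) :
    ((∏ i, (X - C (a i))).map z).eval (z (a i)) = 0 := by
  rw [lim_eval]
  exact Finset.prod_eq_zero (Finset.mem_univ i) (sub_self _)

private theorem lim_root' [Fact p.Prime] {x : ZMod p}
    (hx : ((∏ i, (X - C (a i))).map z).eval x = 0) : ∃ i, z (a i) = x := by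
  rw [lim_eval, Finset.prod_eq_zero_iff] at hx
  obtain ⟨i, _, hi⟩ := hx
  exact ⟨i, (sub_eq_zero.mp hi).symm⟩

/-- the roots -/
private def lim_g1 [Fact p.Prime] (i : Fin r) :
    {x : ZMod p // ((∏ i, (X - C (a i))).map z).eval x = 0} :=
  ⟨z (a i), lim_root a z i⟩

private theorem lim_g1_surj [Fact p.Prime] : Function.Surjective (lim_g1 a z) := by
  rintro ⟨x, hx⟩
  obtain ⟨i, hi⟩ := lim_root' a z hx
  exact ⟨i, Subtype.ext hi⟩

/-- the points above the roots -/
private def lim_g2 [Fact p.Prime] (hf : ∀ i, f.eval (a i) = b i ^ 2) (q : Fin r × Bool) :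
    {P : ZMod p × ZMod p // ((∏ i, (X - C (a i))).map z).eval P.1 = 0 ∧
      P.2 ^ 2 = (f.map z).eval P.1} :=
  ⟨(z (a q.1), if q.2 then z (b q.1) else - z (b q.1)), lim_root a z q.1, by
    rw [lim_fz f a b z hf]
    change (if q.2 then z (b q.1) else - z (b q.1)) ^ 2 = _
    split_ifs
    · rfl
    · exact neg_sq _⟩

private theorem lim_g2_surj [Fact p.Prime] (hf : ∀ i, f.eval (a i) = b i ^ 2) :
    Function.Surjective (lim_g2 f a b z hf) := by
  rintro ⟨⟨x, y⟩, hx, hy⟩
  obtain ⟨i, rfl⟩ := lim_root' a z hx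
  have hy' : y ^ 2 = z (b i) ^ 2 := by
    rw [← lim_fz f a b z hf i]
    exact hy
  rcases sq_eq_sq_iff_eq_or_eq_neg.mp hy' with h | h
  · refine ⟨(i, true), Subtype.ext (Prod.ext rfl ?_)⟩
    change (if true = true then z (b i) else - z (b i)) = y
    rw [if_pos rfl, h]
  · refine ⟨(i, false), Subtype.ext (Prod.ext rfl ?_)⟩
    change (if false = true then z (b i) else - z (b i)) = y
    rw [if_neg Bool.false_ne_true, h]

private theorem lim_abs [Fact p.Prime] (hf : ∀ i, f.eval (a i) = b i ^ 2) :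
    |∑ᶠ t : ZMod p, (frobTrace f (∏ i, (X - C (a i))) p z t : ℝ)| ≤ 2 * r * p := by
  have hp : p.Prime := Fact.out
  rw [frob_sum f _ p hp z]
  have h1 : Nat.card {x : ZMod p // ((∏ i, (X - C (a i))).map z).eval x = 0} ≤ r := by
    have h := Nat.card_le_card_of_surjective _ (lim_g1_surj a z)
    simpa using h
  have h2 : Nat.card {P : ZMod p × ZMod p // ((∏ i, (X - C (a i))).map z).eval P.1 = 0 ∧
      P.2 ^ 2 = (f.map z).eval P.1} ≤ r * 2 := by
    have h := Nat.card_le_card_of_surjective _ (lim_g2_surj f a b z hf)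
    simpa using h
  have h1' : (Nat.card {x : ZMod p // ((∏ i, (X - C (a i))).map z).eval x = 0} : ℝ) ≤ r := by
    exact_mod_cast h1
  have h2' : (Nat.card {P : ZMod p × ZMod p // ((∏ i, (X - C (a i))).map z).eval P.1 = 0 ∧
      P.2 ^ 2 = (f.map z).eval P.1} : ℝ) ≤ r * 2 := by
    exact_mod_cast h2
  have h3 : (0 : ℝ) ≤ Nat.card {x : ZMod p // ((∏ i, (X - C (a i))).map z).eval x = 0} :=
    Nat.cast_nonneg _
  have h4 : (0 : ℝ) ≤ Nat.card {P : ZMod p × ZMod p //
      ((∏ i, (X - C (a i))).map z).eval P.1 = 0 ∧ P.2 ^ 2 = (f.map z).eval P.1} :=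
    Nat.cast_nonneg _
  have hr : (0 : ℝ) ≤ r := Nat.cast_nonneg _
  have hp0 : (0 : ℝ) ≤ p := Nat.cast_nonneg _
  rw [abs_mul, abs_of_nonneg hp0, mul_comm]
  refine mul_le_mul_of_nonneg_right ?_ hp0
  rw [abs_le]
  constructor <;> linarith

private theorem lim_eq [Fact p.Prime] (hp2 : p ≠ 2) (hf : ∀ i, f.eval (a i) = b i ^ 2)
    (hinj : Function.Injective fun i => z (a i)) (hbz : ∀ i, z (b i) ≠ 0) :
    ∑ᶠ t : ZMod p, (frobTrace f (∏ i, (X - C (a i))) p z t : ℝ) = -(r * p) := by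
  have hp : p.Prime := Fact.out
  rw [frob_sum f _ p hp z]
  have hneg : ∀ i, z (b i) ≠ - z (b i) := by
    intro i h
    have h2 : (2 : ZMod p) * z (b i) = 0 := by
      rw [two_mul]
      nth_rewrite 2 [h]
      ring
    rcases mul_eq_zero.mp h2 with h3 | h3
    · have : (p : ℕ) ∣ 2 := by
        rw [← ZMod.natCast_eq_zero_iff]
        exact_mod_cast h3
      exact hp2 ((Nat.prime_dvd_prime_iff_eq hp Nat.prime_two).mp this)
    · exact hbz i h3
  have h1 : Nat.card {x : ZMod p // ((∏ i, (X - C (a i))).map z).eval x = 0} = r := by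
    have hbij : Function.Bijective (lim_g1 a z) :=
      ⟨fun i j hij => hinj (congrArg Subtype.val hij), lim_g1_surj a z⟩
    rw [← Nat.card_eq_of_bijective _ hbij]
    simp
  have h2 : Nat.card {P : ZMod p × ZMod p // ((∏ i, (X - C (a i))).map z).eval P.1 = 0 ∧
      P.2 ^ 2 = (f.map z).eval P.1} = r * 2 := by
    have hbij : Function.Bijective (lim_g2 f a b z hf) := by
      refine ⟨?_, lim_g2_surj f a b z hf⟩
      rintro ⟨i, s⟩ ⟨j, t⟩ hq
      have hq1 : z (a i) = z (a j) := congrArg (fun P => P.val.1) hq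
      have hq2 : (if s = true then z (b i) else - z (b i)) =
          if t = true then z (b j) else - z (b j) := congrArg (fun P => P.val.2) hq
      have hij : i = j := hinj hq1
      subst hij
      cases s <;> cases t
      · rfl
      · exact absurd (by simpa using hq2.symm) (hneg i)
      · exact absurd (by simpa using hq2) (hneg i)
      · rfl
    rw [← Nat.card_eq_of_bijective _ hbij]
    simp
  rw [h1, h2]
  push_cast
  ring

end counts

/-- the number of the `z` with `z D ≠ 0` as a sum -/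
private theorem lim_card {Z : Type} [Fintype Z] (P : Z → Prop) [DecidablePred P] :
    (Nat.card {z : Z // P z} : ℝ) = ∑ z : Z, (if P z then (1 : ℝ) else 0) := by
  rw [Nat.card_eq_fintype_card, Fintype.card_subtype, Finset.card_filter]
  push_cast
  rfl

/-- proof: let `D = ∏ b_i ∏_(i<j) (a_i - a_j)`. For `p > 2` large the set of the `z` is finite
(`hR` for `D = 1`) and `nagaoAvg` is `p^(-d-1) ∑_z S_z`, `S_z` given by `frob_sum`. If `z D ≠ 0`
then `S_z = - r p`; otherwise `|S_z| ≤ 2 r p`. The number of the `z` with `z D = 0` is `o(p^d)`. -/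
theorem nagao_tendsto (R : Type) [CommRing R] [IsDomain R] (d : ℕ) (hR : LangWeil R d)
    (f : R[X]) {r : ℕ} (a b : Fin r → R) (ha : Function.Injective a) (hb : ∀ i, b i ≠ 0)
    (hf : ∀ i, f.eval (a i) = b i ^ 2) :
    Tendsto (fun p : ℕ => nagaoAvg f (∏ i, (X - C (a i))) d p)
      (atTop ⊓ 𝓟 {p : ℕ | p.Prime}) (𝓝 (-(r : ℝ))) := by
  classical
  set D : R := (∏ i, b i) * ∏ i, ∏ j, (if i = j then 1 else a i - a j) with hD
  have hD0 : D ≠ 0 := by
    refine mul_ne_zero (Finset.prod_ne_zero_iff.mpr fun i _ => hb i) ?_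
    refine Finset.prod_ne_zero_iff.mpr fun i _ => Finset.prod_ne_zero_iff.mpr fun j _ => ?_
    split_ifs with hij
    · exact one_ne_zero
    · exact sub_ne_zero.mpr fun e => hij (ha e)
  have hA := hR 1 one_ne_zero
  have hB := hR D hD0
  have hlim : Tendsto (fun p : ℕ =>
      2 * (r : ℝ) * ((Nat.card {z : R →+* ZMod p // z 1 ≠ 0} : ℝ) / (p : ℝ) ^ d -
        (Nat.card {z : R →+* ZMod p // z D ≠ 0} : ℝ) / (p : ℝ) ^ d))
      (atTop ⊓ 𝓟 {p : ℕ | p.Prime}) (𝓝 0) := by
    have h := (hA.sub hB).const_mul (2 * (r : ℝ))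
    rwa [sub_self, mul_zero] at h
  have hpos : ∀ᶠ p : ℕ in atTop ⊓ 𝓟 {p : ℕ | p.Prime},
      0 < (Nat.card {z : R →+* ZMod p // z 1 ≠ 0} : ℝ) / (p : ℝ) ^ d :=
    hA.eventually (lt_mem_nhds one_pos)
  have hprime : ∀ᶠ p : ℕ in atTop ⊓ 𝓟 {p : ℕ | p.Prime}, p.Prime :=
    eventually_inf_principal.mpr (Eventually.of_forall fun p hp => hp)
  have hbig : ∀ᶠ p : ℕ in atTop ⊓ 𝓟 {p : ℕ | p.Prime}, 3 ≤ p :=
    (eventually_ge_atTop 3).filter_mono inf_le_left
  have hmain : Tendsto (fun p : ℕ => nagaoAvg f (∏ i, (X - C (a i))) d p +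
      (r : ℝ) * ((Nat.card {z : R →+* ZMod p // z D ≠ 0} : ℝ) / (p : ℝ) ^ d))
      (atTop ⊓ 𝓟 {p : ℕ | p.Prime}) (𝓝 0) := by
    refine squeeze_zero_norm' ?_ hlim
    filter_upwards [hpos, hprime, hbig] with p hp1 hp2 hp3
    have : Fact p.Prime := ⟨hp2⟩
    have hp0 : (0 : ℝ) < p := by exact_mod_cast hp2.pos
    have hfin : Finite (R →+* ZMod p) := by
      have h1 : Nat.card {z : R →+* ZMod p // z 1 ≠ 0} ≠ 0 := by
        intro e
        rw [e, Nat.cast_zero, zero_div] at hp1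
        exact lt_irrefl _ hp1
      have h2 : Finite {z : R →+* ZMod p // z 1 ≠ 0} := Nat.finite_of_card_ne_zero h1
      refine Finite.of_injective
        (fun z : R →+* ZMod p => (⟨z, by rw [map_one]; exact one_ne_zero⟩ :
          {z : R →+* ZMod p // z 1 ≠ 0})) fun z w hzw => congrArg Subtype.val hzw
    have := Fintype.ofFinite (R →+* ZMod p)
    rw [lim_card (fun z : R →+* ZMod p => z 1 ≠ 0), lim_card (fun z : R →+* ZMod p => z D ≠ 0)]
    unfold nagaoAvg
    rw [finsum_eq_sum_of_fintype]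
    set S : (R →+* ZMod p) → ℝ := fun z =>
      ∑ᶠ t : ZMod p, (frobTrace f (∏ i, (X - C (a i))) p z t : ℝ) with hS
    have hS1 : ∀ z : R →+* ZMod p, z D ≠ 0 → S z = -(r * p) := by
      intro z hz
      have hz1 : z (∏ i, b i) ≠ 0 := by
        intro e
        exact hz (by rw [hD, map_mul, e, zero_mul])
      have hz2 : z (∏ i, ∏ j, (if i = j then 1 else a i - a j)) ≠ 0 := by
        intro e
        exact hz (by rw [hD, map_mul, e, mul_zero])
      rw [map_prod] at hz1
      refine lim_eq f a b z (by omega) hf (fun i j hij => ?_) fun i =>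
        Finset.prod_ne_zero_iff.mp hz1 i (Finset.mem_univ i)
      by_contra hne
      rw [map_prod] at hz2
      have h3 := Finset.prod_ne_zero_iff.mp hz2 i (Finset.mem_univ i)
      rw [map_prod] at h3
      have h4 := Finset.prod_ne_zero_iff.mp h3 j (Finset.mem_univ j)
      rw [if_neg hne, map_sub] at h4
      exact h4 (sub_eq_zero.mpr hij)
    have hS2 : ∀ z : R →+* ZMod p, |S z| ≤ 2 * r * p := fun z => lim_abs f a b z hf
    have hstep : |∑ z : R →+* ZMod p, (S z + r * p * (if z D ≠ 0 then (1 : ℝ) else 0))| ≤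
        ∑ z : R →+* ZMod p, 2 * r * p *
          ((if z 1 ≠ 0 then (1 : ℝ) else 0) - if z D ≠ 0 then (1 : ℝ) else 0) := by
      refine (Finset.abs_sum_le_sum_abs _ _).trans (Finset.sum_le_sum fun z _ => ?_)
      have hz1 : z 1 ≠ 0 := by
        rw [map_one]
        exact one_ne_zero
      rw [if_pos hz1]
      by_cases hz : z D ≠ 0
      · rw [if_pos hz, hS1 z hz]
        simp
      · rw [if_neg hz, mul_zero, add_zero, sub_zero, mul_one]
        exact hS2 z
    rw [← Finset.mul_sum, Finset.sum_sub_distrib, Finset.sum_add_distrib, ← Finset.mul_sum] at hstep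
    rw [Real.norm_eq_abs]
    have e1 : (∑ z, S z) / (p : ℝ) ^ (d + 1) +
        (r : ℝ) * ((∑ z : R →+* ZMod p, if z D ≠ 0 then (1 : ℝ) else 0) / (p : ℝ) ^ d) =
        (∑ z, S z + r * p * ∑ z : R →+* ZMod p, if z D ≠ 0 then (1 : ℝ) else 0) /
          (p : ℝ) ^ (d + 1) := by
      rw [pow_succ]
      field_simp
    have e2 : 2 * (r : ℝ) * ((∑ z : R →+* ZMod p, if z 1 ≠ 0 then (1 : ℝ) else 0) / (p : ℝ) ^ d -
        (∑ z : R →+* ZMod p, if z D ≠ 0 then (1 : ℝ) else 0) / (p : ℝ) ^ d) =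
        (2 * r * p * ((∑ z : R →+* ZMod p, if z 1 ≠ 0 then (1 : ℝ) else 0) -
          ∑ z : R →+* ZMod p, if z D ≠ 0 then (1 : ℝ) else 0)) / (p : ℝ) ^ (d + 1) := by
      rw [pow_succ]
      field_simp
    rw [e1, e2, abs_div, abs_of_pos (pow_pos hp0 (d + 1))]
    exact div_le_div_of_nonneg_right hstep (pow_pos hp0 (d + 1)).le
  have hfinal := hmain.sub (hB.const_mul (r : ℝ))
  rw [mul_one, zero_sub] at hfinal
  refine hfinal.congr fun p => ?_
  ring

end Pool.Agent.Lib.MP_1a0ddd_nt
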