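import Pool.Agent.Lib.MP_1a0ddd_nt.Defs

/-! Primes over the zeros of `g`. -/

set_option autoImplicit false

namespace Pool.Agent.Lib.MP_1a0ddd_nt

open Polynomial

variable {L : Type} [Field L]

/-- the ideal `(π, y - β)` -/
noncomputable def PI (A : Type) [CommRing A] [Algebra (RatFunc L)[X] A] (y : A) (π β : L[X]) :
    Ideal A := Ideal.span {emb A π, y - emb A β}

theorem PI_congr (A : Type) [CommRing A] [Algebra (RatFunc L)[X] A] (y : A) {π β β' : L[X]}
    (hβ : π ∣ β - β') : PI A y π β = PI A y π β' := by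
  have key : ∀ γ γ' : L[X], π ∣ γ - γ' → PI A y π γ ≤ PI A y π γ' := by
    rintro γ γ' ⟨q, hq⟩
    have h1 : emb A π ∈ PI A y π γ' := Ideal.subset_span (by simp)
    have h2 : y - emb A γ' ∈ PI A y π γ' := Ideal.subset_span (by simp)
    refine Ideal.span_le.2 ?_
    rintro a (rfl | rfl)
    · exact h1
    · have h3 : y - emb A γ = (y - emb A γ') - emb A q * emb A π := by
        have h4 : emb A γ = emb A γ' + emb A q * emb A π := by
          rw [← map_mul, ← map_add, mul_comm q, ← hq, add_sub_cancel]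
        rw [h4]
        ring
      rw [h3]
      exact Ideal.sub_mem _ h2 (Ideal.mul_mem_left _ _ h1)
  refine le_antisymm (key β β' hβ) (key β' β ?_)
  rw [← neg_sub]
  exact (dvd_neg).2 hβ

theorem map_irreducible {π : L[X]} (hπ : Irreducible π) :
    Irreducible (π.map (RatFunc.C : L →+* RatFunc L)) := by
  have h1 : Irreducible (π.map (C : L →+* L[X])) := by
    rw [← MulEquiv.irreducible_iff (Bivariate.swap (R := L)), Bivariate.swap_map_C]
    exact (prime_C_iff.2 hπ.prime).irreducible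
  have h2 : (π.map (C : L →+* L[X])).natDegree ≠ 0 := by
    rw [natDegree_map_eq_of_injective C_injective]
    exact hπ.natDegree_pos.ne'
  have h3 := ((h1.isPrimitive h2).irreducible_iff_irreducible_map_fraction_map
    (K := RatFunc L)).1 h1
  rw [map_map] at h3
  have h4 : (algebraMap L[X] (RatFunc L)).comp (C : L →+* L[X]) = RatFunc.C := by
    ext a
    exact RatFunc.algebraMap_C a
  rwa [h4] at h3

/-! ### auxiliary lemmas -/

private theorem ov_emb (A : Type) [CommRing A] [Algebra (RatFunc L)[X] A] (w : L[X]) :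
    emb A w = algebraMap (RatFunc L)[X] A (w.map (RatFunc.C : L →+* RatFunc L)) := rfl

private theorem ov_inj {f g : L[X]} {A : Type} [CommRing A]
    [Algebra (RatFunc L)[X] A] {y : A} (H : Hyp f g A y) {u v : (RatFunc L)[X]}
    (h : algebraMap (RatFunc L)[X] A u = algebraMap (RatFunc L)[X] A v) : u = v := by
  have h1 := H.uniq (u - v) 0 (by rw [map_sub, map_zero, zero_mul, add_zero, h, sub_self])
  exact sub_eq_zero.1 h1.1

private theorem ov_uniq {f g : L[X]} {A : Type} [CommRing A]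
    [Algebra (RatFunc L)[X] A] {y : A} (H : Hyp f g A y) {u v u' v' : (RatFunc L)[X]}
    (h : algebraMap (RatFunc L)[X] A u + algebraMap (RatFunc L)[X] A v * y =
      algebraMap (RatFunc L)[X] A u' + algebraMap (RatFunc L)[X] A v' * y) : u = u' ∧ v = v' := by
  have h1 := H.uniq (u - u') (v - v') (by
    rw [map_sub, map_sub]
    linear_combination h)
  exact ⟨sub_eq_zero.1 h1.1, sub_eq_zero.1 h1.2⟩

private theorem ov_norm {f g π β : L[X]} (hg : π ∣ g) (hβ : π ∣ f - β ^ 2) :
    π.map (RatFunc.C : L →+* RatFunc L) ∣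
      pencil f g - (β.map (RatFunc.C : L →+* RatFunc L)) ^ 2 := by
  have h1 : pencil f g - (β.map (RatFunc.C : L →+* RatFunc L)) ^ 2 =
      (f - β ^ 2).map (RatFunc.C : L →+* RatFunc L) +
        C RatFunc.X * g.map (RatFunc.C : L →+* RatFunc L) := by
    rw [Polynomial.map_sub, Polynomial.map_pow, pencil]
    ring
  rw [h1]
  exact dvd_add (map_dvd_map' _ |>.2 hβ) ((map_dvd_map' _ |>.2 hg).mul_left _)

/-- elements of `L(t)[x]` in the ideal `(π, y - β)` -/
private theorem ov_mem {f g : L[X]} {A : Type} [CommRing A]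
    [Algebra (RatFunc L)[X] A] {y : A} (H : Hyp f g A y) {π β : L[X]}
    (hg : π ∣ g) (hβ : π ∣ f - β ^ 2) (w : (RatFunc L)[X])
    (hw : algebraMap (RatFunc L)[X] A w ∈ PI A y π β) :
    π.map (RatFunc.C : L →+* RatFunc L) ∣ w := by
  obtain ⟨a, b, hab⟩ := Ideal.mem_span_pair.1 hw
  obtain ⟨a0, a1, rfl⟩ := H.rep a
  obtain ⟨b0, b1, rfl⟩ := H.rep b
  set p := π.map (RatFunc.C : L →+* RatFunc L) with hp
  set q := β.map (RatFunc.C : L →+* RatFunc L) with hq
  have h1 : algebraMap (RatFunc L)[X] A (a0 * p - b0 * q + b1 * pencil f g) +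
      algebraMap (RatFunc L)[X] A (a1 * p + b0 - b1 * q) * y =
      algebraMap (RatFunc L)[X] A w + algebraMap (RatFunc L)[X] A 0 * y := by
    rw [map_zero, zero_mul, add_zero, ← hab, ov_emb, ov_emb, ← hp, ← hq]
    simp only [map_add, map_sub, map_mul]
    rw [← H.sq]
    ring
  obtain ⟨h2, h3⟩ := ov_uniq H h1
  obtain ⟨r, hr⟩ := ov_norm hg hβ
  rw [← hp, ← hq] at hr
  refine ⟨a0 + a1 * q + b1 * r, ?_⟩
  rw [← h2]
  linear_combination (-q) * h3 + b1 * hr

private theorem ov_not_dvd {f g : L[X]} (h : Good f g) {π β : L[X]} (hπ : Irreducible π)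
    (hg : π ∣ g) (hβ : π ∣ f - β ^ 2) : ¬ π ∣ β := by
  intro h1
  apply hπ.not_isUnit
  have h2 : π ∣ f := by
    have h3 := dvd_add hβ (h1.mul_left β)
    have h4 : f - β ^ 2 + β * β = f := by ring
    rwa [h4] at h3
  exact h.cop.isUnit_of_dvd' h2 hg

private theorem ov_two [CharZero L] {f g : L[X]} (h : Good f g) {π β : L[X]}
    (hπ : Irreducible π) (hg : π ∣ g) (hβ : π ∣ f - β ^ 2) : ¬ π ∣ 2 * β := by
  intro h1
  have h2 : IsUnit (2 : L[X]) := by
    have h3 : (2 : L[X]) = C 2 := rfl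
    rw [h3, isUnit_C]
    exact isUnit_iff_ne_zero.2 two_ne_zero
  exact ov_not_dvd h hπ hg hβ ((h2.dvd_mul_left).1 h1)

/-- a maximality criterion -/
private theorem ov_max {f g : L[X]} {A : Type} [CommRing A]
    [Algebra (RatFunc L)[X] A] {y : A} (H : Hyp f g A y) {π : L[X]} (hπ : Irreducible π)
    (I : Ideal A) (hI : emb A π ∈ I) (h1 : (1 : A) ∉ I)
    (h2 : ∀ u v : (RatFunc L)[X], algebraMap _ A u + algebraMap _ A v * y ∉ I →
      ∃ (b c : A) (w : (RatFunc L)[X]), c ∈ I ∧
        algebraMap _ A w = b * (algebraMap _ A u + algebraMap _ A v * y) + c ∧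
        ¬ π.map (RatFunc.C : L →+* RatFunc L) ∣ w) : I.IsMaximal := by
  rw [Ideal.isMaximal_iff]
  refine ⟨h1, fun J x hIJ hx hxJ => ?_⟩
  obtain ⟨u, v, rfl⟩ := H.rep x
  obtain ⟨b, c, w, hc, hw, hdvd⟩ := h2 u v hx
  have h3 : algebraMap (RatFunc L)[X] A w ∈ J := by
    rw [hw]
    exact J.add_mem (J.mul_mem_left _ hxJ) (hIJ hc)
  obtain ⟨r, s, hrs⟩ := ((map_irreducible hπ).coprime_iff_not_dvd).2 hdvd
  have h4 := congrArg (algebraMap (RatFunc L)[X] A) hrs
  rw [map_add, map_mul, map_mul, map_one] at h4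
  rw [← h4]
  exact J.add_mem (J.mul_mem_left _ (hIJ hI)) (J.mul_mem_left _ h3)

/-- proof: kernel of `A → K[x]/(π)`, `y ↦ β` -/
theorem PI_isMaximal {f g : L[X]} (h : Good f g) {A : Type} [CommRing A] [IsDomain A]
    [Algebra (RatFunc L)[X] A] {y : A} (H : Hyp f g A y) {π β : L[X]} (hπ : Irreducible π)
    (hg : π ∣ g) (hβ : π ∣ f - β ^ 2) : (PI A y π β).IsMaximal := by
  have e1 : emb A π ∈ PI A y π β := Ideal.subset_span (by simp)
  have e2 : y - emb A β ∈ PI A y π β := Ideal.subset_span (by simp)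
  refine ov_max H hπ _ e1 ?_ fun u v huv => ?_
  · intro h1
    have h2 := ov_mem H hg hβ 1 (by rwa [map_one])
    exact (map_irreducible hπ).not_isUnit (isUnit_of_dvd_one h2)
  · refine ⟨1, -(algebraMap _ A v * (y - emb A β)), u + v * β.map (RatFunc.C : L →+* RatFunc L),
      ?_, ?_, ?_⟩
    · exact (PI A y π β).neg_mem (Ideal.mul_mem_left _ _ e2)
    · rw [map_add, map_mul, ov_emb]
      ring
    · rintro ⟨q, hq⟩
      apply huv
      have h3 : algebraMap _ A u + algebraMap _ A v * y =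
          algebraMap _ A q * emb A π + algebraMap _ A v * (y - emb A β) := by
        have h4 := congrArg (algebraMap (RatFunc L)[X] A) hq
        rw [map_add, map_mul, map_mul, ← ov_emb, ← ov_emb] at h4
        linear_combination h4
      rw [h3]
      exact Ideal.add_mem _ (Ideal.mul_mem_left _ _ e1) (Ideal.mul_mem_left _ _ e2)

theorem PI_inter {f g : L[X]} (h : Good f g) {A : Type} [CommRing A] [IsDomain A]
    [Algebra (RatFunc L)[X] A] {y : A} (H : Hyp f g A y) {π β : L[X]} (hπ : Irreducible π)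
    (hg : π ∣ g) (hβ : π ∣ f - β ^ 2) (w : L[X]) (hw : emb A w ∈ PI A y π β) : π ∣ w := by
  have h1 := ov_mem H hg hβ _ hw
  exact (map_dvd_map' _).1 h1

theorem PI_mul [CharZero L] {f g : L[X]} (h : Good f g) {A : Type} [CommRing A] [IsDomain A]
    [Algebra (RatFunc L)[X] A] {y : A} (H : Hyp f g A y) {π β : L[X]} (hπ : Irreducible π)
    (hg : π ∣ g) (hβ : π ∣ f - β ^ 2) :
    PI A y π β * PI A y π (-β) = Ideal.span {emb A π} := by
  apply le_antisymm
  · rw [PI, PI, Ideal.span_pair_mul_span_pair, Ideal.span_le]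
    have e1 : (y - emb A β) * (y - emb A (-β)) ∈ Ideal.span {emb A π} := by
      rw [Ideal.mem_span_singleton]
      have h1 : (y - emb A β) * (y - emb A (-β)) =
          emb A (f - β ^ 2) + cst A (RatFunc.X : RatFunc L) * emb A g := by
        have h2 : (y - emb A β) * (y - emb A (-β)) = y ^ 2 - emb A β ^ 2 := by
          rw [map_neg]
          ring
        rw [h2, H.sq, pencil_eq, map_sub, map_pow]
        ring
      rw [h1]
      exact dvd_add (_root_.map_dvd (emb A) hβ) ((_root_.map_dvd (emb A) hg).mul_left _)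
    rintro a (rfl | rfl | rfl | rfl)
    · exact Ideal.mul_mem_right _ _ (Ideal.mem_span_singleton_self _)
    · exact Ideal.mul_mem_right _ _ (Ideal.mem_span_singleton_self _)
    · exact Ideal.mul_mem_left _ _ (Ideal.mem_span_singleton_self _)
    · exact e1
  · rw [Ideal.span_singleton_le_iff_mem]
    have e1 : emb A π ∈ PI A y π β := Ideal.subset_span (by simp)
    have e2 : y - emb A β ∈ PI A y π β := Ideal.subset_span (by simp)
    have e3 : emb A π ∈ PI A y π (-β) := Ideal.subset_span (by simp)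
    have e4 : y - emb A (-β) ∈ PI A y π (-β) := Ideal.subset_span (by simp)
    obtain ⟨r, s, hrs⟩ := (hπ.coprime_iff_not_dvd).2 (ov_two h hπ hg hβ)
    have h1 := congrArg (emb A) hrs
    rw [map_add, map_mul, map_mul, map_mul, map_one, map_ofNat] at h1
    have h2 : emb A π = emb A r * (emb A π * emb A π) +
        emb A s * (emb A π * (y - emb A (-β)) - (y - emb A β) * emb A π) := by
      rw [map_neg]
      linear_combination (-emb A π) * h1
    rw [h2]
    exact Ideal.add_mem _ (Ideal.mul_mem_left _ _ (Ideal.mul_mem_mul e1 e3))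
      (Ideal.mul_mem_left _ _ (Ideal.sub_mem _ (Ideal.mul_mem_mul e1 e4)
        (Ideal.mul_mem_mul e2 e3)))

theorem PI_ne [CharZero L] {f g : L[X]} (h : Good f g) {A : Type} [CommRing A] [IsDomain A]
    [Algebra (RatFunc L)[X] A] {y : A} (H : Hyp f g A y) {π β : L[X]} (hπ : Irreducible π)
    (hg : π ∣ g) (hβ : π ∣ f - β ^ 2) : PI A y π β ≠ PI A y π (-β) := by
  intro h1
  have e2 : y - emb A β ∈ PI A y π β := Ideal.subset_span (by simp)
  have e4 : y - emb A (-β) ∈ PI A y π (-β) := Ideal.subset_span (by simp)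
  rw [← h1] at e4
  have h2 := Ideal.sub_mem _ e4 e2
  have h3 : y - emb A (-β) - (y - emb A β) = emb A (2 * β) := by
    rw [map_neg, map_mul, map_ofNat]
    ring
  rw [h3] at h2
  exact ov_two h hπ hg hβ (PI_inter h H hπ hg hβ _ h2)

/-- proof: if `w² ≡ c² f mod π` over `L[t][x]`, `c ∈ L[t]` nonzero, specialise `t` at a point
of `L` where `c` does not vanish -/
theorem not_sq_map [CharZero L] {f π : L[X]} (hπ : Irreducible π)
    (hf : ∀ β : L[X], ¬ π ∣ f - β ^ 2) (w : (RatFunc L)[X]) :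
    ¬ π.map (RatFunc.C : L →+* RatFunc L) ∣ f.map (RatFunc.C : L →+* RatFunc L) - w ^ 2 := by
  rintro ⟨q, hq⟩
  have hfac : (algebraMap L[X] (RatFunc L)).comp (C : L →+* L[X]) = RatFunc.C := by
    ext a
    exact RatFunc.algebraMap_C a
  obtain ⟨b1, hb1, h1⟩ := IsLocalization.integerNormalization_spec (nonZeroDivisors L[X]) w
  obtain ⟨b2, hb2, h2⟩ := IsLocalization.integerNormalization_spec (nonZeroDivisors L[X]) q
  set W := IsLocalization.integerNormalization (nonZeroDivisors L[X]) w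
  set Q := IsLocalization.integerNormalization (nonZeroDivisors L[X]) q
  have h1' : W.map (algebraMap L[X] (RatFunc L)) = C (algebraMap L[X] (RatFunc L) b1) * w := by
    rw [h1, ← smul_eq_C_mul, algebraMap_smul]
  have h2' : Q.map (algebraMap L[X] (RatFunc L)) = C (algebraMap L[X] (RatFunc L) b2) * q := by
    rw [h2, ← smul_eq_C_mul, algebraMap_smul]
  have hb : b1 * b2 ≠ 0 := mul_ne_zero (nonZeroDivisors.ne_zero hb1) (nonZeroDivisors.ne_zero hb2)
  have hinj : Function.Injective (algebraMap L[X] (RatFunc L)) := IsFractionRing.injective _ _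
  have key : C (b1 * b2) ^ 2 * f.map (C : L →+* L[X]) - (C b2 * W) ^ 2 =
      π.map (C : L →+* L[X]) * (C (b1 ^ 2 * b2) * Q) := by
    apply map_injective _ hinj
    simp only [Polynomial.map_sub, Polynomial.map_mul, Polynomial.map_pow, map_C, map_map, hfac,
      h1', h2', map_mul, map_pow]
    linear_combination (C (algebraMap L[X] (RatFunc L) b1) * C (algebraMap L[X] (RatFunc L) b2)) ^ 2
      * hq
  obtain ⟨a, ha⟩ : ∃ a : L, (b1 * b2).eval a ≠ 0 := by
    by_contra hcon
    push Not at hcon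
    apply hb
    apply Polynomial.funext
    intro r
    rw [hcon r, eval_zero]
  have h3 := congrArg (fun p => p.map (evalRingHom a)) key
  have hid : (evalRingHom a).comp (C : L →+* L[X]) = RingHom.id L := by
    ext r
    simp
  simp only [Polynomial.map_sub, Polynomial.map_mul, Polynomial.map_pow, map_C, map_map, hid,
    map_id, coe_evalRingHom] at h3
  apply hf (C ((b1 * b2).eval a)⁻¹ * (C (b2.eval a) * W.map (evalRingHom a)))
  refine ⟨C ((b1 * b2).eval a)⁻¹ ^ 2 * (C (eval a (b1 ^ 2 * b2)) * Q.map (evalRingHom a)), ?_⟩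
  have h4 : (C ((b1 * b2).eval a)⁻¹ : L[X]) * C ((b1 * b2).eval a) = 1 := by
    rw [← C_mul, inv_mul_cancel₀ ha, C_1]
  have h5 : (C ((b1 * b2).eval a)⁻¹ : L[X]) ^ 2 * C ((b1 * b2).eval a) ^ 2 = 1 := by
    rw [← mul_pow, h4, one_pow]
  linear_combination (C ((b1 * b2).eval a)⁻¹ : L[X]) ^ 2 * h3 - f * h5

/-- proof: `u + v y ∉ (π)`, the norm `u² - v² f` is not divisible by `π` -/
theorem span_isMaximal [CharZero L] {f g : L[X]} (h : Good f g) {A : Type} [CommRing A]
    [IsDomain A] [Algebra (RatFunc L)[X] A] {y : A} (H : Hyp f g A y) {π : L[X]}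
    (hπ : Irreducible π) (hg : π ∣ g) (hf : ∀ β : L[X], ¬ π ∣ f - β ^ 2) :
    (Ideal.span {emb A π}).IsMaximal := by
  have hirr := map_irreducible hπ
  have hmem : ∀ w : (RatFunc L)[X], π.map (RatFunc.C : L →+* RatFunc L) ∣ w →
      algebraMap _ A w ∈ Ideal.span {emb A π} := by
    intro w hw
    rw [Ideal.mem_span_singleton]
    exact _root_.map_dvd (algebraMap (RatFunc L)[X] A) hw
  refine ov_max H hπ _ (Ideal.mem_span_singleton_self _) ?_ fun u v huv => ?_
  · rw [Ideal.mem_span_singleton]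
    rintro ⟨a, ha⟩
    obtain ⟨a0, a1, rfl⟩ := H.rep a
    have h1 : algebraMap (RatFunc L)[X] A 1 + algebraMap (RatFunc L)[X] A 0 * y =
        algebraMap (RatFunc L)[X] A (π.map (RatFunc.C : L →+* RatFunc L) * a0) +
        algebraMap (RatFunc L)[X] A (π.map (RatFunc.C : L →+* RatFunc L) * a1) * y := by
      rw [map_one, map_zero, zero_mul, add_zero, ha, map_mul, map_mul, ov_emb]
      ring
    obtain ⟨h2, -⟩ := ov_uniq H h1
    exact hirr.not_isUnit (isUnit_of_dvd_one ⟨a0, h2⟩)
  · refine ⟨algebraMap _ A u - algebraMap _ A v * y,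
      algebraMap _ A (v ^ 2 * (pencil f g - f.map (RatFunc.C : L →+* RatFunc L))),
      u ^ 2 - v ^ 2 * f.map (RatFunc.C : L →+* RatFunc L), ?_, ?_, ?_⟩
    · apply hmem
      apply Dvd.dvd.mul_left
      have h1 : pencil f g - f.map (RatFunc.C : L →+* RatFunc L) =
          C RatFunc.X * g.map (RatFunc.C : L →+* RatFunc L) := by
        rw [pencil]
        ring
      rw [h1]
      exact ((map_dvd_map' _).2 hg).mul_left _
    · simp only [map_sub, map_mul, map_pow]
      rw [← H.sq]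
      ring
    · intro hdvd
      by_cases hv : π.map (RatFunc.C : L →+* RatFunc L) ∣ v
      · have h1 : π.map (RatFunc.C : L →+* RatFunc L) ∣ u ^ 2 := by
          have h2 := dvd_add hdvd ((dvd_pow hv two_ne_zero).mul_right
            (f.map (RatFunc.C : L →+* RatFunc L)))
          rwa [sub_add_cancel] at h2
        have h2 := hirr.prime.dvd_of_dvd_pow h1
        exact huv (Ideal.add_mem _ (hmem u h2) (Ideal.mul_mem_right _ _ (hmem v hv)))
      · obtain ⟨r, s, hrs⟩ := (hirr.coprime_iff_not_dvd).2 hv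
        apply not_sq_map hπ hf (s * u)
        obtain ⟨d, hd⟩ := hdvd
        refine ⟨f.map (RatFunc.C : L →+* RatFunc L) * r * (1 + s * v) - s ^ 2 * d, ?_⟩
        linear_combination (-(f.map (RatFunc.C : L →+* RatFunc L)) * (1 + s * v)) * hrs - s ^ 2 * hd

/-- the primes which contain `g` -/
theorem primes_over [CharZero L] {f g : L[X]} (h : Good f g) {A : Type} [CommRing A]
    [IsDomain A] [Algebra (RatFunc L)[X] A] {y : A} (H : Hyp f g A y) (P : Ideal A)
    (hP : P.IsPrime) (hg : emb A g ∈ P) :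
    ∃ π : L[X], π.Monic ∧ Irreducible π ∧ π ∣ g ∧
      ((∃ β : L[X], π ∣ f - β ^ 2 ∧ P = PI A y π β) ∨ P = Ideal.span {emb A π}) := by
  have hcp : (P.comap (emb (L := L) A)).IsPrime := Ideal.IsPrime.comap (emb (L := L) A)
  have hgm : g ∈ P.comap (emb (L := L) A) := hg
  have hg0 := h.g_ne
  obtain ⟨π, hπ, hπg, hπP⟩ : ∃ π : L[X], Irreducible π ∧ π ∣ g ∧ π ∈ P.comap (emb A) := by
    obtain ⟨s, hs, u, hu⟩ := WfDvdMonoid.exists_factors g hg0
    have h1 : s.prod * (u : L[X]) ∈ P.comap (emb A) := by rwa [hu]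
    have h2 : s.prod ∈ P.comap (emb A) := by
      rcases hcp.mem_or_mem h1 with h3 | h3
      · exact h3
      · exact absurd (Ideal.eq_top_of_isUnit_mem _ h3 u.isUnit) hcp.ne_top
    obtain ⟨π, hπs, hπP⟩ := (Ideal.IsPrime.multiset_prod_mem_iff_exists_mem hcp s).1 h2
    refine ⟨π, hs π hπs, ?_, hπP⟩
    rw [← hu]
    exact (Multiset.dvd_prod hπs).mul_right _
  have hπ0 : π ≠ 0 := hπ.ne_zero
  have hlc : (C π.leadingCoeff⁻¹ : L[X]) ≠ 0 := by
    rw [Ne, C_eq_zero, inv_eq_zero]
    exact leadingCoeff_ne_zero.2 hπ0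
  have hunit : IsUnit (C π.leadingCoeff⁻¹ : L[X]) := by
    rw [isUnit_C]
    exact isUnit_iff_ne_zero.2 (inv_ne_zero (leadingCoeff_ne_zero.2 hπ0))
  have hass : Associated π (π * C π.leadingCoeff⁻¹) :=
    (associated_mul_isUnit_right_iff hunit).2 (Associated.refl π)
  have hirr : Irreducible (π * C π.leadingCoeff⁻¹) := hass.irreducible hπ
  have hdvg : π * C π.leadingCoeff⁻¹ ∣ g := hass.symm.dvd.trans hπg
  have hinP : emb A (π * C π.leadingCoeff⁻¹) ∈ P := by
    rw [map_mul]
    exact Ideal.mul_mem_right _ _ hπP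
  refine ⟨π * C π.leadingCoeff⁻¹, monic_mul_leadingCoeff_inv hπ0, hirr, hdvg, ?_⟩
  by_cases hex : ∃ β : L[X], π * C π.leadingCoeff⁻¹ ∣ f - β ^ 2
  · left
    obtain ⟨β, hβ⟩ := hex
    have key : ∀ γ : L[X], π * C π.leadingCoeff⁻¹ ∣ f - γ ^ 2 → y - emb A γ ∈ P →
        P = PI A y (π * C π.leadingCoeff⁻¹) γ := by
      intro γ hγ hy
      have h1 : PI A y (π * C π.leadingCoeff⁻¹) γ ≤ P := by
        refine Ideal.span_le.2 ?_
        rintro a (rfl | rfl)
        · exact hinP
        · exact hy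
      exact ((PI_isMaximal h H hirr hdvg hγ).eq_of_le hP.ne_top h1).symm
    have h2 : (y - emb A β) * (y - emb A (-β)) ∈ P := by
      have h3 : (y - emb A β) * (y - emb A (-β)) =
          emb A (f - β ^ 2) + cst A (RatFunc.X : RatFunc L) * emb A g := by
        have h4 : (y - emb A β) * (y - emb A (-β)) = y ^ 2 - emb A β ^ 2 := by
          rw [map_neg]
          ring
        rw [h4, H.sq, pencil_eq, map_sub, map_pow]
        ring
      rw [h3]
      refine Ideal.add_mem _ ?_ (Ideal.mul_mem_left _ _ hg)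
      obtain ⟨c, hc⟩ := hβ
      rw [hc, map_mul]
      exact Ideal.mul_mem_right _ _ hinP
    have hβ' : π * C π.leadingCoeff⁻¹ ∣ f - (-β) ^ 2 := by rwa [neg_sq]
    rcases hP.mem_or_mem h2 with h3 | h3
    · exact ⟨β, hβ, key β hβ h3⟩
    · exact ⟨-β, hβ', key (-β) hβ' h3⟩
  · right
    push Not at hex
    have h1 : Ideal.span {emb A (π * C π.leadingCoeff⁻¹)} ≤ P := by
      rw [Ideal.span_singleton_le_iff_mem]
      exact hinP
    exact ((span_isMaximal h H hirr hdvg hex).eq_of_le hP.ne_top h1).symm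

end Pool.Agent.Lib.MP_1a0ddd_nt
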