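import Pool.Agent.Lib.MP_1a0ddd_nt.Defs

/-! Divisors of elements of `L[x]` in the coordinate ring. -/

set_option autoImplicit false

namespace Pool.Agent.Lib.MP_1a0ddd_nt

open Polynomial

variable {L : Type} [Field L]

/-- `t`-degree: over `L[t][x]` a norm which does not depend on `t` is a square -/
theorem tdeg {f g : L[X]} (h : Good f g) (u v : L[X][X]) (m : L[X])
    (e : u ^ 2 - v ^ 2 * (f.map C + C X * g.map C) = m.map C) :
    v = 0 ∧ ∃ w : L[X], u = w.map C := by
  have hg := h.g_ne
  set U := Bivariate.swap u with hU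
  set V := Bivariate.swap v with hV
  have e1 : U ^ 2 - V ^ 2 * (C f + X * C g) = C m := by
    have h1 := congrArg Bivariate.swap e
    simp only [map_sub, map_mul, map_pow, map_add, Bivariate.swap_map_C, Bivariate.swap_X] at h1
    exact h1
  have hF : (C f + X * C g : L[X][X]).natDegree = 1 := by
    rw [add_comm, mul_comm]
    exact natDegree_linear hg
  have hv : V = 0 := by
    by_contra hV0
    have h1 : (V ^ 2 * (C f + X * C g)).natDegree = 2 * V.natDegree + 1 := by
      rw [natDegree_mul (pow_ne_zero 2 hV0) (by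
        intro h0
        rw [h0] at hF
        simp at hF), natDegree_pow, hF]
    have h2 : (U ^ 2).natDegree = 2 * U.natDegree := natDegree_pow _ _
    have h3 : (U ^ 2).natDegree ≠ (V ^ 2 * (C f + X * C g)).natDegree := by omega
    rcases lt_or_gt_of_ne h3 with h4 | h4
    · have h5 := natDegree_sub_eq_right_of_natDegree_lt h4
      rw [e1, natDegree_C] at h5
      omega
    · have h5 := natDegree_sub_eq_left_of_natDegree_lt h4
      rw [e1, natDegree_C] at h5
      omega
  have hv0 : v = 0 := (map_eq_zero_iff _ (AlgEquiv.injective _)).1 hv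
  refine ⟨hv0, ?_⟩
  rw [hv, zero_pow two_ne_zero, zero_mul, sub_zero] at e1
  have h6 : U.natDegree = 0 := by
    have h7 := congrArg natDegree e1
    rw [natDegree_pow, natDegree_C] at h7
    omega
  obtain ⟨w, hw⟩ := natDegree_eq_zero.1 h6
  refine ⟨w, ?_⟩
  have h8 := congrArg Bivariate.swap hw
  rw [Bivariate.swap_C, hU, Bivariate.swap_swap_apply] at h8
  exact h8.symm

/-- reduction modulo a prime of `L[t]` -/
private theorem unit_mod {f g : L[X]} (h : Good f g) {q : L[X]} (hq : Irreducible q)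
    (u v : L[X][X]) (hd : C q ∣ u ^ 2 - v ^ 2 * (f.map C + C X * g.map C)) :
    C q ∣ u ∧ C q ∣ v := by
  have : Fact (Irreducible q) := ⟨hq⟩
  set φ : L[X] →+* AdjoinRoot q := AdjoinRoot.mk q with hφ
  have hker : ∀ w : L[X][X], C q ∣ w ↔ w.map φ = 0 := by
    intro w
    rw [C_dvd_iff_dvd_coeff]
    constructor
    · intro hw
      ext i
      rw [coeff_map, coeff_zero, hφ, AdjoinRoot.mk_eq_zero]
      exact hw i
    · intro hw i
      rw [← AdjoinRoot.mk_eq_zero, ← hφ, ← coeff_map, hw, coeff_zero]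
  rw [hker] at hd
  rw [hker, hker]
  rw [Polynomial.map_sub, Polynomial.map_mul, Polynomial.map_pow, Polynomial.map_pow] at hd
  set F : (AdjoinRoot q)[X] := (f.map C + C X * g.map C).map φ with hF
  have hF2 : F = f.map (φ.comp C) + C (φ X) * g.map (φ.comp C) := by
    rw [hF, Polynomial.map_add, Polynomial.map_mul, map_C, map_map, map_map]
  have hlt : (C (φ X) * g.map (φ.comp C)).degree < (f.map (φ.comp C)).degree := by
    apply degree_lt_degree
    rw [h.monic.natDegree_map]
    exact (natDegree_C_mul_le _ _).trans_lt ((natDegree_map_le).trans_lt h.deg)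
  have hFn : F.natDegree = f.natDegree := by
    rw [hF2, natDegree_add_eq_left_of_degree_lt hlt, h.monic.natDegree_map]
  have hF0 : F ≠ 0 := by
    intro h0
    rw [h0] at hFn
    have := h.odd
    rw [← hFn] at this
    simp at this
  have hv : v.map φ = 0 := by
    by_contra hv0
    have h1 := congrArg natDegree (sub_eq_zero.1 hd)
    rw [natDegree_pow, natDegree_mul (pow_ne_zero 2 hv0) hF0, natDegree_pow, hFn] at h1
    obtain ⟨k, hk⟩ := h.odd
    omega
  refine ⟨?_, hv⟩
  rw [hv, zero_pow two_ne_zero, zero_mul, sub_zero] at hd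
  exact pow_eq_zero_iff two_ne_zero |>.1 hd

/-- proof: strong induction on the degree of `c`; a prime `q ∣ c` of `L[t]` divides `u` and `v`,
because modulo `q` the polynomial `f + t g` is monic of odd degree; at the end `tdeg` -/
theorem norm_const {f g : L[X]} (h : Good f g) (u v : L[X][X]) (m c : L[X]) (hm : m ≠ 0)
    (hc : c ≠ 0) (e : u ^ 2 - v ^ 2 * (f.map C + C X * g.map C) = C c * m.map C) :
    v = 0 ∧ ∃ (b : L[X]) (w : L[X]), b ≠ 0 ∧ u = C b * w.map C := by
  obtain ⟨n, hn⟩ : ∃ n, c.natDegree = n := ⟨_, rfl⟩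
  induction n using Nat.strong_induction_on generalizing u v c with
  | _ n ih =>
    by_cases hu : IsUnit c
    · obtain ⟨r, hr, rfl⟩ := isUnit_iff.1 hu
      obtain ⟨h1, w, h2⟩ := tdeg h u v (C r * m) (by
        rw [e, Polynomial.map_mul, map_C])
      exact ⟨h1, 1, w, one_ne_zero, by rw [h2, C_1, one_mul]⟩
    · obtain ⟨q, hq, hqc⟩ := WfDvdMonoid.exists_irreducible_factor hu hc
      obtain ⟨⟨u', rfl⟩, ⟨v', rfl⟩⟩ := unit_mod h hq u v (by
        rw [e]
        exact (_root_.map_dvd C hqc).mul_right _)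
      have hq0 : q ≠ 0 := hq.ne_zero
      have hCq : (C q : L[X][X]) ≠ 0 := C_ne_zero.2 hq0
      set P := u' ^ 2 - v' ^ 2 * (f.map C + C X * g.map C) with hP
      have e2 : C (q ^ 2) * P = C c * m.map C := by
        rw [← e, hP, C_pow]
        ring
      -- `q ^ 2` divides `c`
      have h3 : q ^ 2 ∣ c := by
        have h4 : C (q ^ 2) ∣ C c * m.map C := ⟨P, e2.symm⟩
        rw [C_dvd_iff_dvd_coeff] at h4
        have h5 := h4 m.natDegree
        rw [coeff_C_mul, coeff_map] at h5
        have h6 : IsUnit (C (m.coeff m.natDegree) : L[X]) := by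
          rw [isUnit_C]
          exact (leadingCoeff_ne_zero.2 hm).isUnit
        exact (h6.dvd_mul_right).1 h5
      obtain ⟨c', rfl⟩ := h3
      have hc' : c' ≠ 0 := right_ne_zero_of_mul hc
      have e3 : P = C c' * m.map C := by
        have h7 : (C (q ^ 2) : L[X][X]) ≠ 0 := C_ne_zero.2 (pow_ne_zero 2 hq0)
        apply mul_left_cancel₀ h7
        rw [e2, C_mul, mul_assoc]
      have hdeg : c'.natDegree < n := by
        rw [← hn, natDegree_mul (pow_ne_zero 2 hq0) hc', natDegree_pow]
        have := hq.natDegree_pos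
        omega
      obtain ⟨h8, b, w, hb, h9⟩ := ih _ hdeg u' v' c' hc' e3 rfl
      refine ⟨by rw [h8, mul_zero], q * b, w, mul_ne_zero hq0 hb, ?_⟩
      rw [h9, C_mul, mul_assoc]

/-- divisors of `c(t) m(x)` in `L[t][x]` -/
private theorem unit_divisor {P : L[X][X]} {c m : L[X]} (hc : c ≠ 0) (hm : m ≠ 0)
    (h : P ∣ C c * m.map C) : ∃ c' d : L[X], c' ≠ 0 ∧ d ≠ 0 ∧ P = C c' * d.map C := by
  obtain ⟨P1, P2, h1, h2, rfl⟩ := exists_dvd_and_dvd_of_dvd_mul h
  have hinj : Function.Injective (mapRingHom (C : L →+* L[X])) := map_injective _ C_injective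
  have e1 : P1.natDegree = 0 := by
    have h3 := natDegree_le_of_dvd h1 (C_ne_zero.2 hc)
    rw [natDegree_C] at h3
    omega
  obtain ⟨c', rfl⟩ := natDegree_eq_zero.1 e1
  have h4 : Bivariate.swap P2 ∣ C m := by
    have h5 := _root_.map_dvd (Bivariate.swap : L[X][X] ≃ₐ[L] L[X][X]) h2
    rwa [Bivariate.swap_map_C] at h5
  have e2 : (Bivariate.swap P2).natDegree = 0 := by
    have h3 := natDegree_le_of_dvd h4 (C_ne_zero.2 hm)
    rw [natDegree_C] at h3
    omega
  obtain ⟨d, hd⟩ := natDegree_eq_zero.1 e2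
  have h6 : P2 = d.map C := by
    have h7 := congrArg Bivariate.swap hd
    rw [Bivariate.swap_C, Bivariate.swap_swap_apply] at h7
    exact h7.symm
  refine ⟨c', d, ?_, ?_, by rw [h6]⟩
  · rintro rfl
    rw [C_0, zero_dvd_iff, C_eq_zero] at h1
    exact hc h1
  · rintro rfl
    rw [h6, Polynomial.map_zero, zero_dvd_iff] at h2
    exact hm (hinj (by rw [coe_mapRingHom, h2, Polynomial.map_zero]))

/-- proof: if `a b = m` with `a = u + v y` then the norm `u² - v² F` divides `m²` over
`L(t)[x]`, so it is a constant times a divisor of `m²` in `L[x]`; clear denominators and use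
`norm_const` -/
theorem dvd_const {f g : L[X]} (h : Good f g) {A : Type} [CommRing A] [IsDomain A]
    [Algebra (RatFunc L)[X] A] {y : A} (H : Hyp f g A y) (m : L[X]) (hm : m ≠ 0) (a : A)
    (ha : a ∣ emb A m) :
    ∃ (c : RatFunc L) (w : L[X]), c ≠ 0 ∧ w ≠ 0 ∧ a = cst A c * emb A w := by
  obtain ⟨b, hab⟩ := ha
  obtain ⟨u, v, rfl⟩ := H.rep a
  obtain ⟨u', v', rfl⟩ := H.rep b
  -- the norm
  have hF := H.sq
  set ι : (RatFunc L)[X] →+* A := algebraMap (RatFunc L)[X] A with hι
  have hemb : ∀ w : L[X], emb A w = ι (w.map RatFunc.C) := fun _ => rfl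
  set F := pencil f g with hFdef
  set M : (RatFunc L)[X] := m.map (RatFunc.C : L →+* RatFunc L) with hM
  have e1 : u * u' + v * v' * F - M = 0 ∧ u * v' + v * u' = 0 := by
    apply H.uniq
    rw [hemb] at hab
    simp only [map_sub, map_add, map_mul]
    linear_combination (-1 : A) * hab - ι v * ι v' * hF
  have e2 : u * u' + v * v' * F = M := sub_eq_zero.1 e1.1
  have e3 : (u ^ 2 - v ^ 2 * F) * (u' ^ 2 - v' ^ 2 * F) = M ^ 2 := by
    linear_combination (u * u' + v * v' * F + M) * e2 - F * (u * v' + v * u') * e1.2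
  -- clear denominators
  have hclear : ∀ u v : (RatFunc L)[X], ∃ (c : L[X]) (U V : L[X][X]), c ≠ 0 ∧
      U.map (algebraMap L[X] (RatFunc L)) = C (algebraMap L[X] (RatFunc L) c) * u ∧
      V.map (algebraMap L[X] (RatFunc L)) = C (algebraMap L[X] (RatFunc L) c) * v := by
    intro u v
    obtain ⟨b1, hb1, h1⟩ := IsLocalization.integerNormalization_spec (nonZeroDivisors L[X]) u
    obtain ⟨b2, hb2, h2⟩ := IsLocalization.integerNormalization_spec (nonZeroDivisors L[X]) v
    have h3 : ∀ (r : L[X]) (w : (RatFunc L)[X]), r • w = C (algebraMap L[X] (RatFunc L) r) * w := by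
      intro r w
      rw [← algebraMap_smul (RatFunc L) r w, smul_eq_C_mul]
    rw [h3] at h1 h2
    refine ⟨b1 * b2, C b2 * IsLocalization.integerNormalization (nonZeroDivisors L[X]) u,
      C b1 * IsLocalization.integerNormalization (nonZeroDivisors L[X]) v,
      mul_ne_zero (nonZeroDivisors.ne_zero hb1) (nonZeroDivisors.ne_zero hb2), ?_, ?_⟩
    · rw [Polynomial.map_mul, map_C, h1, map_mul, C_mul]
      ring
    · rw [Polynomial.map_mul, map_C, h2, map_mul, C_mul]
      ring
  obtain ⟨c, U, V, hc, hU, hV⟩ := hclear u v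
  obtain ⟨c', U', V', hc', hU', hV'⟩ := hclear u' v'
  set al : L[X] →+* RatFunc L := algebraMap L[X] (RatFunc L) with hal
  have hali : Function.Injective al := IsFractionRing.injective L[X] (RatFunc L)
  have hmapi : Function.Injective (Polynomial.map al) := map_injective _ hali
  have halC : al.comp C = (RatFunc.C : L →+* RatFunc L) := by
    ext r
    exact RatFunc.algebraMap_C r
  have halX : al X = RatFunc.X := RatFunc.algebraMap_X
  have hF0 : (f.map C + C X * g.map C).map al = F := by
    rw [Polynomial.map_add, Polynomial.map_mul, map_C, map_map, map_map, halC, halX]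
    rfl
  have hP : (U ^ 2 - V ^ 2 * (f.map C + C X * g.map C)) *
      (U' ^ 2 - V' ^ 2 * (f.map C + C X * g.map C)) = C ((c * c') ^ 2) * (m ^ 2).map C := by
    apply hmapi
    have h4 : (m.map C).map al = M := by rw [map_map, halC]
    simp only [Polynomial.map_mul, Polynomial.map_sub, Polynomial.map_pow, map_C, hF0, hU, hV,
      hU', hV', map_mul, map_pow, h4]
    linear_combination (C (al c) * C (al c')) ^ 2 * e3
  obtain ⟨c1, d, hc1, hd, h5⟩ := unit_divisor (P := U ^ 2 - V ^ 2 * (f.map C + C X * g.map C))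
    (pow_ne_zero 2 (mul_ne_zero hc hc')) (pow_ne_zero 2 hm) ⟨_, hP.symm⟩
  obtain ⟨hV0, b, w, hb, hUw⟩ := norm_const h U V d c1 hd hc1 h5
  have hac : al c ≠ 0 := fun h0 => hc (hali (by rw [h0, map_zero]))
  have hab' : al b ≠ 0 := fun h0 => hb (hali (by rw [h0, map_zero]))
  have hCc : (C (al c) : (RatFunc L)[X]) ≠ 0 := C_ne_zero.2 hac
  have hv0 : v = 0 := by
    rw [hV0, Polynomial.map_zero] at hV
    exact (mul_eq_zero.1 hV.symm).resolve_left hCc
  have hu : u = C (al b / al c) * w.map (RatFunc.C : L →+* RatFunc L) := by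
    apply mul_left_cancel₀ hCc
    rw [← hU, hUw, Polynomial.map_mul, map_C, map_map, halC, ← mul_assoc, ← C_mul,
      mul_div_cancel₀ _ hac]
  refine ⟨al b / al c, w, div_ne_zero hab' hac, ?_, ?_⟩
  · rintro rfl
    rw [Polynomial.map_zero, mul_zero] at hu
    rw [hu, hv0] at e2
    simp only [zero_mul, add_zero] at e2
    apply hm
    exact map_injective _ (RatFunc.C : L →+* RatFunc L).injective (by
      rw [Polynomial.map_zero]
      exact e2.symm)
  · rw [hv0, map_zero, zero_mul, add_zero, hu, map_mul]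
    rfl

end Pool.Agent.Lib.MP_1a0ddd_nt
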