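import Pool.Agent.Lib.MP_1a0ddd_nt.Ded
import Pool.Agent.Lib.MP_1a0ddd_nt.Gen
import Pool.Agent.Lib.MP_1a0ddd_nt.Over
import Pool.Agent.Lib.MP_1a0ddd_nt.Unit

/-! The Picard group of the affine curve. -/

set_option autoImplicit false

namespace Pool.Agent.Lib.MP_1a0ddd_nt

open Polynomial nonZeroDivisors

section cls

variable {A : Type} [CommRing A] [IsDedekindDomain A]

/-- the class of an ideal, `0` for the zero ideal -/
private noncomputable def cls (I : Ideal A) : Additive (ClassGroup A) := by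
  classical
  exact if h : I ≠ ⊥ then Additive.ofMul (ClassGroup.mk0 ⟨I, mem_nonZeroDivisors_iff_ne_zero.2 h⟩)
    else 0

private theorem cls_of {I : Ideal A} (h : I ≠ ⊥) :
    cls I = Additive.ofMul (ClassGroup.mk0 ⟨I, mem_nonZeroDivisors_iff_ne_zero.2 h⟩) := by
  rw [cls, dif_pos h]

private theorem cls_mul {I J : Ideal A} (hI : I ≠ ⊥) (hJ : J ≠ ⊥) :
    cls (I * J) = cls I + cls J := by
  have hIJ : I * J ≠ ⊥ := mul_ne_zero hI hJ
  rw [cls_of hI, cls_of hJ, cls_of hIJ, ← ofMul_mul, ← map_mul]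
  rfl

private theorem cls_eq_zero {I : Ideal A} (hI : I ≠ ⊥) : cls I = 0 ↔ ∃ a, I = Ideal.span {a} := by
  rw [cls_of hI]
  have h1 : Additive.ofMul (ClassGroup.mk0 ⟨I, mem_nonZeroDivisors_iff_ne_zero.2 hI⟩) = 0 ↔
      ClassGroup.mk0 ⟨I, mem_nonZeroDivisors_iff_ne_zero.2 hI⟩ = 1 := Iff.rfl
  rw [h1, ClassGroup.mk0_eq_one_iff, Submodule.isPrincipal_iff]

private theorem cls_span {a : A} : cls (Ideal.span {a}) = 0 := by
  by_cases h : Ideal.span {a} = (⊥ : Ideal A)
  · rw [cls, dif_neg (not_not.2 h)]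
  · exact (cls_eq_zero h).2 ⟨a, rfl⟩

private theorem cls_top : cls (⊤ : Ideal A) = 0 := by
  rw [← Ideal.span_singleton_one]
  exact cls_span

private theorem cls_surj (c : Additive (ClassGroup A)) : ∃ I : Ideal A, I ≠ ⊥ ∧ cls I = c := by
  obtain ⟨I, hI⟩ := ClassGroup.mk0_surjective (Additive.toMul c)
  have h : (I : Ideal A) ≠ ⊥ := mem_nonZeroDivisors_iff_ne_zero.1 I.2
  refine ⟨I, h, ?_⟩
  rw [cls_of h]
  exact hI

private theorem cls_pow {I : Ideal A} (hI : I ≠ ⊥) (n : ℕ) : cls (I ^ n) = n • cls I := by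
  induction n with
  | zero => rw [pow_zero, zero_smul, Ideal.one_eq_top, cls_top]
  | succ n ih =>
    rw [pow_succ, cls_mul (pow_ne_zero n hI) hI, ih, succ_nsmul]

private theorem cls_prod {ι : Type} (s : Finset ι) (I : ι → Ideal A) (hI : ∀ i ∈ s, I i ≠ ⊥) :
    cls (∏ i ∈ s, I i) = ∑ i ∈ s, cls (I i) := by
  classical
  induction s using Finset.induction_on with
  | empty => rw [Finset.prod_empty, Finset.sum_empty, Ideal.one_eq_top, cls_top]
  | insert i s hi ih =>
    rw [Finset.prod_insert hi, Finset.sum_insert hi,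
      cls_mul (hI i (Finset.mem_insert_self i s))
        (Finset.prod_ne_zero_iff.2 fun j hj => hI j (Finset.mem_insert_of_mem hj)),
      ih fun j hj => hI j (Finset.mem_insert_of_mem hj)]

/-- if the classes of all primes containing `I` are in a subgroup then so is the class of `I` -/
private theorem cls_mem (S : AddSubgroup (Additive (ClassGroup A))) (I : Ideal A) (hI : I ≠ ⊥)
    (h : ∀ P : Ideal A, P.IsPrime → P ≠ ⊥ → I ≤ P → cls P ∈ S) : cls I ∈ S := by
  revert hI h
  refine UniqueFactorizationMonoid.induction_on_prime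
    (P := fun I : Ideal A => I ≠ ⊥ → (∀ P : Ideal A, P.IsPrime → P ≠ ⊥ → I ≤ P → cls P ∈ S) →
      cls I ∈ S) I ?_ ?_ ?_
  · intro h
    exact absurd rfl h
  · intro J hJ _ _
    rw [Ideal.isUnit_iff.1 hJ, cls_top]
    exact S.zero_mem
  · intro J P hJ hP ih _ h
    have hP1 : P.IsPrime := Ideal.isPrime_of_prime hP
    rw [cls_mul hP.ne_zero hJ]
    refine S.add_mem (h P hP1 hP.ne_zero Ideal.mul_le_left) (ih hJ fun Q hQ hQ0 hJQ => ?_)
    exact h Q hQ hQ0 (Ideal.mul_le_right.trans hJQ)

end cls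

variable {L : Type} [Field L]

private theorem finite_factors {g : L[X]} (hg : g ≠ 0) (f : L[X]) :
    {π : L[X] | π.Monic ∧ Irreducible π ∧ π ∣ g ∧ ∃ β : L[X], π ∣ f - β ^ 2}.Finite := by
  classical
  refine (UniqueFactorizationMonoid.normalizedFactors g).toFinset.finite_toSet.subset ?_
  rintro π ⟨h1, h2, h3, -⟩
  rw [Finset.mem_coe, Multiset.mem_toFinset]
  obtain ⟨q, hq, hpq⟩ := UniqueFactorizationMonoid.exists_mem_normalizedFactors_of_dvd hg h2 h3
  have h4 : q.Monic := by
    have h5 := UniqueFactorizationMonoid.normalize_normalized_factor q hq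
    rw [← h5]
    exact monic_normalize (UniqueFactorizationMonoid.ne_zero_of_mem_normalizedFactors hq)
  rw [eq_of_monic_of_associated h1 h4 hpq]
  exact hq

private theorem emb_injective {f g : L[X]} {A : Type} [CommRing A]
    [Algebra (RatFunc L)[X] A] {y : A} (H : Hyp f g A y) :
    Function.Injective (emb (L := L) A) := by
  rw [injective_iff_map_eq_zero]
  intro w hw
  have h1 := (H.uniq (w.map RatFunc.C) 0 (by
    rw [map_zero, zero_mul, add_zero]
    exact hw)).1
  exact (Polynomial.map_eq_zero_iff (RingHom.injective _)).1 h1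

theorem pic_main [CharZero L] {f g : L[X]} (h : Good f g) {A : Type} [CommRing A] [IsDomain A]
    [Algebra (RatFunc L)[X] A] {y : A} (H : Hyp f g A y) :
    Nonempty (Additive (CommRing.Pic A) ≃+ (Fin (sqFactors f g) → ℤ)) := by
  classical
  have := isDedekind h H
  let ι : Type := {π : L[X] // π ∈ {π : L[X] | π.Monic ∧ Irreducible π ∧ π ∣ g ∧
    ∃ β : L[X], π ∣ f - β ^ 2}}
  have : Finite ι := (finite_factors h.g_ne f).to_subtype
  let _ : Fintype ι := Fintype.ofFinite ι
  choose β hβ using fun i : ι => i.2.2.2.2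
  have hβ' : ∀ i : ι, i.1 ∣ f - (-β i) ^ 2 := by
    intro i
    rw [neg_sq]
    exact hβ i
  have hmon : ∀ i : ι, i.1.Monic := fun i => i.2.1
  have hirr : ∀ i : ι, Irreducible i.1 := fun i => i.2.2.1
  have hdvd : ∀ i : ι, i.1 ∣ g := fun i => i.2.2.2.1
  have hemb := emb_injective H
  have hmem : ∀ (π b : L[X]), emb A π ∈ PI A y π b := fun π b =>
    Ideal.subset_span (Set.mem_insert _ _)
  have hne0 : ∀ (i : ι) (b : L[X]), PI A y i.1 b ≠ ⊥ := by
    intro i b h0
    have h1 := hmem i.1 b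
    rw [h0, Ideal.mem_bot] at h1
    have h2 : i.1 = 0 := hemb (by rw [h1, map_zero])
    exact (hirr i).ne_zero h2
  let R : ι → Bool → Ideal A := fun i s => if s then PI A y i.1 (β i) else PI A y i.1 (-β i)
  have hR0 : ∀ i s, R i s ≠ ⊥ := by
    intro i s
    simp only [R]
    split_ifs
    · exact hne0 i _
    · exact hne0 i _
  have hRmem : ∀ i s, emb A i.1 ∈ R i s := by
    intro i s
    simp only [R]
    split_ifs
    · exact hmem _ _
    · exact hmem _ _
  have hRmax : ∀ i s, (R i s).IsMaximal := by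
    intro i s
    simp only [R]
    split_ifs
    · exact PI_isMaximal h H (hirr i) (hdvd i) (hβ i)
    · exact PI_isMaximal h H (hirr i) (hdvd i) (hβ' i)
  have hRint : ∀ i s w, emb A w ∈ R i s → i.1 ∣ w := by
    intro i s w hw
    simp only [R] at hw
    split_ifs at hw
    · exact PI_inter h H (hirr i) (hdvd i) (hβ i) w hw
    · exact PI_inter h H (hirr i) (hdvd i) (hβ' i) w hw
  have hRinj : ∀ i j s t, R i s = R j t → i = j ∧ s = t := by
    intro i j s t e
    have h1 : j.1 ∣ i.1 := hRint j t i.1 (e ▸ hRmem i s)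
    have h2 : j.1 = i.1 := eq_of_monic_of_associated (hmon j) (hmon i)
      ((hirr j).associated_of_dvd (hirr i) h1)
    have h3 : i = j := Subtype.ext h2.symm
    refine ⟨h3, ?_⟩
    subst h3
    have h4 : PI A y i.1 (β i) ≠ PI A y i.1 (-β i) := PI_ne h H (hirr i) (hdvd i) (hβ i)
    by_contra hst
    cases s <;> cases t
    · exact hst rfl
    · exact h4 e.symm
    · exact h4 e
    · exact hst rfl
  let Φ : (ι → ℤ) →+ Additive (ClassGroup A) :=
    { toFun := fun n => ∑ i, n i • cls (PI A y i.1 (β i))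
      map_zero' := by simp
      map_add' := fun n m => by
        rw [← Finset.sum_add_distrib]
        exact Finset.sum_congr rfl fun i _ => by rw [Pi.add_apply, add_smul] }
  have hΦ : ∀ n, Φ n = ∑ i, n i • cls (PI A y i.1 (β i)) := fun n => rfl
  have hneg : ∀ i : ι, cls (PI A y i.1 (-β i)) = -cls (PI A y i.1 (β i)) := by
    intro i
    have h1 := cls_mul (hne0 i (β i)) (hne0 i (-β i))
    rw [PI_mul h H (hirr i) (hdvd i) (hβ i), cls_span] at h1
    exact (neg_eq_of_add_eq_zero_right h1.symm).symm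
  have hin : ∀ i : ι, cls (PI A y i.1 (β i)) ∈ Φ.range := by
    intro i
    refine ⟨Pi.single i 1, ?_⟩
    rw [hΦ, Finset.sum_eq_single i]
    · rw [Pi.single_eq_same, one_smul]
    · intro j _ hj
      rw [Pi.single_eq_of_ne hj, zero_smul]
    · intro hi
      exact absurd (Finset.mem_univ i) hi
  have hover : ∀ P : Ideal A, P.IsPrime → emb A g ∈ P → cls P ∈ Φ.range := by
    intro P hP hg
    obtain ⟨π, h1, h2, h3, h4 | h4⟩ := primes_over h H P hP hg
    · obtain ⟨b, hb, rfl⟩ := h4
      let i : ι := ⟨π, h1, h2, h3, b, hb⟩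
      have h5 : π ∣ (b - β i) * (b - -β i) := by
        have h6 : (b - β i) * (b - -β i) = (f - (β i) ^ 2) - (f - b ^ 2) := by ring
        rw [h6]
        exact dvd_sub (hβ i) hb
      rcases h2.prime.dvd_or_dvd h5 with h6 | h6
      · rw [PI_congr A y h6]
        exact hin i
      · rw [PI_congr A y h6, hneg i]
        exact Φ.range.neg_mem (hin i)
    · rw [h4, cls_span]
      exact Φ.range.zero_mem
  have hsurj : Function.Surjective Φ := by
    intro c
    obtain ⟨I, hI, rfl⟩ := cls_surj c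
    refine cls_mem Φ.range I hI fun P hP hP0 _ => ?_
    by_cases hg : emb A g ∈ P
    · exact hover P hP hg
    · obtain ⟨J, a, ha, hPJ, N, hN⟩ := gen h H P hP hP0 hg
      have hJ0 : J ≠ ⊥ := by
        rintro rfl
        rw [Ideal.mul_bot] at hPJ
        exact ha (Ideal.span_singleton_eq_bot.1 hPJ.symm)
      have h1 := cls_mul hP0 hJ0
      rw [hPJ, cls_span] at h1
      have h2 : cls J ∈ Φ.range := by
        refine cls_mem Φ.range J hJ0 fun Q hQ _ hJQ => hover Q hQ ?_
        exact hQ.mem_of_pow_mem N (hJQ hN)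
      have h3 : cls P = -cls J := (neg_eq_of_add_eq_zero_left h1.symm).symm
      rw [h3]
      exact Φ.range.neg_mem h2
  have hinj : Function.Injective Φ := by
    rw [injective_iff_map_eq_zero]
    intro n hn
    let s : ι → Bool := fun i => decide (0 ≤ n i)
    let I : Ideal A := ∏ i, R i (s i) ^ (n i).natAbs
    have hI0 : I ≠ ⊥ := Finset.prod_ne_zero_iff.2 fun i _ => pow_ne_zero _ (hR0 i _)
    have hIcls : cls I = 0 := by
      rw [← hn, hΦ, cls_prod _ _ fun i _ => pow_ne_zero _ (hR0 i _)]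
      refine Finset.sum_congr rfl fun i _ => ?_
      rw [cls_pow (hR0 i _)]
      by_cases hi : 0 ≤ n i
      · have h1 : R i (s i) = PI A y i.1 (β i) := by
          simp only [R, s, hi, decide_true, if_true]
        rw [h1, ← natCast_zsmul, Int.natCast_natAbs, abs_of_nonneg hi]
      · have h1 : R i (s i) = PI A y i.1 (-β i) := by
          simp only [R, s, hi, decide_false, Bool.false_eq_true, if_false]
        rw [h1, hneg, ← natCast_zsmul, Int.natCast_natAbs, abs_of_neg (not_le.1 hi), smul_neg,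
          neg_smul, neg_neg]
    obtain ⟨a, ha⟩ := (cls_eq_zero hI0).1 hIcls
    have ha0 : a ≠ 0 := by
      rintro rfl
      exact hI0 (by rw [ha, Ideal.span_singleton_eq_bot])
    let m : L[X] := ∏ i : ι, i.1 ^ (n i).natAbs
    have hm0 : m ≠ 0 := Finset.prod_ne_zero_iff.2 fun i _ => pow_ne_zero _ (hirr i).ne_zero
    have hmI : emb A m ∈ I := by
      have h1 : emb A m = ∏ i : ι, emb A i.1 ^ (n i).natAbs := by
        simp only [m, map_prod, map_pow]
      rw [h1]
      exact Ideal.prod_mem_prod fun i _ => Ideal.pow_mem_pow (hRmem i _) _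
    rw [ha, Ideal.mem_span_singleton] at hmI
    obtain ⟨c, w, hc, hw, haw⟩ := dvd_const h H m hm0 a hmI
    have hwI : emb A w ∈ I := by
      rw [ha, Ideal.mem_span_singleton]
      refine ⟨cst A c⁻¹, ?_⟩
      rw [haw, mul_right_comm, ← map_mul, mul_inv_cancel₀ hc, map_one, one_mul]
    funext i
    by_contra hi
    have hi' : (n i).natAbs ≠ 0 := fun h0 => hi (Int.natAbs_eq_zero.1 h0)
    have h1 : I ≤ R i (s i) := by
      have h2 : R i (s i) ^ (n i).natAbs ∣ I :=
        Finset.dvd_prod_of_mem (fun i => R i (s i) ^ (n i).natAbs) (Finset.mem_univ i)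
      exact (Ideal.le_of_dvd h2).trans (Ideal.pow_le_self hi')
    have h2 : i.1 ∣ w := hRint i _ w (h1 hwI)
    have h3 : I ≤ R i (!s i) := by
      rw [ha, Ideal.span_singleton_le_iff_mem, haw]
      refine Ideal.mul_mem_left _ _ ?_
      obtain ⟨w', rfl⟩ := h2
      rw [map_mul]
      exact Ideal.mul_mem_right _ _ (hRmem i _)
    have hprime : (R i (!s i)).IsPrime := (hRmax i _).isPrime
    obtain ⟨j, -, hj⟩ := (hprime.prod_le).1 h3
    have h4 : R j (s j) ≤ R i (!s i) := hprime.le_of_pow_le hj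
    have h5 := (hRmax j (s j)).eq_of_le hprime.ne_top h4
    obtain ⟨rfl, h6⟩ := hRinj _ _ _ _ h5
    cases hs : s j <;> simp [hs] at h6
  have e1 : Additive (ClassGroup A) ≃+ (ι → ℤ) := (AddEquiv.ofBijective Φ ⟨hinj, hsurj⟩).symm
  have e2 : Additive (CommRing.Pic A) ≃+ Additive (ClassGroup A) :=
    MulEquiv.toAdditive (ClassGroup.equivPic A).symm
  have hcard : Nat.card ι = sqFactors f g := rfl
  have e3 : Fin (sqFactors f g) ≃ ι := (Finite.equivFinOfCardEq hcard).symm
  exact ⟨(e2.trans e1).trans (LinearEquiv.funCongrLeft ℤ ℤ e3).toAddEquiv⟩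

end Pool.Agent.Lib.MP_1a0ddd_nt
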