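import Pool.Agent.Lib.MP_1a0ddd_nt.Pic
import Pool.Agent.Lib.MP_1a0ddd_nt.Step
import Pool.Agent.Lib.MP_1a0ddd_nt.Lim

/-! Named parts of the statement of `LinearPencils`. -/

set_option autoImplicit false

namespace Pool.Agent.Lib.MP_1a0ddd_nt

open Polynomial Filter Topology

/-- `g = ∏ (x - a_i)` -/
noncomputable def splitPoly {R : Type} [CommRing R] {r : ℕ} (a : Fin r → R) : R[X] :=
  ∏ i, (X - C (a i))

/-- `f` is monic of odd degree `> r`, the `a_i` are distinct and `f(a_i) = b_i² ≠ 0` -/
structure SplitPencil {R : Type} [CommRing R] {r : ℕ} (f : R[X]) (a b : Fin r → R) : Prop where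
  monic : f.Monic
  odd : Odd f.natDegree
  lt : r < f.natDegree
  inj : Function.Injective a
  ne : ∀ i, b i ≠ 0
  eval : ∀ i, f.eval (a i) = b i ^ 2

/-- the coordinate ring `K[x, y]/(y² - F(x))` of an affine curve over a field `K` -/
def CurveRing {K : Type} [Field K] (F : K[X]) : Type := AdjoinRoot (X ^ 2 - C F : K[X][X])

noncomputable instance {K : Type} [Field K] (F : K[X]) : CommRing (CurveRing F) :=
  AdjoinRoot.instCommRing _

/-- `A` is a Dedekind domain with Picard group isomorphic to `ℤ^r` -/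
def PicIs (A : Type) [CommRing A] (r : ℕ) : Prop :=
  IsDedekindDomain A ∧ Nonempty (Additive (CommRing.Pic A) ≃+ (Fin r → ℤ))

/-- over every field `L` containing `R` the ring `L(t)[x, y]/(y² - f - t g)` is a Dedekind domain
with Picard group isomorphic to `ℤ^r` -/
def PicOverAll {R : Type} [CommRing R] (f g : R[X]) (r : ℕ) : Prop :=
  ∀ (L : Type) [Field L] (φ : R →+* L), Function.Injective φ →
    PicIs (CurveRing (pencil (f.map φ) (g.map φ))) r

private theorem natDegree_splitPoly {R : Type} [CommRing R] [IsDomain R] {r : ℕ}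
    (a : Fin r → R) : (splitPoly a).natDegree = r := by
  rw [splitPoly, natDegree_prod _ _ fun i _ => X_sub_C_ne_zero _]
  simp

theorem good_split {R : Type} [CommRing R] [IsDomain R] {L : Type} [Field L] (φ : R →+* L)
    (hφ : Function.Injective φ) {f : R[X]} {r : ℕ} {a b : Fin r → R} (h : SplitPencil f a b) :
    Good (f.map φ) ((splitPoly a).map φ) ∧
      sqFactors (f.map φ) ((splitPoly a).map φ) = r := by
  have hg : (splitPoly a).map φ = ∏ i, (X - C (φ (a i))) := by
    rw [splitPoly, Polynomial.map_prod]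
    exact Finset.prod_congr rfl fun i _ => by
      rw [Polynomial.map_sub, map_X, map_C]
  have hg' : ∏ i, (X - C (φ (a i))) = splitPoly fun i => φ (a i) := rfl
  have hφa : Function.Injective fun i => φ (a i) := hφ.comp h.inj
  have hev : ∀ i, (f.map φ).eval (φ (a i)) = φ (b i) ^ 2 := by
    intro i
    rw [eval_map_apply, h.eval, map_pow]
  have hφb : ∀ i, φ (b i) ≠ 0 := fun i h0 => h.ne i (hφ (by rw [h0, map_zero]))
  constructor
  · refine ⟨h.monic.map φ, ?_, ?_, ?_, ?_⟩
    · rw [h.monic.natDegree_map]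
      exact h.odd
    · rw [hg]
      refine (separable_prod_X_sub_C_iff.2 hφa).squarefree
    · rw [hg]
      refine IsCoprime.prod_right fun i _ => ?_
      refine ((irreducible_X_sub_C _).coprime_iff_not_dvd.2 ?_).symm
      rw [dvd_iff_isRoot, IsRoot, hev]
      exact pow_ne_zero 2 (hφb i)
    · rw [hg, hg', natDegree_splitPoly, h.monic.natDegree_map]
      exact h.lt
  · have h1 : {π : L[X] | π.Monic ∧ Irreducible π ∧ π ∣ ((splitPoly a).map φ) ∧
        ∃ β : L[X], π ∣ f.map φ - β ^ 2} = Set.range fun i => X - C (φ (a i)) := by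
      ext π
      constructor
      · rintro ⟨h2, h3, h4, -⟩
        rw [hg] at h4
        obtain ⟨i, -, h5⟩ := h3.prime.exists_mem_finset_dvd h4
        refine ⟨i, ?_⟩
        exact (eq_of_monic_of_associated h2 (monic_X_sub_C _)
          (h3.associated_of_dvd (irreducible_X_sub_C _) h5)).symm
      · rintro ⟨i, rfl⟩
        refine ⟨monic_X_sub_C _, irreducible_X_sub_C _, ?_, C (φ (b i)), ?_⟩
        · rw [hg]
          exact Finset.dvd_prod_of_mem (fun i => X - C (φ (a i))) (Finset.mem_univ i)
        · rw [dvd_iff_isRoot, IsRoot, eval_sub, eval_pow, eval_C, hev, sub_self]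
    rw [sqFactors, h1, ← Set.image_univ, Set.ncard_image_of_injective, Set.ncard_univ,
      Nat.card_eq_fintype_card, Fintype.card_fin]
    intro i j hij
    exact hφa (C_injective (sub_right_injective hij))

theorem picIs_split {R : Type} [CommRing R] [IsDomain R] [CharZero R] {L : Type} [Field L]
    (φ : R →+* L) (hφ : Function.Injective φ) {f : R[X]} {r : ℕ} {a b : Fin r → R}
    (h : SplitPencil f a b) :
    PicIs (CurveRing (pencil (f.map φ) ((splitPoly a).map φ))) r := by
  obtain ⟨h1, h2⟩ := good_split φ hφ h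
  have : CharZero L := charZero_of_injective_ringHom hφ
  have : IsDomain (CoordRing (f.map φ) ((splitPoly a).map φ)) := coordRing_isDomain h1
  have h3 := pic_main h1 (coordRing_hyp h1)
  rw [h2] at h3
  have h4 : PicIs (CoordRing (f.map φ) ((splitPoly a).map φ)) r :=
    ⟨isDedekind h1 (coordRing_hyp h1), h3⟩
  exact h4

theorem isBase_int : IsBase ℤ 0 := ⟨inferInstance, inferInstance, langWeil_int⟩

theorem isBase_poly (R : Type) [CommRing R] (d : ℕ) (h : IsBase R d) : IsBase R[X] (d + 1) := by
  obtain ⟨h1, h2, h3⟩ := h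
  exact ⟨inferInstance, inferInstance, langWeil_poly R d h3⟩

theorem isBase_hyp (R : Type) [CommRing R] (d : ℕ) (h : IsBase R d) (k : R[X]) (hm : k.Monic)
    (ho : Odd k.natDegree) : IsBase (DoubleCover R k) (d + 1) := by
  obtain ⟨h1, h2, h3⟩ := h
  exact ⟨hypRing_isDomain R k hm ho, hypRing_charZero R k hm ho,
    langWeil_hyp card_curve R d h3 k hm ho⟩

end Pool.Agent.Lib.MP_1a0ddd_nt
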